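import Pool.Agent.Lib.KV.SpecC

set_option autoImplicit false

open Set Filter Topology Metric

namespace KVC

open KP KVB KV

namespace AcFAux

section coord

variable {m k : ℕ}

/-- The map `pt` as a linear map. -/
noncomputable def ptL (m k : ℕ) : ((Ix m k → ℝ) × (Fin k → ℝ)) →ₗ[ℝ] Cn (m + k) where
  toFun := fun q => pt q.1 q.2
  map_add' := by
    intro p q
    ext i
    refine Fin.addCases (fun i => ?_) (fun i => ?_) i
    · simp only [pt, Fin.append_left, Pi.add_apply, Prod.fst_add, Complex.ofReal_add]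
      ring
    · simp only [pt, Fin.append_right, Pi.add_apply, Prod.fst_add, Prod.snd_add,
        Complex.ofReal_add]
      ring
  map_smul' := by
    intro c q
    ext i
    refine Fin.addCases (fun i => ?_) (fun i => ?_) i
    · simp only [pt, Fin.append_left, Pi.smul_apply, Prod.smul_fst, smul_eq_mul,
        Complex.ofReal_mul, RingHom.id_apply, Complex.real_smul]
      ring
    · simp only [pt, Fin.append_right, Pi.smul_apply, Prod.smul_fst, Prod.smul_snd, smul_eq_mul,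
        Complex.ofReal_mul, RingHom.id_apply, Complex.real_smul]
      ring

/-- The map `pt` as a continuous linear map. -/
noncomputable def ptC (m k : ℕ) : ((Ix m k → ℝ) × (Fin k → ℝ)) →L[ℝ] Cn (m + k) :=
  LinearMap.toContinuousLinearMap (ptL m k)

theorem ptC_apply (x : Ix m k → ℝ) (v : Fin k → ℝ) : ptC m k (x, v) = pt x v := rfl

theorem pt_sub (x x' : Ix m k → ℝ) (v v' : Fin k → ℝ) : pt x v - pt x' v' = pt (x - x') (v - v') := by
  rw [← ptC_apply, ← ptC_apply, ← ptC_apply, ← map_sub]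
  rfl

theorem pt_add (x x' : Ix m k → ℝ) (v v' : Fin k → ℝ) : pt x v + pt x' v' = pt (x + x') (v + v') := by
  rw [← ptC_apply, ← ptC_apply, ← ptC_apply, ← map_add]
  rfl

theorem xof_add (p q : Cn (m + k)) : xof (p + q) = xof p + xof q := by
  ext i
  rcases i with (i | i) | j <;> simp [xof, dir, zp, wp, rev]

theorem xof_sub (p q : Cn (m + k)) : xof (p - q) = xof p - xof q := by
  ext i
  rcases i with (i | i) | j <;> simp [xof, dir, zp, wp, rev]

theorem norm_xof (p : Cn (m + k)) : ‖xof p‖ ≤ ‖p‖ := by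
  rw [pi_norm_le_iff_of_nonneg (norm_nonneg _)]
  intro i
  rcases i with (i | i) | j
  · exact (Complex.abs_re_le_norm _).trans (norm_le_pi_norm p _)
  · exact (Complex.abs_im_le_norm _).trans (norm_le_pi_norm p _)
  · exact (Complex.abs_re_le_norm _).trans (norm_le_pi_norm p _)

theorem norm_iw (p : Cn (m + k)) : ‖imv (wp p)‖ ≤ ‖p‖ := by
  rw [pi_norm_le_iff_of_nonneg (norm_nonneg _)]
  intro j
  exact (Complex.abs_im_le_norm _).trans (norm_le_pi_norm p _)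

theorem iw_sub (p q : Cn (m + k)) : imv (wp (p - q)) = imv (wp p) - imv (wp q) := by
  ext j
  simp [imv]

theorem cont_xof : Continuous (xof : Cn (m + k) → (Ix m k → ℝ)) := by
  refine continuous_pi fun i => ?_
  rcases i with (i | i) | j
  · exact Complex.continuous_re.comp (continuous_apply _)
  · exact Complex.continuous_im.comp (continuous_apply _)
  · exact Complex.continuous_re.comp (continuous_apply _)

theorem cont_iw : Continuous (fun p : Cn (m + k) => imv (wp p)) := by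
  refine continuous_pi fun j => ?_
  exact Complex.continuous_im.comp (continuous_apply _)

end coord

/-- The first order condition at the maximum. -/
theorem step1 {m k : ℕ} {A : Set (Cn (m + k))} {O : Set (Ix m k → ℝ)}
    {h : (Ix m k → ℝ) → (Fin k → ℝ)} (hN : NF A O h) {x0 : Ix m k → ℝ} (hx0 : x0 ∈ O)
    {Φ : Cn (m + k) → ℝ} (hΦ : ContDiffAt ℝ 2 Φ (pt x0 (h x0))) (c : Fin k → ℝ)
    (b : Ix m k → ℝ) {r : ℝ} (hr : 0 < r)
    (hs : ∀ (x : Ix m k → ℝ) (v : Fin k → ℝ), ‖x - x0‖ < r → ‖v - h x0‖ < r → pt x v ∈ A →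
      Φ (pt x v) + (∑ j, c j * v j) + (∑ i, b i * x i) ≤
        Φ (pt x0 (h x0)) + (∑ j, c j * h x0 j) + (∑ i, b i * x0 i)) (ξ : Ix m k → ℝ) :
    fderiv ℝ Φ (pt x0 (h x0)) (pt ξ (fderiv ℝ h x0 ξ)) + (∑ j, c j * fderiv ℝ h x0 ξ j) +
      (∑ i, b i * ξ i) = 0 := by
  have hhd : HasFDerivAt h (fderiv ℝ h x0) x0 := (hN.ana x0 hx0).differentiableAt.hasFDerivAt
  have hΦd : HasFDerivAt Φ (fderiv ℝ Φ (pt x0 (h x0))) (pt x0 (h x0)) :=
    (hΦ.differentiableAt (by norm_num)).hasFDerivAt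
  have hptc : HasFDerivAt (fun x => pt x (h x))
      ((ptC m k).comp ((ContinuousLinearMap.id ℝ (Ix m k → ℝ)).prod (fderiv ℝ h x0))) x0 :=
    (ptC m k).hasFDerivAt.comp x0 ((hasFDerivAt_id x0).prodMk hhd)
  have hG1 : HasFDerivAt (fun x => Φ (pt x (h x))) ((fderiv ℝ Φ (pt x0 (h x0))).comp
      ((ptC m k).comp ((ContinuousLinearMap.id ℝ (Ix m k → ℝ)).prod (fderiv ℝ h x0)))) x0 :=
    hΦd.comp x0 hptc
  have hG2 : HasFDerivAt (fun x => ∑ j, c j * h x j)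
      (∑ j, c j • (ContinuousLinearMap.proj j).comp (fderiv ℝ h x0)) x0 := by
    refine HasFDerivAt.fun_sum fun j _ => ?_
    exact ((hasFDerivAt_pi'.1 hhd) j).const_mul (c j)
  have hG3 : HasFDerivAt (fun x : Ix m k → ℝ => ∑ i, b i * x i)
      (∑ i, b i • (ContinuousLinearMap.proj (R := ℝ) (φ := fun _ : Ix m k => ℝ) i)) x0 := by
    refine HasFDerivAt.fun_sum fun i _ => ?_
    exact ((ContinuousLinearMap.proj (R := ℝ) (φ := fun _ : Ix m k => ℝ) i).hasFDerivAt).const_mul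
      (b i)
  have hG := (hG1.add hG2).add hG3
  have hmax : IsLocalMax (fun x => Φ (pt x (h x)) + (∑ j, c j * h x j) + (∑ i, b i * x i)) x0 := by
    have hc0 : ContinuousAt (fun x => pt x (h x)) x0 := hptc.continuousAt
    have e1 : ∀ᶠ x in 𝓝 x0, ContDiffAt ℝ 2 Φ (pt x (h x)) :=
      hc0.eventually (hΦ.eventually (by simp))
    have e2 : ∀ᶠ x in 𝓝 x0, x ∈ O := hN.hO.mem_nhds hx0
    have e3 : ∀ᶠ x in 𝓝 x0, ‖x - x0‖ < r := by
      filter_upwards [ball_mem_nhds x0 hr] with x hx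
      rwa [mem_ball, dist_eq_norm] at hx
    have e4 : ∀ᶠ x in 𝓝 x0, ‖h x - h x0‖ < r := by
      filter_upwards [hhd.continuousAt (ball_mem_nhds (h x0) hr)] with x hx
      have hx' : h x ∈ ball (h x0) r := hx
      rwa [mem_ball, dist_eq_norm] at hx'
    filter_upwards [e1, e2, e3, e4] with x h1 h2 h3 h4
    by_contra hlt
    rw [not_le] at hlt
    have hcl : pt x (h x) ∈ closure A := (hN.pk x h2).2.1
    rw [mem_closure_iff_frequently] at hcl
    have hcont : ContinuousAt (fun z : Cn (m + k) => Φ z + (∑ j, c j * imv (wp z) j) +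
        (∑ i, b i * xof z i)) (pt x (h x)) := by
      refine (h1.continuousAt.add ?_).add ?_
      · refine Continuous.continuousAt (continuous_finsetSum _ fun j _ => ?_)
        exact continuous_const.mul ((continuous_apply j).comp cont_iw)
      · refine Continuous.continuousAt (continuous_finsetSum _ fun i _ => ?_)
        exact continuous_const.mul ((continuous_apply i).comp cont_xof)
    have hval : Φ (pt x0 (h x0)) + (∑ j, c j * h x0 j) + (∑ i, b i * x0 i) <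
        Φ (pt x (h x)) + (∑ j, c j * imv (wp (pt x (h x))) j) +
          (∑ i, b i * xof (pt x (h x)) i) := by
      rw [xof_pt, imv_pt]
      exact hlt
    have f1 := hcont.eventually (lt_mem_nhds hval)
    have f2 : ∀ᶠ z in 𝓝 (pt x (h x)), ‖xof z - x0‖ < r := by
      have hc : ContinuousAt (fun z : Cn (m + k) => ‖xof z - x0‖) (pt x (h x)) :=
        (cont_xof.sub continuous_const).norm.continuousAt
      refine hc.eventually (gt_mem_nhds ?_)
      change ‖xof (pt x (h x)) - x0‖ < r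
      rw [xof_pt]
      exact h3
    have f3 : ∀ᶠ z in 𝓝 (pt x (h x)), ‖imv (wp z) - h x0‖ < r := by
      have hc : ContinuousAt (fun z : Cn (m + k) => ‖imv (wp z) - h x0‖) (pt x (h x)) :=
        (cont_iw.sub continuous_const).norm.continuousAt
      refine hc.eventually (gt_mem_nhds ?_)
      change ‖imv (wp (pt x (h x))) - h x0‖ < r
      rw [imv_pt]
      exact h4
    obtain ⟨z, hzA, g1, g2, g3⟩ := (hcl.and_eventually (f1.and (f2.and f3))).exists
    have g4 := hs (xof z) (imv (wp z)) g2 g3 (by rw [pt_xof]; exact hzA)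
    rw [pt_xof] at g4
    exact absurd g4 (not_le.2 g1)
  have h0 := hmax.hasFDerivAt_eq_zero hG
  have h1 := DFunLike.congr_fun h0 ξ
  simp only [_root_.add_apply, ContinuousLinearMap.comp_apply,
    _root_.sum_apply, _root_.smul_apply, ContinuousLinearMap.proj_apply,
    smul_eq_mul, ContinuousLinearMap.prod_apply, ContinuousLinearMap.id_apply,
    _root_.zero_apply, ptC_apply] at h1
  exact h1

/-- The inequality at the points of `A`. -/
theorem step2 {m k : ℕ} {A : Set (Cn (m + k))} {O : Set (Ix m k → ℝ)}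
    {h : (Ix m k → ℝ) → (Fin k → ℝ)} (hT : S_Tay) (hN : NF A O h) {x0 : Ix m k → ℝ} (hx0 : x0 ∈ O)
    {Φ : Cn (m + k) → ℝ} (hΦ : ContDiffAt ℝ 2 Φ (pt x0 (h x0))) {a r : ℝ} (ha : 0 < a)
    (hr : 0 < r)
    (hs : ∀ c : Fin k → ℝ, ‖c‖ ≤ a → ∃ b : Ix m k → ℝ, ∀ (x : Ix m k → ℝ) (v : Fin k → ℝ),
      ‖x - x0‖ < r → ‖v - h x0‖ < r → pt x v ∈ A →
      Φ (pt x v) + (∑ j, c j * v j) + (∑ i, b i * x i) ≤
        Φ (pt x0 (h x0)) + (∑ j, c j * h x0 j) + (∑ i, b i * x0 i)) {η : ℝ} (hη : 0 < η) :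
    ∃ r1 > 0, ∀ q ∈ A, ‖q - pt x0 (h x0)‖ < r1 →
      (∑ j, fderiv ℝ Φ (pt x0 (h x0)) (pt 0 (Pi.single j 1)) *
        (imv (wp q) - h x0 - fderiv ℝ h x0 (xof q - x0)) j) +
      1 / 2 * D2 Φ (pt x0 (h x0)) (q - pt x0 (h x0)) - η * ‖q - pt x0 (h x0)‖ ^ 2 +
      a * ‖imv (wp q) - h x0 - fderiv ℝ h x0 (xof q - x0)‖ ≤ 0 := by
  obtain ⟨r2, hr2, hTay⟩ := hT (m + k) Φ (pt x0 (h x0)) hΦ η hη
  refine ⟨min r r2, lt_min hr hr2, ?_⟩
  intro q hq hqn
  set p0 := pt x0 (h x0) with hp0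
  have hxq : xof q - x0 = xof (q - p0) := by rw [xof_sub, hp0, xof_pt]
  have hvq : imv (wp q) - h x0 = imv (wp (q - p0)) := by rw [iw_sub, hp0, imv_pt]
  set ξ : Ix m k → ℝ := xof q - x0 with hξ
  set κ : Fin k → ℝ := imv (wp q) - h x0 - fderiv ℝ h x0 ξ with hκ
  let c : Fin k → ℝ := fun j => if 0 ≤ κ j then a else -a
  have hc : ‖c‖ ≤ a := by
    rw [pi_norm_le_iff_of_nonneg ha.le]
    intro j
    simp only [c]
    split_ifs
    · rw [Real.norm_eq_abs, abs_of_pos ha]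
    · rw [Real.norm_eq_abs, abs_neg, abs_of_pos ha]
  have hcκ : a * ‖κ‖ ≤ ∑ j, c j * κ j := by
    have hj : ∀ j, c j * κ j = a * |κ j| := by
      intro j
      simp only [c]
      split_ifs with hh
      · rw [abs_of_nonneg hh]
      · rw [abs_of_neg (not_le.1 hh)]
        ring
    simp only [hj]
    rw [← Finset.mul_sum]
    refine mul_le_mul_of_nonneg_left ?_ ha.le
    rw [pi_norm_le_iff_of_nonneg (Finset.sum_nonneg fun j _ => abs_nonneg _)]
    intro j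
    rw [Real.norm_eq_abs]
    exact Finset.single_le_sum (f := fun j => |κ j|) (fun j _ => abs_nonneg _) (Finset.mem_univ j)
  obtain ⟨b, hb⟩ := hs c hc
  have h1 := step1 hN hx0 hΦ c b hr hb ξ
  have h2 := hb (xof q) (imv (wp q))
    (lt_of_le_of_lt (by rw [← hξ, hxq]; exact norm_xof _) (lt_of_lt_of_le hqn (min_le_left _ _)))
    (lt_of_le_of_lt (by rw [hvq]; exact norm_iw _) (lt_of_lt_of_le hqn (min_le_left _ _)))
    (by rw [pt_xof]; exact hq)
  rw [pt_xof] at h2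
  have h3 := hTay (q - p0) (lt_of_lt_of_le hqn (min_le_right _ _))
  rw [add_sub_cancel] at h3
  have h3' := (abs_le.1 h3).1
  have h4 : q - p0 = pt ξ (fderiv ℝ h x0 ξ) + pt 0 κ := by
    rw [pt_add, add_zero, hκ, add_sub_cancel]
    conv_lhs => rw [← pt_xof q, hp0, pt_sub]
  have h5 : fderiv ℝ Φ p0 (pt (0 : Ix m k → ℝ) κ) =
      ∑ j, fderiv ℝ Φ p0 (pt 0 (Pi.single j 1)) * κ j := by
    have e := LinearMap.pi_apply_eq_sum_univ
      (((fderiv ℝ Φ p0).comp ((ptC m k).comp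
        (ContinuousLinearMap.inr ℝ (Ix m k → ℝ) (Fin k → ℝ)))).toLinearMap) κ
    have e' : fderiv ℝ Φ p0 (pt (0 : Ix m k → ℝ) κ) = ∑ i, κ i •
        fderiv ℝ Φ p0 (pt 0 (fun j => if i = j then 1 else 0)) := e
    rw [e']
    refine Finset.sum_congr rfl fun j _ => ?_
    have e3 : (fun i => if j = i then (1 : ℝ) else 0) = Pi.single j 1 := by
      funext i
      simp only [Pi.single_apply, eq_comm]
    rw [e3, smul_eq_mul, mul_comm]
  have h6 : fderiv ℝ Φ p0 (q - p0) = fderiv ℝ Φ p0 (pt ξ (fderiv ℝ h x0 ξ)) +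
      ∑ j, fderiv ℝ Φ p0 (pt 0 (Pi.single j 1)) * κ j := by
    rw [h4, map_add, h5]
  have h7 : ∑ j, c j * κ j = (∑ j, c j * imv (wp q) j) - (∑ j, c j * h x0 j) -
      ∑ j, c j * fderiv ℝ h x0 ξ j := by
    rw [← Finset.sum_sub_distrib, ← Finset.sum_sub_distrib]
    refine Finset.sum_congr rfl fun j _ => ?_
    simp only [hκ, Pi.sub_apply]
    ring
  have h8 : ∑ i, b i * ξ i = (∑ i, b i * xof q i) - ∑ i, b i * x0 i := by
    rw [← Finset.sum_sub_distrib]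
    refine Finset.sum_congr rfl fun j _ => ?_
    simp only [hξ, Pi.sub_apply]
    ring
  linarith

/-! ## Quadratic forms -/

/-- The bilinear form with the matrix `Q`. -/
noncomputable def bil {n : ℕ} (Q : Matrix (Fin n) (Fin n) ℂ) (u v : Cn n) : ℂ :=
  ∑ a, ∑ b, Q a b * u a * v b

theorem bil_add_left {n : ℕ} (Q : Matrix (Fin n) (Fin n) ℂ) (u u' v : Cn n) :
    bil Q (u + u') v = bil Q u v + bil Q u' v := by
  simp only [bil, Pi.add_apply, ← Finset.sum_add_distrib]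
  refine Finset.sum_congr rfl fun a _ => Finset.sum_congr rfl fun b _ => by ring

theorem bil_add_right {n : ℕ} (Q : Matrix (Fin n) (Fin n) ℂ) (u v v' : Cn n) :
    bil Q u (v + v') = bil Q u v + bil Q u v' := by
  simp only [bil, Pi.add_apply, ← Finset.sum_add_distrib]
  refine Finset.sum_congr rfl fun a _ => Finset.sum_congr rfl fun b _ => by ring

theorem bil_smul_left {n : ℕ} (Q : Matrix (Fin n) (Fin n) ℂ) (c : ℂ) (u v : Cn n) :
    bil Q (c • u) v = c * bil Q u v := by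
  simp only [bil, Pi.smul_apply, smul_eq_mul, Finset.mul_sum]
  refine Finset.sum_congr rfl fun a _ => Finset.sum_congr rfl fun b _ => by ring

theorem bil_smul_right {n : ℕ} (Q : Matrix (Fin n) (Fin n) ℂ) (c : ℂ) (u v : Cn n) :
    bil Q u (c • v) = c * bil Q u v := by
  simp only [bil, Pi.smul_apply, smul_eq_mul, Finset.mul_sum]
  refine Finset.sum_congr rfl fun a _ => Finset.sum_congr rfl fun b _ => by ring

/-- The bound for a bilinear form. -/
theorem norm_bil {n : ℕ} (Q : Matrix (Fin n) (Fin n) ℂ) : ∃ C : ℝ, 0 ≤ C ∧ ∀ u v : Cn n,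
    ‖bil Q u v‖ ≤ C * ‖u‖ * ‖v‖ := by
  refine ⟨∑ a, ∑ b, ‖Q a b‖, Finset.sum_nonneg fun a _ => Finset.sum_nonneg fun b _ =>
    norm_nonneg _, fun u v => ?_⟩
  rw [bil, Finset.sum_mul, Finset.sum_mul]
  refine (norm_sum_le _ _).trans (Finset.sum_le_sum fun a _ => ?_)
  rw [Finset.sum_mul, Finset.sum_mul]
  refine (norm_sum_le _ _).trans (Finset.sum_le_sum fun b _ => ?_)
  rw [norm_mul, norm_mul]
  have h1 := norm_le_pi_norm u a
  have h2 := norm_le_pi_norm v b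
  gcongr

/-- The bound for a vector valued quadratic map. -/
theorem norm_hq {m k : ℕ} (Q : Fin k → Matrix (Fin m) (Fin m) ℂ) : ∃ C : ℝ, 0 ≤ C ∧ ∀ z : Cn m,
    ‖hq Q z‖ ≤ C * ‖z‖ ^ 2 := by
  choose C hC0 hC using fun j => norm_bil (Q j)
  refine ⟨∑ j, C j, Finset.sum_nonneg fun j _ => hC0 j, fun z => ?_⟩
  have h0 : 0 ≤ ∑ j, C j := Finset.sum_nonneg fun j _ => hC0 j
  rw [pi_norm_le_iff_of_nonneg (mul_nonneg h0 (sq_nonneg _))]
  intro j
  have h1 := hC j z z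
  have h2 : C j ≤ ∑ j, C j := Finset.single_le_sum (fun j _ => hC0 j) (Finset.mem_univ j)
  calc ‖hq Q z j‖ = ‖bil (Q j) z z‖ := rfl
    _ ≤ C j * ‖z‖ * ‖z‖ := h1
    _ = C j * ‖z‖ ^ 2 := by ring
    _ ≤ (∑ j, C j) * ‖z‖ ^ 2 := mul_le_mul_of_nonneg_right h2 (sq_nonneg _)

/-- Bilinear forms have matrices. -/
theorem bil_mat {n : ℕ} (β : Cn n →ₗ[ℂ] Cn n →ₗ[ℂ] ℂ) : ∃ M : Matrix (Fin n) (Fin n) ℂ,
    ∀ p, β p p = ∑ a, ∑ b, M a b * p a * p b := by
  refine ⟨fun a b => β (fun i => if a = i then 1 else 0) (fun i => if b = i then 1 else 0),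
    fun w => ?_⟩
  conv_lhs => rw [LinearMap.pi_apply_eq_sum_univ β w]
  rw [LinearMap.sum_apply]
  refine Finset.sum_congr rfl fun i _ => ?_
  rw [LinearMap.smul_apply, LinearMap.pi_apply_eq_sum_univ (β (fun a => if i = a then 1 else 0)) w,
    Finset.smul_sum]
  refine Finset.sum_congr rfl fun j _ => ?_
  simp only [smul_eq_mul]
  ring

/-- The linear part of the frame. -/
noncomputable def Jf {m k : ℕ} (Lam : Matrix (Fin k) (Fin m) ℂ) (E : Matrix (Fin k) (Fin k) ℂ) :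
    Cn (m + k) →ₗ[ℂ] Cn (m + k) where
  toFun := fun p => mk (zp p) (Lam.mulVec (zp p) + E.mulVec (wp p))
  map_add' := by
    intro p q
    apply ext_zw
    · simp
    · simp only [wp_mk, zp_add, wp_add, Matrix.mulVec_add]
      abel
  map_smul' := by
    intro c p
    apply ext_zw
    · simp
    · simp only [wp_mk, zp_smul, wp_smul, Matrix.mulVec_smul, RingHom.id_apply, smul_add]

theorem Jf_apply {m k : ℕ} (Lam : Matrix (Fin k) (Fin m) ℂ) (E : Matrix (Fin k) (Fin k) ℂ)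
    (p : Cn (m + k)) : Jf Lam E p = mk (zp p) (Lam.mulVec (zp p) + E.mulVec (wp p)) := rfl

theorem Jf_ker {m k : ℕ} (Lam : Matrix (Fin k) (Fin m) ℂ) {E E' : Matrix (Fin k) (Fin k) ℂ}
    (hE : E' * E = 1) : LinearMap.ker (Jf Lam E) = ⊥ := by
  rw [LinearMap.ker_eq_bot']
  intro p hp
  rw [Jf_apply] at hp
  have h1 : zp p = 0 := by
    have := congrArg zp hp
    rwa [zp_mk, zp_zero] at this
  have h2 : E.mulVec (wp p) = 0 := by
    have := congrArg wp hp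
    rwa [wp_mk, wp_zero, h1, Matrix.mulVec_zero, zero_add] at this
  have h3 : wp p = 0 := by
    have := congrArg E'.mulVec h2
    rwa [Matrix.mulVec_mulVec, hE, Matrix.one_mulVec, Matrix.mulVec_zero] at this
  exact ext_zw h1 h3

/-- The bounds for the linear part of the frame. -/
theorem Jf_bd {m k : ℕ} (Lam : Matrix (Fin k) (Fin m) ℂ) {E E' : Matrix (Fin k) (Fin k) ℂ}
    (hE : E' * E = 1) : ∃ l0 > 0, ∃ l1 : ℝ, 0 ≤ l1 ∧ ∀ p : Cn (m + k),
      l0 * ‖p‖ ≤ ‖Jf Lam E p‖ ∧ ‖Jf Lam E p‖ ≤ l1 * ‖p‖ := by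
  obtain ⟨K, hK, hanti⟩ := LinearMap.exists_antilipschitzWith (Jf Lam E) (Jf_ker Lam hE)
  refine ⟨(K : ℝ)⁻¹, inv_pos.2 (by exact_mod_cast hK),
    ‖LinearMap.toContinuousLinearMap (Jf Lam E)‖, norm_nonneg _, fun p => ⟨?_, ?_⟩⟩
  · have h1 := hanti.le_mul_dist p 0
    rw [dist_eq_norm, dist_eq_norm, map_zero, sub_zero, sub_zero] at h1
    have hK' : (0 : ℝ) < K := by exact_mod_cast hK
    rw [inv_mul_le_iff₀ hK']
    exact h1
  · exact (LinearMap.toContinuousLinearMap (Jf Lam E)).le_opNorm p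

/-- The combined bilinear form. -/
theorem exM {m k : ℕ} (μ : Fin k → ℝ) (Lam : Matrix (Fin k) (Fin m) ℂ)
    (E : Matrix (Fin k) (Fin k) ℂ) (Qm : Fin k → Matrix (Fin m) (Fin m) ℂ)
    (M0 : Matrix (Fin (m + k)) (Fin (m + k)) ℂ) : ∃ M : Matrix (Fin (m + k)) (Fin (m + k)) ℂ,
    ∀ p : Cn (m + k), ∑ a, ∑ b, M a b * p a * p b =
      ∑ j, (μ j : ℂ) * hq Qm (zp p) j + 1 / 2 * bil M0 (Jf Lam E p) (Jf Lam E p) := by
  let β : Cn (m + k) →ₗ[ℂ] Cn (m + k) →ₗ[ℂ] ℂ := LinearMap.mk₂ ℂ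
    (fun p p' => ∑ j, (μ j : ℂ) * bil (Qm j) (zp p) (zp p') +
      1 / 2 * bil M0 (Jf Lam E p) (Jf Lam E p'))
    (by
      intro p p' q
      simp only [zp_add, map_add, bil_add_left, mul_add, Finset.sum_add_distrib]
      ring)
    (by
      intro c p q
      simp only [zp_smul, map_smul, bil_smul_left, smul_eq_mul, mul_add, Finset.mul_sum]
      congr 1
      · exact Finset.sum_congr rfl fun j _ => by ring
      · ring)
    (by
      intro p q q'
      simp only [zp_add, map_add, bil_add_right, mul_add, Finset.sum_add_distrib]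
      ring)
    (by
      intro c p q
      simp only [zp_smul, map_smul, bil_smul_right, smul_eq_mul, mul_add, Finset.mul_sum]
      congr 1
      · exact Finset.sum_congr rfl fun j _ => by ring
      · ring)
  obtain ⟨M, hM⟩ := bil_mat β
  refine ⟨M, fun p => ?_⟩
  rw [← hM]
  rfl

theorem frm_sub {m k : ℕ} (s : Cn (m + k)) (Lam : Matrix (Fin k) (Fin m) ℂ)
    (E : Matrix (Fin k) (Fin k) ℂ) (Kq : Fin k → Matrix (Fin m) (Fin m) ℂ) (p : Cn (m + k)) :
    frm s Lam E Kq p - s = mk (zp p) (omg Lam E Kq (zp p) (wp p)) := by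
  rw [frm, add_sub_cancel_left]

theorem frm_sub' {m k : ℕ} (s : Cn (m + k)) (Lam : Matrix (Fin k) (Fin m) ℂ)
    (E : Matrix (Fin k) (Fin k) ℂ) (Kq : Fin k → Matrix (Fin m) (Fin m) ℂ) (p : Cn (m + k)) :
    frm s Lam E Kq p - s = Jf Lam E p + mk 0 (hq Kq (zp p)) := by
  rw [frm_sub, Jf_apply]
  apply ext_zw
  · simp
  · simp only [wp_mk, wp_add, omg]

theorem norm_e {m k : ℕ} (w : Cn k) : ‖(mk (0 : Cn m) w : Cn (m + k))‖ = ‖w‖ := by
  rw [norm_mk, norm_zero, max_eq_right (norm_nonneg _)]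

theorem acP_re {m k : ℕ} (μ : Fin k → ℝ) (M : Matrix (Fin (m + k)) (Fin (m + k)) ℂ)
    (p : Cn (m + k)) : (acP μ M p).re =
      ∑ j, μ j * imv (wp p) j + (∑ a, ∑ b, M a b * p a * p b).re := by
  rw [acP, Complex.add_re]
  congr 1
  have e : (-Complex.I * ∑ j, (μ j : ℂ) * wp p j).re = (∑ j, (μ j : ℂ) * wp p j).im := by simp
  rw [e, Complex.im_sum]
  refine Finset.sum_congr rfl fun j _ => ?_
  rw [Complex.im_ofReal_mul]
  rfl

/-- The choice of the constants. -/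
theorem consts {g a C1 l1 : ℝ} (hg : 0 < g) (ha : 0 < a) (hC1 : 0 ≤ C1) (_ : 0 ≤ l1) :
    ∃ a' η : ℝ, 0 < a' ∧ a' ≤ a ∧ 0 < η ∧ a' * C1 ≤ g / 16 ∧ η * l1 ^ 2 ≤ g / 16 := by
  have h1 : 0 < 16 * (C1 + 1) := by positivity
  have h2 : 0 < 16 * (l1 ^ 2 + 1) := by positivity
  refine ⟨min a (g / (16 * (C1 + 1))), g / (16 * (l1 ^ 2 + 1)), lt_min ha (div_pos hg h1),
    min_le_left _ _, div_pos hg h2, ?_, ?_⟩
  · have h3 : min a (g / (16 * (C1 + 1))) * C1 ≤ g / (16 * (C1 + 1)) * (C1 + 1) :=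
      mul_le_mul (min_le_right _ _) (by linarith) hC1 (div_pos hg h1).le
    refine h3.trans (le_of_eq ?_)
    field_simp
  · have h3 : g / (16 * (l1 ^ 2 + 1)) * l1 ^ 2 ≤ g / (16 * (l1 ^ 2 + 1)) * (l1 ^ 2 + 1) :=
      mul_le_mul_of_nonneg_left (by linarith) (div_pos hg h2).le
    refine h3.trans (le_of_eq ?_)
    field_simp

/-- The choice of the radius. -/
theorem exρ {l0 l1 CK C3 g r1 : ℝ} (hl0 : 0 < l0) (hl1 : 0 ≤ l1) (hCK : 0 ≤ CK) (hC3 : 0 ≤ C3)
    (hg : 0 < g) (hr1 : 0 < r1) : ∃ ρ : ℝ, 0 < ρ ∧ ρ ≤ 1 ∧ CK * ρ ≤ l0 / 2 ∧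
      1 / 2 * C3 * ρ ≤ g / 16 ∧ l1 * ρ ≤ r1 := by
  have p1 : 0 < l0 / (2 * (CK + 1)) := by positivity
  have p2 : 0 < g / (8 * (C3 + 1)) := by positivity
  have p3 : 0 < r1 / (l1 + 1) := by positivity
  refine ⟨min 1 (min (l0 / (2 * (CK + 1))) (min (g / (8 * (C3 + 1))) (r1 / (l1 + 1)))),
    lt_min one_pos (lt_min p1 (lt_min p2 p3)), min_le_left _ _, ?_, ?_, ?_⟩
  · have h := (min_le_right (1 : ℝ) (min (l0 / (2 * (CK + 1)))
      (min (g / (8 * (C3 + 1))) (r1 / (l1 + 1))))).trans (min_le_left _ _)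
    calc _ ≤ (CK + 1) * (l0 / (2 * (CK + 1))) :=
          mul_le_mul (by linarith) h (lt_min one_pos (lt_min p1 (lt_min p2 p3))).le (by linarith)
      _ = l0 / 2 := by field_simp
  · have h := ((min_le_right (1 : ℝ) (min (l0 / (2 * (CK + 1)))
      (min (g / (8 * (C3 + 1))) (r1 / (l1 + 1))))).trans (min_le_right _ _)).trans (min_le_left _ _)
    calc _ ≤ 1 / 2 * (C3 + 1) * (g / (8 * (C3 + 1))) :=
          mul_le_mul (by linarith) h (lt_min one_pos (lt_min p1 (lt_min p2 p3))).le (by linarith)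
      _ = g / 16 := by
        field_simp
        norm_num
  · have h := ((min_le_right (1 : ℝ) (min (l0 / (2 * (CK + 1)))
      (min (g / (8 * (C3 + 1))) (r1 / (l1 + 1))))).trans (min_le_right _ _)).trans
      (min_le_right _ _)
    calc _ ≤ (l1 + 1) * (r1 / (l1 + 1)) :=
          mul_le_mul (by linarith) h (lt_min one_pos (lt_min p1 (lt_min p2 p3))).le (by linarith)
      _ = r1 := by field_simp

end AcFAux

open AcFAux in
theorem tAcF (h1 : S_Sup) (h2 : S_QF1) (h3 : S_Tay) (h4 : S_LvO) (h5 : S_D2N) : S_AcF := by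
  intro m k A O h hN x0 hx0 Lam E E' Kq Qm F hF
  obtain ⟨Φ, hΦ, hLv, a, ha, r, hr, hsup⟩ := h1 m k A O h hN x0 hx0
  obtain ⟨r', hr', m0, hm0, hLO⟩ := h4 (m + k) Φ (pt x0 (h x0)) hΦ hLv
  have hL0 : ∀ v, m0 * nsq v ≤ Lv Φ (pt x0 (h x0)) v := (hLO _ (mem_ball_self hr')).2
  have hnsq : ∀ v : Cn (m + k), ‖v‖ ^ 2 ≤ nsq v := fun v => (h5 (m + k) 0 0 v).2.2.2.1
  have hsym : ∀ u v, fderiv ℝ (fderiv ℝ Φ) (pt x0 (h x0)) u v =
      fderiv ℝ (fderiv ℝ Φ) (pt x0 (h x0)) v u := by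
    have h0 : IsSymmSndFDerivAt ℝ Φ (pt x0 (h x0)) := hΦ.isSymmSndFDerivAt (by simp)
    exact fun u v => h0 u v
  obtain ⟨M0, hM0⟩ := h2 (m + k) (fderiv ℝ (fderiv ℝ Φ) (pt x0 (h x0))) hsym
  have hD2 : ∀ v, m0 / 2 * ‖v‖ ^ 2 + (bil M0 v v).re ≤ D2 Φ (pt x0 (h x0)) v := by
    intro v
    have e1 := hM0 v
    have e2 := hL0 v
    have e3 : m0 * ‖v‖ ^ 2 ≤ m0 * nsq v := mul_le_mul_of_nonneg_left (hnsq v) hm0.le
    unfold Lv at e2
    unfold D2 at e2 ⊢
    unfold bil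
    linarith
  obtain ⟨l0, hl0, CJ, hCJ0, hJ⟩ := Jf_bd (m := m) Lam hF.inv2
  obtain ⟨CK, hCK0, hCK⟩ := norm_hq Kq
  obtain ⟨C1, hC10, hC1⟩ := norm_hq Qm
  obtain ⟨CB, hCB0, hCB⟩ := norm_bil M0
  set l1 : ℝ := CJ + CK with hl1
  have hl10 : 0 ≤ l1 := by positivity
  set g : ℝ := m0 * (l0 / 2) ^ 2 with hg
  have hg0 : 0 < g := by positivity
  set C3 : ℝ := CB * (2 * CJ * CK + CK ^ 2) with hC3
  have hC30 : 0 ≤ C3 := by positivity
  obtain ⟨a', η, ha', haa, hη, haC, hηl⟩ := consts hg0 ha hC10 hl10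
  obtain ⟨r1, hr1, hst⟩ := step2 h3 hN hx0 hΦ ha' hr
    (fun c hc => hsup x0 (mem_ball_self hr) c (hc.trans haa)) hη
  obtain ⟨ρ, hρ0, hρ1, hρK, hρ3, hρr⟩ := exρ hl0 hl10 hCK0 hC30 hg0 hr1
  set μ : Fin k → ℝ := fun j => fderiv ℝ Φ (pt x0 (h x0)) (pt 0 (Pi.single j 1)) with hμ
  obtain ⟨M, hM⟩ := exM μ Lam E Qm M0
  refine ⟨μ, M, min a' (g / 16), ρ, hρ0, lt_min ha' (by positivity), ?_⟩
  rintro p ⟨hp, hpA⟩
  have hpn : ‖p‖ < ρ := by simpa using hp
  set N : ℝ := ‖p‖ with hNd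
  have hN0 : 0 ≤ N := norm_nonneg _
  have hN1 : N ≤ 1 := hpn.le.trans hρ1
  set q : Cn (m + k) := frm (pt x0 (h x0)) Lam E Kq p with hqd
  set e : Cn (m + k) := mk 0 (hq Kq (zp p)) with hed
  have hv : q - pt x0 (h x0) = Jf Lam E p + e := frm_sub' _ _ _ _ _
  have hz : ‖zp p‖ ≤ N := norm_zp_le p
  have hz2 : ‖zp p‖ ^ 2 ≤ N ^ 2 := pow_le_pow_left₀ (norm_nonneg _) hz 2
  have he : ‖e‖ ≤ CK * N ^ 2 := by
    rw [hed, norm_e]
    exact (hCK _).trans (mul_le_mul_of_nonneg_left hz2 hCK0)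
  have hN2 : N ^ 2 ≤ N := by nlinarith
  have heN : ‖e‖ ≤ CK * N := he.trans (mul_le_mul_of_nonneg_left hN2 hCK0)
  have hJl := (hJ p).1
  have hJu := (hJ p).2
  have hvu : ‖q - pt x0 (h x0)‖ ≤ l1 * N := by
    rw [hv]
    refine (norm_add_le _ _).trans ?_
    rw [hl1, add_mul]
    linarith
  have hvl : l0 / 2 * N ≤ ‖q - pt x0 (h x0)‖ := by
    rw [hv]
    have e1 : ‖Jf Lam E p‖ - ‖e‖ ≤ ‖Jf Lam E p + e‖ := by
      have := norm_sub_norm_le (Jf Lam E p) (-e)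
      rwa [norm_neg, sub_neg_eq_add] at this
    have e2 : ‖e‖ ≤ l0 / 2 * N := by
      refine he.trans ?_
      have e3 : CK * N ≤ l0 / 2 := (mul_le_mul_of_nonneg_left hpn.le hCK0).trans hρK
      calc CK * N ^ 2 = CK * N * N := by ring
        _ ≤ l0 / 2 * N := mul_le_mul_of_nonneg_right e3 hN0
    linarith
  have hvr : ‖q - pt x0 (h x0)‖ < r1 ∨ N = 0 := by
    rcases hN0.eq_or_lt with h0 | h0
    · exact Or.inr h0.symm
    · left
      rcases hl10.eq_or_lt with h0' | h0'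
      · rw [← h0', zero_mul] at hvu
        linarith
      · exact lt_of_le_of_lt hvu (lt_of_lt_of_le (mul_lt_mul_of_pos_left hpn h0') hρr)
  have hvr' : ‖q - pt x0 (h x0)‖ < r1 := by
    rcases hvr with h0 | h0
    · exact h0
    · rw [h0, mul_zero] at hvu
      linarith
  have hmain := hst q hpA hvr'
  have hxi : xof q - x0 = dir (zp p) (rev (omg Lam E Kq (zp p) (wp p))) := by
    have e1 : xof (q - pt x0 (h x0)) = xof q - x0 := by rw [xof_sub, xof_pt]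
    rw [← e1, hqd, frm_sub, xof, zp_mk, wp_mk]
  have hiw : imv (wp q) - h x0 = imv (omg Lam E Kq (zp p) (wp p)) := by
    have e1 : imv (wp (q - pt x0 (h x0))) = imv (wp q) - h x0 := by rw [iw_sub, imv_pt]
    rw [← e1, hqd, frm_sub, wp_mk]
  have hκ : imv (wp q) - h x0 - fderiv ℝ h x0 (xof q - x0) = imv (wp p) + rev (hq Qm (zp p)) := by
    rw [hiw, hxi]
    exact hF.lin (zp p) (wp p)
  rw [hκ] at hmain
  -- the quadratic form
  have hbil : (bil M0 (Jf Lam E p) (Jf Lam E p)).re - C3 * N ^ 3 ≤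
      (bil M0 (q - pt x0 (h x0)) (q - pt x0 (h x0))).re := by
    rw [hv, bil_add_left, bil_add_right, bil_add_right]
    have b1 : ‖bil M0 (Jf Lam E p) e‖ ≤ CB * (CJ * N) * (CK * N ^ 2) := by
      refine (hCB _ _).trans ?_
      gcongr
    have b2 : ‖bil M0 e (Jf Lam E p)‖ ≤ CB * (CK * N ^ 2) * (CJ * N) := by
      refine (hCB _ _).trans ?_
      gcongr
    have b3 : ‖bil M0 e e‖ ≤ CB * (CK * N ^ 2) * (CK * N) := by
      refine (hCB _ _).trans ?_
      gcongr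
    have c1 := (abs_le.1 ((Complex.abs_re_le_norm _).trans b1)).1
    have c2 := (abs_le.1 ((Complex.abs_re_le_norm _).trans b2)).1
    have c3 := (abs_le.1 ((Complex.abs_re_le_norm _).trans b3)).1
    simp only [Complex.add_re]
    have c4 : C3 * N ^ 3 = CB * (CJ * N) * (CK * N ^ 2) + CB * (CK * N ^ 2) * (CJ * N) +
        CB * (CK * N ^ 2) * (CK * N) := by
      rw [hC3]
      ring
    linarith
  have hd2 := hD2 (q - pt x0 (h x0))
  have hvl2 : g * N ^ 2 ≤ m0 * ‖q - pt x0 (h x0)‖ ^ 2 := by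
    have e1 : (l0 / 2 * N) ^ 2 ≤ ‖q - pt x0 (h x0)‖ ^ 2 :=
      pow_le_pow_left₀ (by positivity) hvl 2
    calc g * N ^ 2 = m0 * (l0 / 2 * N) ^ 2 := by rw [hg]; ring
      _ ≤ m0 * ‖q - pt x0 (h x0)‖ ^ 2 := mul_le_mul_of_nonneg_left e1 hm0.le
  have hvu2 : η * ‖q - pt x0 (h x0)‖ ^ 2 ≤ g / 16 * N ^ 2 := by
    have e1 : ‖q - pt x0 (h x0)‖ ^ 2 ≤ (l1 * N) ^ 2 := pow_le_pow_left₀ (norm_nonneg _) hvu 2
    calc η * ‖q - pt x0 (h x0)‖ ^ 2 ≤ η * (l1 * N) ^ 2 := mul_le_mul_of_nonneg_left e1 hη.le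
      _ = η * l1 ^ 2 * N ^ 2 := by ring
      _ ≤ g / 16 * N ^ 2 := mul_le_mul_of_nonneg_right hηl (sq_nonneg _)
  have hC3N : 1 / 2 * (C3 * N ^ 3) ≤ g / 16 * N ^ 2 := by
    have e1 : 1 / 2 * C3 * N ≤ g / 16 :=
      (mul_le_mul_of_nonneg_left hpn.le (by positivity)).trans hρ3
    calc 1 / 2 * (C3 * N ^ 3) = 1 / 2 * C3 * N * N ^ 2 := by ring
      _ ≤ g / 16 * N ^ 2 := mul_le_mul_of_nonneg_right e1 (sq_nonneg _)
  have hκn : a' * ‖imv (wp p)‖ - g / 16 * N ^ 2 ≤ a' * ‖imv (wp p) + rev (hq Qm (zp p))‖ := by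
    have e1 : ‖rev (hq Qm (zp p))‖ ≤ C1 * N ^ 2 := by
      have e2 : ‖rev (hq Qm (zp p))‖ ≤ ‖hq Qm (zp p)‖ := by
        rw [pi_norm_le_iff_of_nonneg (norm_nonneg _)]
        intro j
        exact (Complex.abs_re_le_norm _).trans (norm_le_pi_norm _ j)
      exact e2.trans ((hC1 _).trans (mul_le_mul_of_nonneg_left hz2 hC10))
    have e3 : ‖imv (wp p)‖ - ‖rev (hq Qm (zp p))‖ ≤ ‖imv (wp p) + rev (hq Qm (zp p))‖ := by
      have := norm_sub_norm_le (imv (wp p)) (-rev (hq Qm (zp p)))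
      rwa [norm_neg, sub_neg_eq_add] at this
    have e4 : a' * (‖imv (wp p)‖ - C1 * N ^ 2) ≤ a' * ‖imv (wp p) + rev (hq Qm (zp p))‖ :=
      mul_le_mul_of_nonneg_left (by linarith) ha'.le
    have e5 : a' * C1 * N ^ 2 ≤ g / 16 * N ^ 2 := mul_le_mul_of_nonneg_right haC (sq_nonneg _)
    linarith
  have hsum : ∑ j, fderiv ℝ Φ (pt x0 (h x0)) (pt 0 (Pi.single j 1)) *
      (imv (wp p) + rev (hq Qm (zp p))) j =
      ∑ j, μ j * imv (wp p) j + (∑ j, (μ j : ℂ) * hq Qm (zp p) j).re := by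
    rw [Complex.re_sum, ← Finset.sum_add_distrib]
    refine Finset.sum_congr rfl fun j _ => ?_
    rw [Complex.re_ofReal_mul, Pi.add_apply, mul_add]
    rfl
  have hre : (∑ a, ∑ b, M a b * p a * p b).re = (∑ j, (μ j : ℂ) * hq Qm (zp p) j).re +
      1 / 2 * (bil M0 (Jf Lam E p) (Jf Lam E p)).re := by
    rw [hM, Complex.add_re]
    congr 1
    have e1 : (1 / 2 * bil M0 (Jf Lam E p) (Jf Lam E p) : ℂ) =
        ((1 / 2 : ℝ) : ℂ) * bil M0 (Jf Lam E p) (Jf Lam E p) := by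
      push_cast
      ring
    rw [e1, Complex.re_ofReal_mul]
  rw [acP_re, hre]
  rw [hsum] at hmain
  have hb1 : min a' (g / 16) * ‖imv (wp p)‖ ≤ a' * ‖imv (wp p)‖ :=
    mul_le_mul_of_nonneg_right (min_le_left _ _) (norm_nonneg _)
  have hb2 : min a' (g / 16) * N ^ 2 ≤ g / 16 * N ^ 2 :=
    mul_le_mul_of_nonneg_right (min_le_right _ _) (sq_nonneg _)
  rw [mul_add]
  linarith

end KVC
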