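import Pool.Agent.Lib.KV.SpecC

/-!
# KV, block C: the limit of the acute inequality (AcLi)
-/

set_option autoImplicit false

open Set Filter Topology Metric

namespace KVC

open KP KVB KV

namespace AcLiAux

variable {m k : ℕ}

theorem dil_castAdd (σ : ℝ) (p : Cn (m + k)) (a : Fin m) :
    dil σ p (Fin.castAdd k a) = (σ : ℂ) * zp p a := by
  simp [dil, mk]

theorem dil_natAdd (σ : ℝ) (p : Cn (m + k)) (j : Fin k) :
    dil σ p (Fin.natAdd m j) = (σ : ℂ) ^ 2 * wp p j := by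
  simp [dil, mk]

theorem acP_dil (μ : Fin k → ℝ) (M : Matrix (Fin (m + k)) (Fin (m + k)) ℂ) (p : Cn (m + k)) :
    ∃ Q1 Q2 : ℂ, ∀ σ : ℝ, acP μ M (dil σ p) = (σ : ℂ) ^ 2 *
      (-Complex.I * ∑ j, (μ j : ℂ) * wp p j +
        ∑ a, ∑ a', M (Fin.castAdd k a) (Fin.castAdd k a') * zp p a * zp p a' +
        ((σ : ℂ) * Q1 + (σ : ℂ) ^ 2 * Q2)) := by
  refine ⟨∑ a, ∑ j, M (Fin.castAdd k a) (Fin.natAdd m j) * zp p a * wp p j +
    ∑ j, ∑ a, M (Fin.natAdd m j) (Fin.castAdd k a) * wp p j * zp p a,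
    ∑ j, ∑ j', M (Fin.natAdd m j) (Fin.natAdd m j') * wp p j * wp p j', fun σ => ?_⟩
  unfold acP
  simp only [Fin.sum_univ_add, Finset.sum_add_distrib, dil_castAdd, dil_natAdd]
  have h0 : ∑ j, (μ j : ℂ) * wp (dil σ p) j = (σ : ℂ) ^ 2 * ∑ j, (μ j : ℂ) * wp p j := by
    rw [Finset.mul_sum]
    refine Finset.sum_congr rfl fun j _ => ?_
    rw [wp_dil, Pi.smul_apply, smul_eq_mul]
    ring
  have h11 : ∑ a, ∑ a', M (Fin.castAdd k a) (Fin.castAdd k a') * ((σ : ℂ) * zp p a) *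
      ((σ : ℂ) * zp p a') = (σ : ℂ) ^ 2 *
      ∑ a, ∑ a', M (Fin.castAdd k a) (Fin.castAdd k a') * zp p a * zp p a' := by
    rw [Finset.mul_sum]
    refine Finset.sum_congr rfl fun a _ => ?_
    rw [Finset.mul_sum]
    refine Finset.sum_congr rfl fun a' _ => ?_
    ring
  have h12 : ∑ a, ∑ j, M (Fin.castAdd k a) (Fin.natAdd m j) * ((σ : ℂ) * zp p a) *
      ((σ : ℂ) ^ 2 * wp p j) = (σ : ℂ) ^ 3 *
      ∑ a, ∑ j, M (Fin.castAdd k a) (Fin.natAdd m j) * zp p a * wp p j := by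
    rw [Finset.mul_sum]
    refine Finset.sum_congr rfl fun a _ => ?_
    rw [Finset.mul_sum]
    refine Finset.sum_congr rfl fun j _ => ?_
    ring
  have h21 : ∑ j, ∑ a, M (Fin.natAdd m j) (Fin.castAdd k a) * ((σ : ℂ) ^ 2 * wp p j) *
      ((σ : ℂ) * zp p a) = (σ : ℂ) ^ 3 *
      ∑ j, ∑ a, M (Fin.natAdd m j) (Fin.castAdd k a) * wp p j * zp p a := by
    rw [Finset.mul_sum]
    refine Finset.sum_congr rfl fun j _ => ?_
    rw [Finset.mul_sum]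
    refine Finset.sum_congr rfl fun a _ => ?_
    ring
  have h22 : ∑ j, ∑ j', M (Fin.natAdd m j) (Fin.natAdd m j') * ((σ : ℂ) ^ 2 * wp p j) *
      ((σ : ℂ) ^ 2 * wp p j') = (σ : ℂ) ^ 4 *
      ∑ j, ∑ j', M (Fin.natAdd m j) (Fin.natAdd m j') * wp p j * wp p j' := by
    rw [Finset.mul_sum]
    refine Finset.sum_congr rfl fun j _ => ?_
    rw [Finset.mul_sum]
    refine Finset.sum_congr rfl fun j' _ => ?_
    ring
  rw [h0, h11, h12, h21, h22]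
  ring

theorem imv_dil (σ : ℝ) (p : Cn (m + k)) : imv (wp (dil σ p)) = (σ ^ 2) • imv (wp p) := by
  ext j
  have h : ((σ : ℂ) ^ 2) = ((σ ^ 2 : ℝ) : ℂ) := by push_cast; rfl
  rw [wp_dil, Pi.smul_apply]
  unfold imv
  rw [Pi.smul_apply, smul_eq_mul, smul_eq_mul, h, Complex.im_ofReal_mul]

end AcLiAux

theorem tAcLi : S_AcLi := by
  intro m k R μ M b hA p hev
  obtain ⟨hb, hA⟩ := hA
  obtain ⟨Q1, Q2, hQ⟩ := AcLiAux.acP_dil μ M p
  set X0 : ℂ := -Complex.I * ∑ j, (μ j : ℂ) * wp p j +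
    ∑ a, ∑ a', M (Fin.castAdd k a) (Fin.castAdd k a') * zp p a * zp p a' with hX0
  set c : ℝ := b * (‖imv (wp p)‖ + ‖zp p‖ ^ 2) with hc
  have hre : X0.re = ∑ j, μ j * imv (wp p) j +
      (∑ a, ∑ a', M (Fin.castAdd k a) (Fin.castAdd k a') * zp p a * zp p a').re := by
    rw [hX0, Complex.add_re]
    congr 1
    have h1 : (-Complex.I * ∑ j, (μ j : ℂ) * wp p j).re = (∑ j, (μ j : ℂ) * wp p j).im := by
      simp [Complex.mul_re]
    rw [h1, Complex.im_sum]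
    refine Finset.sum_congr rfl fun j _ => ?_
    rw [Complex.im_ofReal_mul]
    rfl
  rw [← hre]
  have hcont : Continuous (fun σ : ℝ =>
      (X0 + ((σ : ℂ) * Q1 + (σ : ℂ) ^ 2 * Q2)).re + c) := by fun_prop
  have hlim : Tendsto (fun σ : ℝ => (X0 + ((σ : ℂ) * Q1 + (σ : ℂ) ^ 2 * Q2)).re + c)
      (𝓝[>] (0 : ℝ)) (𝓝 (X0.re + c)) := by
    have h1 := (hcont.tendsto 0).mono_left (nhdsWithin_le_nhds (s := Ioi (0 : ℝ)))
    simpa using h1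
  refine le_of_tendsto hlim ?_
  filter_upwards [hev, self_mem_nhdsWithin] with σ hσ hσ0
  have hσ0' : (0 : ℝ) < σ := hσ0
  have h1 := hA _ hσ
  rw [hQ σ, AcLiAux.imv_dil, norm_smul, Real.norm_of_nonneg (by positivity : (0 : ℝ) ≤ σ ^ 2)]
    at h1
  have h2 : (((σ : ℂ) ^ 2) * (X0 + ((σ : ℂ) * Q1 + (σ : ℂ) ^ 2 * Q2))).re =
      σ ^ 2 * (X0 + ((σ : ℂ) * Q1 + (σ : ℂ) ^ 2 * Q2)).re := by
    have h : ((σ : ℂ) ^ 2) = ((σ ^ 2 : ℝ) : ℂ) := by push_cast; rfl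
    rw [h, Complex.re_ofReal_mul, ← h]
  rw [h2] at h1
  have h3 : σ ^ 2 * ‖zp p‖ ^ 2 ≤ ‖dil σ p‖ ^ 2 := by
    have h4 := norm_zp_le (dil σ p)
    rw [zp_dil, norm_smul, Complex.norm_real, Real.norm_of_nonneg hσ0'.le] at h4
    calc σ ^ 2 * ‖zp p‖ ^ 2 = (σ * ‖zp p‖) ^ 2 := by ring
      _ ≤ ‖dil σ p‖ ^ 2 := pow_le_pow_left₀ (by positivity) h4 2
  have h5 : σ ^ 2 * ((X0 + ((σ : ℂ) * Q1 + (σ : ℂ) ^ 2 * Q2)).re + c) ≤ 0 := by
    have h6 : b * (σ ^ 2 * ‖zp p‖ ^ 2) ≤ b * ‖dil σ p‖ ^ 2 := mul_le_mul_of_nonneg_left h3 hb.le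
    rw [hc]
    nlinarith
  by_contra h7
  rw [not_le] at h7
  have : 0 < σ ^ 2 * ((X0 + ((σ : ℂ) * Q1 + (σ : ℂ) ^ 2 * Q2)).re + c) := by positivity
  linarith

end KVC
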