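import Pool.Agent.Lib.KV.SpecC

set_option autoImplicit false

open Set Filter Topology Metric

namespace KVC

open KP KVB KV

namespace AcNAux

theorem differentiable_acP {m k : ℕ} (μ : Fin k → ℝ)
    (M : Matrix (Fin (m + k)) (Fin (m + k)) ℂ) :
    Differentiable ℂ (acP μ M : Cn (m + k) → ℂ) := by
  unfold acP
  have hw : ∀ j : Fin k, Differentiable ℂ (fun p : Cn (m + k) => wp p j) := fun j =>
    differentiable_pi.1 differentiable_wp j
  refine Differentiable.add ?_ ?_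
  · refine (Differentiable.fun_sum fun j _ => ?_).const_mul _
    exact (hw j).const_mul _
  · refine Differentiable.fun_sum fun a _ => Differentiable.fun_sum fun b _ => ?_
    exact ((differentiable_apply a).const_mul _).mul (differentiable_apply b)

theorem norm_dil_le {m k : ℕ} {σ : ℝ} (h0 : 0 < σ) (h1 : σ ≤ 1) (p : Cn (m + k)) :
    ‖dil σ p‖ ≤ σ * ‖p‖ := by
  unfold dil
  rw [norm_mk, norm_smul, norm_smul, norm_pow, Complex.norm_real, Real.norm_of_nonneg h0.le]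
  refine max_le (mul_le_mul_of_nonneg_left (norm_zp_le p) h0.le) ?_
  have e1 : σ ^ 2 ≤ σ := by nlinarith
  exact mul_le_mul e1 (norm_wp_le p) (norm_nonneg _) h0.le

theorem le_norm_dil {m k : ℕ} {σ : ℝ} (h0 : 0 < σ) (p : Cn (m + k)) :
    σ * ‖zp p‖ ≤ ‖dil σ p‖ := by
  unfold dil
  rw [norm_mk, norm_smul, Complex.norm_real, Real.norm_of_nonneg h0.le]
  exact le_max_left _ _

theorem imv_dil {m k : ℕ} (σ : ℝ) (p : Cn (m + k)) :
    ‖imv (wp (dil σ p))‖ = σ ^ 2 * ‖imv (wp p)‖ := by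
  have e : imv (wp (dil σ p)) = σ ^ 2 • imv (wp p) := by
    ext j
    simp only [wp_dil, imv, Pi.smul_apply, smul_eq_mul]
    rw [← Complex.ofReal_pow, Complex.im_ofReal_mul]
  rw [e, norm_smul, Real.norm_of_nonneg (sq_nonneg σ)]

theorem norm_acP {m k : ℕ} (μ : Fin k → ℝ) (M : Matrix (Fin (m + k)) (Fin (m + k)) ℂ) {σ : ℝ}
    (h0 : 0 < σ) (h1 : σ ≤ 1) (p : Cn (m + k)) :
    ‖acP μ M (dil σ p)‖ ≤
      σ ^ 2 * (((∑ j, |μ j|) + ∑ a, ∑ b, ‖M a b‖) * (‖p‖ + ‖p‖ ^ 2)) := by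
  have hd := norm_dil_le h0 h1 p
  have ha : ∀ a, ‖dil σ p a‖ ≤ σ * ‖p‖ := fun a => (norm_le_pi_norm _ a).trans hd
  have e1 : ‖-Complex.I * ∑ j, (μ j : ℂ) * wp (dil σ p) j‖ ≤ (∑ j, |μ j|) * (σ ^ 2 * ‖p‖) := by
    rw [norm_mul, norm_neg, Complex.norm_I, one_mul, Finset.sum_mul]
    refine (norm_sum_le _ _).trans (Finset.sum_le_sum fun j _ => ?_)
    rw [norm_mul, Complex.norm_real, Real.norm_eq_abs]
    refine mul_le_mul_of_nonneg_left ?_ (abs_nonneg _)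
    rw [wp_dil, Pi.smul_apply, smul_eq_mul, norm_mul, norm_pow, Complex.norm_real,
      Real.norm_of_nonneg h0.le]
    exact mul_le_mul_of_nonneg_left ((norm_le_pi_norm _ j).trans (norm_wp_le p)) (sq_nonneg _)
  have e2 : ‖∑ a, ∑ b, M a b * dil σ p a * dil σ p b‖ ≤
      (∑ a, ∑ b, ‖M a b‖) * (σ ^ 2 * ‖p‖ ^ 2) := by
    rw [Finset.sum_mul]
    refine (norm_sum_le _ _).trans (Finset.sum_le_sum fun a _ => ?_)
    rw [Finset.sum_mul]
    refine (norm_sum_le _ _).trans (Finset.sum_le_sum fun b _ => ?_)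
    rw [norm_mul, norm_mul, mul_assoc]
    refine mul_le_mul_of_nonneg_left ?_ (norm_nonneg _)
    calc ‖dil σ p a‖ * ‖dil σ p b‖ ≤ (σ * ‖p‖) * (σ * ‖p‖) :=
          mul_le_mul (ha a) (ha b) (norm_nonneg _) (mul_nonneg h0.le (norm_nonneg _))
      _ = σ ^ 2 * ‖p‖ ^ 2 := by ring
  have s1 : 0 ≤ ∑ j, |μ j| := Finset.sum_nonneg fun j _ => abs_nonneg _
  have s2 : 0 ≤ ∑ a, ∑ b, ‖M a b‖ :=
    Finset.sum_nonneg fun a _ => Finset.sum_nonneg fun b _ => norm_nonneg _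
  have hs : 0 ≤ σ ^ 2 := sq_nonneg _
  have hp : 0 ≤ ‖p‖ := norm_nonneg _
  unfold acP
  refine (norm_add_le _ _).trans ?_
  have f1 : 0 ≤ (∑ j, |μ j|) * (σ ^ 2 * ‖p‖ ^ 2) :=
    mul_nonneg s1 (mul_nonneg hs (sq_nonneg _))
  have f2 : 0 ≤ (∑ a, ∑ b, ‖M a b‖) * (σ ^ 2 * ‖p‖) := mul_nonneg s2 (mul_nonneg hs hp)
  calc _ ≤ (∑ j, |μ j|) * (σ ^ 2 * ‖p‖) + (∑ a, ∑ b, ‖M a b‖) * (σ ^ 2 * ‖p‖ ^ 2) :=
        add_le_add e1 e2
    _ ≤ (∑ j, |μ j|) * (σ ^ 2 * ‖p‖) + (∑ a, ∑ b, ‖M a b‖) * (σ ^ 2 * ‖p‖ ^ 2) +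
        ((∑ j, |μ j|) * (σ ^ 2 * ‖p‖ ^ 2) + (∑ a, ∑ b, ‖M a b‖) * (σ ^ 2 * ‖p‖)) := by
        linarith
    _ = _ := by ring

end AcNAux

open AcNAux in
theorem tAcN (h1 : S_HP) : S_AcN := by
  intro m k R μ M b hA M0
  obtain ⟨hb, hR⟩ := hA
  set C1 : ℝ := (∑ j, |μ j|) + ∑ a, ∑ b, ‖M a b‖ with hC1
  have hC0 : 0 ≤ C1 := add_nonneg (Finset.sum_nonneg fun j _ => abs_nonneg _)
    (Finset.sum_nonneg fun a _ => Finset.sum_nonneg fun b _ => norm_nonneg _)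
  set T0 : ℝ := 7 * (C1 * (|M0| + |M0| ^ 2)) with hT0
  have hT00 : 0 ≤ T0 := by positivity
  set T : ℝ := T0 / b with hT
  have hTn : 0 ≤ T := div_nonneg hT00 hb.le
  refine ⟨6 * T + 5 * |M0| + 1, ?_⟩
  intro σ hσ hσ1 f hf hfR hf0
  have hs2 : 0 < σ ^ 2 := by positivity
  have hf0' : ‖f 0‖ ≤ |M0| := hf0.trans (le_abs_self _)
  -- the auxiliary function
  have hκd : DifferentiableOn ℂ
      (fun t => -acP μ M (dil σ (f t)) * (((σ ^ 2)⁻¹ : ℝ) : ℂ)) (ball 0 1) := by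
    have e1 : DifferentiableOn ℂ (fun t => dil σ (f t)) (ball 0 1) :=
      (differentiable_dil σ).comp_differentiableOn hf
    exact (((differentiable_acP μ M).comp_differentiableOn e1).neg).mul_const _
  have hκre : ∀ t ∈ ball (0 : ℂ) 1, b * (‖imv (wp (f t))‖ + ‖zp (f t)‖ ^ 2) ≤
      (-acP μ M (dil σ (f t)) * (((σ ^ 2)⁻¹ : ℝ) : ℂ)).re := by
    intro t ht
    have e1 := hR _ (hfR t ht)
    rw [imv_dil] at e1
    have e2 : σ ^ 2 * ‖zp (f t)‖ ^ 2 ≤ ‖dil σ (f t)‖ ^ 2 := by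
      have := le_norm_dil hσ (f t)
      have h3 : 0 ≤ σ * ‖zp (f t)‖ := mul_nonneg hσ.le (norm_nonneg _)
      calc σ ^ 2 * ‖zp (f t)‖ ^ 2 = (σ * ‖zp (f t)‖) ^ 2 := by ring
        _ ≤ _ := pow_le_pow_left₀ h3 this 2
    rw [Complex.re_mul_ofReal, Complex.neg_re]
    rw [← div_eq_mul_inv, le_div_iff₀ hs2]
    have e3 := mul_le_mul_of_nonneg_left e2 hb.le
    nlinarith
  have hκ0 : ‖-acP μ M (dil σ (f 0)) * (((σ ^ 2)⁻¹ : ℝ) : ℂ)‖ ≤ C1 * (|M0| + |M0| ^ 2) := by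
    rw [norm_mul, norm_neg, Complex.norm_real, Real.norm_of_nonneg (inv_nonneg.2 hs2.le),
      ← div_eq_mul_inv, div_le_iff₀ hs2]
    refine (norm_acP μ M hσ hσ1 (f 0)).trans ?_
    rw [mul_comm]
    refine mul_le_mul_of_nonneg_right ?_ hs2.le
    refine mul_le_mul_of_nonneg_left ?_ hC0
    have := pow_le_pow_left₀ (norm_nonneg (f 0)) hf0' 2
    linarith
  have hball : ∀ t ∈ ball (0 : ℂ) (3 / 4), t ∈ ball (0 : ℂ) 1 := fun t ht =>
    ball_subset_ball (by norm_num) ht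
  have hkey : ∀ t ∈ ball (0 : ℂ) (3 / 4), ‖imv (wp (f t))‖ ≤ T ∧ ‖zp (f t)‖ ^ 2 ≤ T := by
    intro t ht
    have ht1 := hball t ht
    have e1 := h1 _ 1 one_pos hκd
      (fun t ht => le_trans (mul_nonneg hb.le (add_nonneg (norm_nonneg _) (sq_nonneg _)))
        (hκre t ht)) t ht1
    have e2 := hκre t ht1
    have e3 := Complex.re_le_norm (-acP μ M (dil σ (f t)) * (((σ ^ 2)⁻¹ : ℝ) : ℂ))
    have e4 : ‖t‖ < 3 / 4 := by simpa using ht
    have e5 : ‖-acP μ M (dil σ (f t)) * (((σ ^ 2)⁻¹ : ℝ) : ℂ)‖ * (1 / 4) ≤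
        C1 * (|M0| + |M0| ^ 2) * (7 / 4) := by
      calc _ ≤ ‖-acP μ M (dil σ (f t)) * (((σ ^ 2)⁻¹ : ℝ) : ℂ)‖ * (1 - ‖t‖) :=
            mul_le_mul_of_nonneg_left (by linarith) (norm_nonneg _)
        _ ≤ _ := e1
        _ ≤ C1 * (|M0| + |M0| ^ 2) * (1 + ‖t‖) :=
            mul_le_mul_of_nonneg_right hκ0 (by linarith [norm_nonneg t])
        _ ≤ _ := mul_le_mul_of_nonneg_left (by linarith) (by positivity)
    have e6 : b * (‖imv (wp (f t))‖ + ‖zp (f t)‖ ^ 2) ≤ T0 := by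
      rw [hT0]
      linarith
    have e7 : ‖imv (wp (f t))‖ + ‖zp (f t)‖ ^ 2 ≤ T := by
      rw [hT, le_div_iff₀ hb]
      linarith
    constructor
    · linarith [sq_nonneg ‖zp (f t)‖]
    · linarith [norm_nonneg (imv (wp (f t)))]
  intro t ht
  have htb : t ∈ ball (0 : ℂ) (3 / 4) := by
    rw [mem_ball_zero_iff]
    linarith
  have hz : ‖zp (f t)‖ ≤ T + 1 := by
    have e1 := (hkey t htb).2
    nlinarith [norm_nonneg (zp (f t)), sq_nonneg (‖zp (f t)‖ - 1)]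
  have hw : ∀ j, ‖wp (f t) j‖ ≤ 6 * T + 5 * |M0| := by
    intro j
    have hd : DifferentiableOn ℂ (fun t => (T : ℂ) + Complex.I * wp (f t) j)
        (ball 0 (3 / 4)) := by
      have e1 : DifferentiableOn ℂ (fun t => wp (f t) j) (ball 0 (3 / 4)) :=
        (differentiable_pi.1 (differentiable_wp (m := m) (k := k)) j).comp_differentiableOn
          (hf.mono (ball_subset_ball (by norm_num)))
      exact (e1.const_mul _).const_add _
    have hre : ∀ t ∈ ball (0 : ℂ) (3 / 4), 0 ≤ ((T : ℂ) + Complex.I * wp (f t) j).re := by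
      intro t ht
      have e1 := (hkey t ht).1
      have e2 : |(wp (f t) j).im| ≤ ‖imv (wp (f t))‖ := by
        have := norm_le_pi_norm (imv (wp (f t))) j
        simpa [imv] using this
      have e3 := le_abs_self (wp (f t) j).im
      simp only [Complex.add_re, Complex.ofReal_re, Complex.I_mul_re]
      linarith
    have e1 := h1 _ (3 / 4) (by norm_num) hd hre t htb
    have e2 : ‖(T : ℂ) + Complex.I * wp (f 0) j‖ ≤ T + |M0| := by
      refine (norm_add_le _ _).trans ?_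
      rw [Complex.norm_real, Real.norm_of_nonneg hTn, norm_mul, Complex.norm_I, one_mul]
      have := (norm_le_pi_norm (wp (f 0)) j).trans ((norm_wp_le (f 0)).trans hf0')
      linarith
    have e3 : ‖(T : ℂ) + Complex.I * wp (f t) j‖ * (1 / 4) ≤ (T + |M0|) * (5 / 4) := by
      calc _ ≤ ‖(T : ℂ) + Complex.I * wp (f t) j‖ * (3 / 4 - ‖t‖) :=
            mul_le_mul_of_nonneg_left (by linarith) (norm_nonneg _)
        _ ≤ _ := e1
        _ ≤ (T + |M0|) * (3 / 4 + ‖t‖) :=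
            mul_le_mul_of_nonneg_right e2 (by linarith [norm_nonneg t])
        _ ≤ _ := mul_le_mul_of_nonneg_left (by linarith) (by positivity)
    have e4 : ‖wp (f t) j‖ ≤ ‖(T : ℂ) + Complex.I * wp (f t) j‖ + T := by
      have e5 : Complex.I * wp (f t) j = ((T : ℂ) + Complex.I * wp (f t) j) - (T : ℂ) := by ring
      have e6 : ‖wp (f t) j‖ = ‖Complex.I * wp (f t) j‖ := by
        rw [norm_mul, Complex.norm_I, one_mul]
      rw [e6]
      conv_lhs => rw [e5]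
      refine (norm_sub_le _ _).trans ?_
      rw [Complex.norm_real, Real.norm_of_nonneg hTn]
    linarith
  rw [← mk_zp_wp (f t), norm_mk]
  refine max_le ?_ ?_
  · linarith [abs_nonneg M0]
  · refine (pi_norm_le_iff_of_nonneg (by positivity)).2 fun j => ?_
    linarith [hw j]

end KVC
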