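import Pool.Agent.Lib.KV.SpecC

set_option autoImplicit false

open Set Filter Topology Metric

namespace KVC

open KP KVB KV

namespace AcPDAux

theorem hf_zero {m k : ℕ} (F : Fin k → Matrix (Fin m) (Fin m) ℂ) : hf F 0 0 = 0 := by
  funext j
  simp [hf]

theorem hf_I {m k : ℕ} (F : Fin k → Matrix (Fin m) (Fin m) ℂ) (z : Cn m) :
    hf F (Complex.I • z) (Complex.I • z) = hf F z z := by
  funext j
  simp only [hf, Pi.smul_apply, smul_eq_mul, map_mul, Complex.conj_I]
  refine Finset.sum_congr rfl fun a _ => Finset.sum_congr rfl fun b _ => ?_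
  linear_combination (-(F j a b * z a * (starRingEnd ℂ) (z b))) * Complex.I_sq

theorem imv_I {k : ℕ} (y : Fin k → ℝ) : imv (Complex.I • cx y : Cn k) = y := by
  funext j
  simp [imv, cx]

theorem rev_zero {k : ℕ} : rev (0 : Cn k) = 0 := by
  funext j
  simp [rev]

end AcPDAux

open AcPDAux in
theorem tAcPD : S_AcPD := by
  intro m k F Om μ Mz b hb hne hcone H
  constructor
  · -- pointedness
    have h1 : ∀ y ∈ Om, ∑ j, μ j * y j + b * ‖y‖ ≤ 0 := by
      intro y hy
      have h2 := H (mk (0 : Cn m) (Complex.I • cx y)) (by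
        have : hgt F (mk (0 : Cn m) (Complex.I • cx y)) = y := by
          rw [hgt, zp_mk, wp_mk, hf_zero, rev_zero, imv_I, sub_zero]
        rw [this]; exact hy)
      rw [wp_mk, zp_mk, imv_I] at h2
      have h3 : (∑ a, ∑ a', Mz a a' * (0 : Cn m) a * (0 : Cn m) a').re = 0 := by simp
      rw [h3, norm_zero] at h2
      nlinarith [h2]
    have hcl : IsClosed {y : Fin k → ℝ | ∑ j, μ j * y j + b * ‖y‖ ≤ 0} := by
      refine isClosed_le ?_ continuous_const
      refine Continuous.add ?_ (continuous_const.mul continuous_norm)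
      exact continuous_finsetSum _ fun j _ => continuous_const.mul (continuous_apply j)
    have h2 : ∀ y ∈ closure Om, ∑ j, μ j * y j + b * ‖y‖ ≤ 0 := by
      intro y hy
      exact closure_minimal (t := {y : Fin k → ℝ | ∑ j, μ j * y j + b * ‖y‖ ≤ 0})
        (fun y hy => h1 y hy) hcl hy
    intro y hy hy'
    have e1 := h2 y hy
    have e2 := h2 (-y) hy'
    have e3 : ∑ j, μ j * (-y) j = -∑ j, μ j * y j := by
      rw [← Finset.sum_neg_distrib]
      exact Finset.sum_congr rfl fun j _ => by simp
    rw [e3, norm_neg] at e2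
    have e4 : ‖y‖ ≤ 0 := by
      by_contra hc
      push Not at hc
      nlinarith [mul_pos hb hc]
    exact norm_le_zero_iff.1 e4
  · intro z hz
    obtain ⟨y, hy⟩ := hne
    have key : ∀ t : ℝ, 0 < t → b * ‖z‖ ^ 2 ≤ -(t * ∑ j, μ j * y j) := by
      intro t ht
      have hty := hcone y hy t ht
      have g1 : hgt F (mk z (Complex.I • cx (t • y))) = t • y := by
        rw [hgt, zp_mk, wp_mk, hz, rev_zero, imv_I, sub_zero]
      have g2 : hgt F (mk (Complex.I • z) (Complex.I • cx (t • y))) = t • y := by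
        rw [hgt, zp_mk, wp_mk, hf_I, hz, rev_zero, imv_I, sub_zero]
      have a1 := H (mk z (Complex.I • cx (t • y))) (by rw [g1]; exact hty)
      have a2 := H (mk (Complex.I • z) (Complex.I • cx (t • y))) (by rw [g2]; exact hty)
      rw [wp_mk, zp_mk, imv_I] at a1 a2
      have s1 : ∑ j, μ j * (t • y) j = t * ∑ j, μ j * y j := by
        rw [Finset.mul_sum]
        exact Finset.sum_congr rfl fun j _ => by
          rw [Pi.smul_apply, smul_eq_mul]; ring
      have s2 : (∑ a, ∑ a', Mz a a' * (Complex.I • z) a * (Complex.I • z) a') =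
          -∑ a, ∑ a', Mz a a' * z a * z a' := by
        rw [← Finset.sum_neg_distrib]
        refine Finset.sum_congr rfl fun a _ => ?_
        rw [← Finset.sum_neg_distrib]
        refine Finset.sum_congr rfl fun a' _ => ?_
        simp only [Pi.smul_apply, smul_eq_mul]
        linear_combination (Mz a a' * z a * z a') * Complex.I_sq
      have s3 : ‖(Complex.I • z : Cn m)‖ = ‖z‖ := by
        rw [norm_smul, Complex.norm_I, one_mul]
      rw [s1] at a1 a2
      rw [s2, s3, Complex.neg_re] at a2
      have hn := norm_nonneg (t • y)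
      nlinarith [mul_nonneg hb.le hn]
    have hz0 : b * ‖z‖ ^ 2 ≤ 0 := by
      by_contra hc
      push Not at hc
      set c := -∑ j, μ j * y j with hcdef
      have hk := key (b * ‖z‖ ^ 2 / (2 * (|c| + 1))) (by positivity)
      have e1 : -(b * ‖z‖ ^ 2 / (2 * (|c| + 1)) * ∑ j, μ j * y j) =
          b * ‖z‖ ^ 2 / (2 * (|c| + 1)) * c := by rw [hcdef]; ring
      rw [e1] at hk
      have e2 : b * ‖z‖ ^ 2 / (2 * (|c| + 1)) * c ≤ b * ‖z‖ ^ 2 / 2 := by
        have : b * ‖z‖ ^ 2 / (2 * (|c| + 1)) * c = (b * ‖z‖ ^ 2 / 2) * (c / (|c| + 1)) := by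
          field_simp
        rw [this]
        have h5 : c / (|c| + 1) ≤ 1 := by
          rw [div_le_one (by positivity)]
          linarith [le_abs_self c]
        nlinarith
      linarith
    have h6 : ‖z‖ = 0 := by
      by_contra hc
      have : 0 < ‖z‖ := lt_of_le_of_ne (norm_nonneg _) (Ne.symm hc)
      have := mul_pos hb (pow_pos this 2)
      linarith
    exact norm_eq_zero.1 h6

end KVC
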