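import Pool.Agent.Lib.KV.SpecC

set_option autoImplicit false

open Set Filter Topology Metric

namespace KVC

open KP KVB KV

namespace AcPkAux

theorem continuous_imv {k : ℕ} : Continuous (imv : Cn k → Fin k → ℝ) :=
  continuous_pi fun j => Complex.continuous_im.comp (continuous_apply j)

theorem differentiable_acP {m k : ℕ} (μ : Fin k → ℝ)
    (M : Matrix (Fin (m + k)) (Fin (m + k)) ℂ) :
    Differentiable ℂ (acP μ M : Cn (m + k) → ℂ) := by
  unfold acP
  have hw : ∀ j : Fin k, Differentiable ℂ (fun p : Cn (m + k) => wp p j) := fun j =>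
    differentiable_pi.1 differentiable_wp j
  refine Differentiable.add ?_ ?_
  · refine (Differentiable.fun_sum fun j _ => ?_).const_mul _
    exact (hw j).const_mul _
  · refine Differentiable.fun_sum fun a _ => Differentiable.fun_sum fun b _ => ?_
    exact ((differentiable_apply a).const_mul _).mul (differentiable_apply b)

end AcPkAux

open AcPkAux in
theorem tAcPk (h1 : S_MinP) : S_AcPk := by
  intro m k R μ M b hA f hf hcl h0
  obtain ⟨hb, hR⟩ := hA
  have hcont : Continuous fun p : Cn (m + k) =>
      (acP μ M p).re + b * (‖imv (wp p)‖ + ‖p‖ ^ 2) := by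
    have e1 : Continuous fun p : Cn (m + k) => (acP μ M p).re :=
      Complex.continuous_re.comp (differentiable_acP μ M).continuous
    have e2 : Continuous fun p : Cn (m + k) => ‖imv (wp p)‖ :=
      (continuous_imv.comp continuous_wp).norm
    exact e1.add (continuous_const.mul (e2.add (continuous_norm.pow 2)))
  have hle : ∀ p ∈ closure R, (acP μ M p).re + b * (‖imv (wp p)‖ + ‖p‖ ^ 2) ≤ 0 := by
    intro p hp
    exact closure_minimal (s := R) hR (isClosed_le hcont continuous_const) hp
  have hre : ∀ t ∈ ball (0 : ℂ) 1, b * ‖f t‖ ^ 2 ≤ (-acP μ M (f t)).re := by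
    intro t ht
    have h3 := hle _ (hcl t ht)
    have h4 : 0 ≤ b * ‖imv (wp (f t))‖ := mul_nonneg hb.le (norm_nonneg _)
    simp only [Complex.neg_re]
    linarith [mul_add b ‖imv (wp (f t))‖ (‖f t‖ ^ 2)]
  have hF : DifferentiableOn ℂ (fun t => -acP μ M (f t)) (ball 0 1) :=
    ((differentiable_acP μ M).comp_differentiableOn hf).neg
  have h00 : (-acP μ M (f 0)).re = 0 := by simp [h0, acP, wp]
  intro t ht
  have h2 := h1 (fun t => -acP μ M (f t)) 1 hF
    (fun t ht => le_trans (mul_nonneg hb.le (sq_nonneg _)) (hre t ht)) 0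
    (mem_ball_self one_pos) h00 t ht
  have h3 := hre t ht
  rw [h2] at h3
  have h4 : ‖f t‖ ^ 2 ≤ 0 := by
    by_contra hc
    push Not at hc
    have := mul_pos hb hc
    linarith
  have h5 : ‖f t‖ = 0 := by
    have := sq_nonneg ‖f t‖
    exact pow_eq_zero_iff (two_ne_zero) |>.1 (le_antisymm h4 this)
  exact norm_eq_zero.1 h5

end KVC
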