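import Pool.Agent.Lib.KV.SpecC

/-!
# KV, block C: CD1
-/

set_option autoImplicit false

open Set Filter Topology Metric

namespace KVC

open KP KVB KV

namespace CD1Aux

variable {m k : ℕ}

theorem continuous_hgt (F : Fin k → Matrix (Fin m) (Fin m) ℂ) :
    Continuous (hgt F : Cn (m + k) → (Fin k → ℝ)) := by
  refine continuous_pi fun j => ?_
  have h1 : ∀ p : Cn (m + k), hgt F p j = (p (Fin.natAdd m j)).im -
      (∑ a, ∑ b, F j a b * p (Fin.castAdd k a) *
        (starRingEnd ℂ) (p (Fin.castAdd k b))).re := fun p => rfl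
  simp_rw [h1]
  refine (Complex.continuous_im.comp (continuous_apply _)).sub
    (Complex.continuous_re.comp ?_)
  refine continuous_finsetSum _ fun a _ => continuous_finsetSum _ fun b _ => ?_
  exact (continuous_const.mul (continuous_apply _)).mul
    (Complex.continuous_conj.comp (continuous_apply _))

end CD1Aux

open CD1Aux in
theorem tCD1 (h1 : S_FrAs) : S_CD1 := by
  intro m k A h c Lam E E' Kq Qm F hC hF p hp
  obtain ⟨d, hd, hD⟩ := hp
  have hcont : Continuous (hgt F : Cn (m + k) → (Fin k → ℝ)) := continuous_hgt F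
  obtain ⟨r0, hr0, hr⟩ := Metric.continuous_iff.1 hcont p (d / 2) (by positivity)
  obtain ⟨δ, hδ, hA⟩ := h1 m k h c Lam E E' Kq Qm F hC hF (‖p‖ + 1) (d / 3) (by positivity)
  refine ⟨min r0 1, by positivity, min δ (min 1 d), by positivity, fun σ hσ x hx => ?_⟩
  obtain ⟨hσ0, hσ1⟩ := hσ
  have hσδ : σ < δ := lt_of_lt_of_le hσ1 (min_le_left _ _)
  have hσ1' : σ < 1 := lt_of_lt_of_le hσ1 ((min_le_right _ _).trans (min_le_left _ _))
  have hσd : σ < d := lt_of_lt_of_le hσ1 ((min_le_right _ _).trans (min_le_right _ _))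
  have hxp : dist x p < min r0 1 := mem_ball.1 hx
  have hx1 : dist (hgt F x) (hgt F p) < d / 2 := hr x (lt_of_lt_of_le hxp (min_le_left _ _))
  have hxn : ‖x‖ ≤ ‖p‖ + 1 := by
    have h2 : ‖x - p‖ < 1 := by
      rw [← dist_eq_norm]; exact lt_of_lt_of_le hxp (min_le_right _ _)
    calc ‖x‖ = ‖(x - p) + p‖ := by rw [sub_add_cancel]
      _ ≤ ‖x - p‖ + ‖p‖ := norm_add_le _ _
      _ ≤ ‖p‖ + 1 := by linarith
  obtain ⟨h3, h4⟩ := hA σ ⟨hσ0, hσδ⟩ x hxn
  set q := frm (pt c (h c)) Lam E Kq (dil σ x) with hq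
  have hσ2 : 0 < σ ^ 2 := by positivity
  set y : Fin k → ℝ := (σ ^ 2)⁻¹ • nu h q with hy
  have hyn : (σ ^ 2) • y = nu h q := by
    rw [hy, smul_smul, mul_inv_cancel₀ hσ2.ne', one_smul]
  have h5 : ‖y - hgt F x‖ ≤ d / 3 := by
    rw [← hyn, ← smul_sub, norm_smul, Real.norm_of_nonneg hσ2.le, mul_comm] at h3
    exact le_of_mul_le_mul_right h3 hσ2
  have h6 : y ∈ ball (hgt F p) d := by
    rw [mem_ball]
    calc dist y (hgt F p) ≤ dist y (hgt F x) + dist (hgt F x) (hgt F p) := dist_triangle _ _ _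
      _ < d := by rw [dist_eq_norm y]; linarith
  have h7 : xof q ∈ ball c d := by
    rw [mem_ball, dist_eq_norm]; linarith
  have h8 : σ ^ 2 ∈ Ioo (0 : ℝ) d := ⟨hσ2, by nlinarith⟩
  have h9 := hD (xof q) h7 (σ ^ 2) h8 y h6
  rwa [hyn, pt_xof_nu] at h9

end KVC
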