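import Pool.Agent.Lib.KV.SpecC

/-!
# KV, block C: CD2
-/

set_option autoImplicit false

open Set Filter Topology Metric

namespace KVC

open KP KVB KV

namespace CD2Aux

variable {m k : ℕ}

theorem exists_bd (E' : Matrix (Fin k) (Fin k) ℂ) :
    ∃ C : ℝ, 1 ≤ C ∧ ∀ w : Cn k, ‖E'.mulVec w‖ ≤ C * ‖w‖ := by
  have hc : Continuous (fun w : Cn k => E'.mulVec w) :=
    Continuous.matrix_mulVec continuous_const continuous_id
  let L : Cn k →L[ℂ] Cn k := ⟨E'.mulVecLin, hc⟩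
  refine ⟨max 1 ‖L‖, le_max_left _ _, fun w => ?_⟩
  calc ‖E'.mulVec w‖ = ‖L w‖ := rfl
    _ ≤ ‖L‖ * ‖w‖ := L.le_opNorm w
    _ ≤ max 1 ‖L‖ * ‖w‖ := mul_le_mul_of_nonneg_right (le_max_right _ _) (norm_nonneg _)

theorem norm_I_cx (u : Fin k → ℝ) : ‖Complex.I • cx u‖ = ‖u‖ := by
  rw [norm_smul, Complex.norm_I, one_mul]
  apply le_antisymm
  · refine (pi_norm_le_iff_of_nonneg (norm_nonneg _)).2 fun j => ?_
    have : ‖cx u j‖ = ‖u j‖ := Complex.norm_real _
    rw [this]; exact norm_le_pi_norm u j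
  · refine (pi_norm_le_iff_of_nonneg (norm_nonneg _)).2 fun j => ?_
    have : ‖u j‖ = ‖cx u j‖ := (Complex.norm_real _).symm
    rw [this]; exact norm_le_pi_norm (cx u) j

theorem imv_I_cx (u : Fin k → ℝ) : imv (Complex.I • cx u) = u := by
  ext j; simp [imv, cx]

theorem rev_I_cx (u : Fin k → ℝ) : rev (Complex.I • cx u) = 0 := by
  ext j; simp [rev, cx]

theorem imv_add (a b : Cn k) : imv (a + b) = imv a + imv b := by
  ext j; simp [imv]

theorem rev_add (a b : Cn k) : rev (a + b) = rev a + rev b := by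
  ext j; simp [rev]

end CD2Aux

open CD2Aux in
theorem tCD2 (h1 : S_FrAs) : S_CD2 := by
  intro m k A h c Lam E E' Kq Qm F hC hF hP p r hr hfr
  obtain ⟨C0, hC0, hE'⟩ := exists_bd E'
  have hC0' : 0 < C0 := by linarith
  set e : ℝ := r / (3 * C0) with he
  have he0 : 0 < e := by positivity
  refine hP (hgt F p) e he0 fun d hd => ?_
  obtain ⟨δ, hδ, hA⟩ := h1 m k h c Lam E E' Kq Qm F hC hF ‖p‖ (min (e / 2) (d / 2))
    (by positivity)
  have hI : Ioo (0 : ℝ) (min δ (min 1 d)) ∈ 𝓝[>] (0 : ℝ) :=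
    Ioo_mem_nhdsGT (by positivity)
  obtain ⟨σ, hσ1, hσ2⟩ := (hfr.and_eventually hI).exists
  obtain ⟨hσ0, hσ3⟩ := hσ2
  have hσδ : σ < δ := lt_of_lt_of_le hσ3 (min_le_left _ _)
  have hσ1' : σ < 1 := lt_of_lt_of_le hσ3 ((min_le_right _ _).trans (min_le_left _ _))
  have hσd : σ < d := lt_of_lt_of_le hσ3 ((min_le_right _ _).trans (min_le_right _ _))
  obtain ⟨h3, h4⟩ := hA σ ⟨hσ0, hσδ⟩ p le_rfl
  set q := frm (pt c (h c)) Lam E Kq (dil σ p) with hq
  have hs2 : 0 < σ ^ 2 := by positivity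
  set y1 : Fin k → ℝ := (σ ^ 2)⁻¹ • nu h q with hy1
  have hyn : (σ ^ 2) • y1 = nu h q := by
    rw [hy1, smul_smul, mul_inv_cancel₀ hs2.ne', one_smul]
  have h5 : ‖y1 - hgt F p‖ ≤ e / 2 := by
    rw [← hyn, ← smul_sub, norm_smul, Real.norm_of_nonneg hs2.le, mul_comm] at h3
    exact (le_of_mul_le_mul_right h3 hs2).trans (min_le_left _ _)
  refine ⟨xof q, ?_, σ ^ 2, ⟨hs2, by nlinarith⟩, fun y hy => ?_⟩
  · rw [mem_ball, dist_eq_norm]
    exact lt_of_le_of_lt (h4.trans (min_le_right _ _)) (by linarith)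
  · -- the point
    set u : Cn k := Complex.I • cx (y - y1) with hu
    set x : Cn (m + k) := mk (zp p) (wp p + E'.mulVec u) with hx
    have hyy : ‖y - y1‖ < 3 / 2 * e := by
      have h6 : ‖y - hgt F p‖ < e := by rw [← dist_eq_norm]; exact hy
      calc ‖y - y1‖ = ‖(y - hgt F p) - (y1 - hgt F p)‖ := by congr 1; abel
        _ ≤ ‖y - hgt F p‖ + ‖y1 - hgt F p‖ := norm_sub_le _ _
        _ < 3 / 2 * e := by linarith
    have hxp : x ∈ ball p r := by
      rw [mem_ball, dist_eq_norm]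
      have h7 : x - p = mk 0 (E'.mulVec u) := by
        apply ext_zw
        · simp [hx]
        · simp [hx]
      rw [h7, norm_mk, norm_zero]
      have h8 : ‖E'.mulVec u‖ < r := by
        calc ‖E'.mulVec u‖ ≤ C0 * ‖u‖ := hE' u
          _ = C0 * ‖y - y1‖ := by rw [hu, norm_I_cx]
          _ < C0 * (3 / 2 * e) := mul_lt_mul_of_pos_left hyy hC0'
          _ = r / 2 := by rw [he]; field_simp
          _ < r := by linarith
      exact max_lt hr h8
    have h9 := hσ1 x hxp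
    have h10 : frm (pt c (h c)) Lam E Kq (dil σ x) =
        q + mk 0 (((σ : ℂ) ^ 2) • u) := by
      rw [hq, frm, frm, add_assoc]
      congr 1
      apply ext_zw
      · simp [hx]
      · simp only [wp_mk, wp_add, zp_dil, wp_dil, hx, zp_mk, omg, Matrix.mulVec_smul,
          Matrix.mulVec_add, Matrix.mulVec_mulVec, hF.inv1, Matrix.one_mulVec, smul_add]
        abel
    have h11 : frm (pt c (h c)) Lam E Kq (dil σ x) = pt (xof q) (h (xof q) + σ ^ 2 • y) := by
      rw [h10]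
      rw [← pt_xof (q + mk 0 (((σ : ℂ) ^ 2) • u))]
      have hu' : ((σ : ℂ) ^ 2) • u = Complex.I • cx ((σ ^ 2) • (y - y1)) := by
        ext j
        simp [hu, cx]
        ring
      have h12 : xof (q + mk 0 (((σ : ℂ) ^ 2) • u)) = xof q := by
        simp only [xof, zp_add, wp_add, zp_mk, wp_mk, add_zero, rev_add, hu', rev_I_cx]
      have h13 : imv (wp (q + mk 0 (((σ : ℂ) ^ 2) • u))) = h (xof q) + σ ^ 2 • y := by
        rw [wp_add, wp_mk, imv_add, hu', imv_I_cx, smul_sub, hyn, nu]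
        abel
      rw [h12, h13]
    rwa [h11] at h9

end KVC
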