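import Pool.Agent.Lib.KV.SpecC

/-!
# KV, block C: CMain
-/

set_option autoImplicit false

open Set Filter Topology Metric

namespace KVC

open KP KVB KV

namespace CMainAux

variable {m k : ℕ}

theorem differentiable_mulVec {E : Type*} [NormedAddCommGroup E] [NormedSpace ℂ E] {l n : ℕ}
    (A : Matrix (Fin l) (Fin n) ℂ) {f : E → Cn n} (hf : Differentiable ℂ f) :
    Differentiable ℂ (fun x => (A.mulVec (f x) : Cn l)) := by
  refine differentiable_pi.2 fun i => ?_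
  have h1 : (fun x => A.mulVec (f x) i) = fun x => ∑ j, A i j * f x j := rfl
  rw [h1]
  exact Differentiable.fun_sum fun j _ => (differentiable_const _).mul (differentiable_pi.1 hf j)

theorem differentiable_hq {E : Type*} [NormedAddCommGroup E] [NormedSpace ℂ E]
    (Q : Fin k → Matrix (Fin m) (Fin m) ℂ) {f : E → Cn m} (hf : Differentiable ℂ f) :
    Differentiable ℂ (fun x => hq Q (f x)) := by
  refine differentiable_pi.2 fun i => ?_
  have h1 : (fun x => hq Q (f x) i) = fun x => ∑ a, ∑ b, Q i a b * f x a * f x b := rfl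
  rw [h1]
  exact Differentiable.fun_sum fun a _ => Differentiable.fun_sum fun b _ =>
    ((differentiable_const _).mul (differentiable_pi.1 hf a)).mul (differentiable_pi.1 hf b)

theorem differentiable_frm (s : Cn (m + k)) (Lam : Matrix (Fin k) (Fin m) ℂ)
    (E : Matrix (Fin k) (Fin k) ℂ) (Kq : Fin k → Matrix (Fin m) (Fin m) ℂ) :
    Differentiable ℂ (frm s Lam E Kq) := by
  refine (differentiable_const s).add (differentiable_mk differentiable_zp ?_)
  exact ((differentiable_mulVec Lam differentiable_zp).add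
    (differentiable_mulVec E differentiable_wp)).add (differentiable_hq Kq differentiable_zp)

theorem differentiable_fri (s : Cn (m + k)) (Lam : Matrix (Fin k) (Fin m) ℂ)
    (E' : Matrix (Fin k) (Fin k) ℂ) (Kq : Fin k → Matrix (Fin m) (Fin m) ℂ) :
    Differentiable ℂ (fri s Lam E' Kq) := by
  have h0 : Differentiable ℂ (fun q : Cn (m + k) => q - s) :=
    differentiable_id.sub (differentiable_const s)
  have h1 : Differentiable ℂ (fun q : Cn (m + k) => zp (q - s)) := differentiable_zp.comp h0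
  have h2 : Differentiable ℂ (fun q : Cn (m + k) => wp (q - s)) := differentiable_wp.comp h0
  refine differentiable_mk h1 (differentiable_mulVec E' ?_)
  exact (h2.sub (differentiable_mulVec Lam h1)).sub (differentiable_hq Kq h1)

/-- The frame as a chart. -/
noncomputable def frC (s : Cn (m + k)) (Lam : Matrix (Fin k) (Fin m) ℂ)
    (E E' : Matrix (Fin k) (Fin k) ℂ) (Kq : Fin k → Matrix (Fin m) (Fin m) ℂ)
    (h1 : E * E' = 1) (h2 : E' * E = 1) : Chart (univ : Set (Cn (m + k))) (m + k) where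
  W := univ
  O := univ
  psi := frm s Lam E Kq
  pi := fri s Lam E' Kq
  hW := isOpen_univ
  hO := isOpen_univ
  hpsi := (differentiable_frm s Lam E Kq).differentiableOn
  hpi := (differentiable_fri s Lam E' Kq).differentiableOn
  img := by
    rw [image_univ, univ_inter, eq_univ_iff_forall]
    exact fun q => ⟨fri s Lam E' Kq q, frm_fri h1 q⟩
  left := fun w _ => fri_frm h2 w

theorem norm_dil_le {σ : ℝ} (h0 : 0 ≤ σ) (h1 : σ ≤ 1) (p : Cn (m + k)) :
    ‖dil σ p‖ ≤ σ * ‖p‖ := by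
  rw [dil, norm_mk, norm_smul, norm_smul, norm_pow, Complex.norm_real, Real.norm_of_nonneg h0]
  refine max_le (mul_le_mul_of_nonneg_left (norm_zp_le p) h0) ?_
  calc σ ^ 2 * ‖wp p‖ ≤ σ * ‖wp p‖ :=
        mul_le_mul_of_nonneg_right (by nlinarith) (norm_nonneg _)
    _ ≤ σ * ‖p‖ := mul_le_mul_of_nonneg_left (norm_wp_le p) h0

theorem frm_zero (s : Cn (m + k)) (Lam : Matrix (Fin k) (Fin m) ℂ)
    (E : Matrix (Fin k) (Fin k) ℂ) (Kq : Fin k → Matrix (Fin m) (Fin m) ℂ) :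
    frm s Lam E Kq 0 = s := by
  have h1 : hq Kq (0 : Cn m) = 0 := by ext j; simp [hq]
  have h2 : (mk (0 : Cn m) (0 : Cn k) : Cn (m + k)) = 0 := by
    apply ext_zw <;> simp
  simp [frm, omg, h1, h2]

end CMainAux

open CMainAux in
theorem tCMain (h1 : S_GenE) (h2 : S_FrEx) (h3 : S_AcF) (h4 : S_OmO) (h5 : S_CD1)
    (h6 : S_CD2) (h7 : S_Soft) : S_CMain := by
  intro N m k I U G K hU hG ch O h hL hW
  obtain ⟨c, hcO, hP4⟩ := h1 m k (ch.pre U) O h hL
  have hC2 : ContDiffAt ℝ 2 h c := (hL.nf.ana c hcO).contDiffAt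
  obtain ⟨Lam, E, E', Kq, Qm, F, hF⟩ := h2 m k h c hC2 (hL.nf.sm c hcO)
  obtain ⟨μ, M, b, ρ, hρ, hAc⟩ := h3 m k (ch.pre U) O h hL.nf c hcO Lam E E' Kq Qm F hF
  obtain ⟨hC1, ⟨y0, hy0⟩, hC3⟩ := h4 m k (ch.pre U) O h hL c hcO
  set e := frC (pt c (h c)) Lam E E' Kq hF.inv1 hF.inv2 with he
  have hpsi : ∀ p, e.psi p = frm (pt c (h c)) Lam E Kq p := fun p => rfl
  have hpre : ∀ p, p ∈ (ch.comp e).pre U ↔ frm (pt c (h c)) Lam E Kq p ∈ ch.pre U := by
    intro p
    rw [Chart.comp_pre]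
    exact ⟨fun hp => hp.2, fun hp => ⟨mem_univ _, hp⟩⟩
  have h0W : (0 : Cn (m + k)) ∈ (ch.comp e).W := by
    refine ⟨mem_univ _, ?_⟩
    rw [mem_preimage, hpsi, frm_zero]
    exact hW c hcO
  obtain ⟨ρ0, hρ0, hball⟩ := Metric.isOpen_iff.1 (ch.comp e).hW 0 h0W
  set ρ1 : ℝ := min ρ ρ0 with hρ1
  have hρ1p : 0 < ρ1 := lt_min hρ hρ0
  set R : Set (Cn (m + k)) := (ch.comp e).pre U ∩ ball 0 ρ1 with hR
  have hBdR : BdR (ch.comp e) U R := by
    refine ⟨h0W, ρ1, hρ1p, (ball_subset_ball (min_le_right _ _)).trans hball, subset_rfl,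
      (hU.isOpen_pre (ch.comp e)).inter isOpen_ball, ?_⟩
    rw [hR, sdiff_self]
    exact isOpen_empty
  have hAcR : Acute R μ M b := by
    refine ⟨hAc.1, fun p hp => hAc.2 p ⟨?_, (hpre p).1 hp.1⟩⟩
    exact ball_subset_ball (min_le_left _ _) hp.2
  have hD1 : ∀ p : Cn (m + k), hgt F p ∈ OmC (ch.pre U) h c → ∃ r > 0, ∃ δ > 0,
      ∀ σ ∈ Ioo (0 : ℝ) δ, ∀ x ∈ ball p r, dil σ x ∈ R := by
    intro p hp
    obtain ⟨r, hr, δ, hδ, hD⟩ := h5 m k (ch.pre U) h c Lam E E' Kq Qm F hC2 hF p hp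
    have hpp : 0 < ‖p‖ + 2 := by positivity
    refine ⟨min r 1, lt_min hr one_pos, min δ (min 1 (ρ1 / (‖p‖ + 2))), by positivity,
      fun σ hσ x hx => ⟨?_, ?_⟩⟩
    · rw [hpre]
      exact hD σ ⟨hσ.1, lt_of_lt_of_le hσ.2 (min_le_left _ _)⟩ x
        (ball_subset_ball (min_le_left _ _) hx)
    · rw [mem_ball_zero_iff]
      have h8 : σ < 1 := lt_of_lt_of_le hσ.2 ((min_le_right _ _).trans (min_le_left _ _))
      have h9 : σ < ρ1 / (‖p‖ + 2) :=
        lt_of_lt_of_le hσ.2 ((min_le_right _ _).trans (min_le_right _ _))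
      have h10 : ‖x‖ ≤ ‖p‖ + 1 := by
        have h11 : ‖x - p‖ < 1 := by
          rw [← dist_eq_norm]
          exact lt_of_lt_of_le (mem_ball.1 hx) (min_le_right _ _)
        calc ‖x‖ = ‖(x - p) + p‖ := by rw [sub_add_cancel]
          _ ≤ ‖x - p‖ + ‖p‖ := norm_add_le _ _
          _ ≤ ‖p‖ + 1 := by linarith
      rw [lt_div_iff₀ hpp] at h9
      calc ‖dil σ x‖ ≤ σ * ‖x‖ := norm_dil_le hσ.1.le h8.le x
        _ ≤ σ * (‖p‖ + 2) := mul_le_mul_of_nonneg_left (by linarith) hσ.1.le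
        _ < ρ1 := h9
  have hD2 : ∀ (p : Cn (m + k)) (r : ℝ), 0 < r →
      (∃ᶠ σ in 𝓝[>] (0 : ℝ), ∀ x ∈ ball p r, dil σ x ∈ R) → hgt F p ∈ OmC (ch.pre U) h c := by
    intro p r hr hf
    refine h6 m k (ch.pre U) h c Lam E E' Kq Qm F hC2 hF hP4 p r hr (hf.mono fun σ hσ x hx => ?_)
    exact (hpre _).1 (hσ x hx).1
  obtain ⟨Om, hSie, hBih⟩ := h7 N m k I U G K hU hG (ch.comp e) R F (OmC (ch.pre U) h c) y0
    μ M b hBdR hAcR hF.herm hC1 hC3 hy0 hD1 hD2
  exact ⟨F, Om, hSie, hBih⟩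

end KVC
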