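import Pool.Agent.Lib.KV.SpecC

/-!
# KV (MP_64edc4_ag), block C, module CompD: connected components of `hgt F p ∈ C`
-/

set_option autoImplicit false

open Set Filter Topology Metric

namespace KVC

open KP KVB KV

private theorem compD_hf {m k : ℕ} (F : Fin k → Matrix (Fin m) (Fin m) ℂ) :
    Continuous (fun z : Cn m => rev (hf F z z)) := by
  refine continuous_pi fun j => ?_
  show Continuous (fun z : Cn m => (∑ a, ∑ b, F j a b * z a * (starRingEnd ℂ) (z b)).re)
  refine Complex.continuous_re.comp ?_
  refine continuous_finsetSum _ fun a _ => continuous_finsetSum _ fun b _ => ?_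
  exact (continuous_const.mul (continuous_apply a)).mul
    (Complex.continuous_conj.comp (continuous_apply b))

private theorem compD_hgt {m k : ℕ} (F : Fin k → Matrix (Fin m) (Fin m) ℂ) :
    Continuous (hgt F : Cn (m + k) → Fin k → ℝ) := by
  have h1 : Continuous (fun p : Cn (m + k) => imv (wp p)) :=
    continuous_pi fun j => Complex.continuous_im.comp (continuous_apply _)
  exact h1.sub ((compD_hf F).comp continuous_zp)

private theorem compD_cx {k : ℕ} : Continuous (cx : (Fin k → ℝ) → Cn k) :=
  continuous_pi fun j => Complex.continuous_ofReal.comp (continuous_apply j)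

private theorem compD_val {m k : ℕ} (F : Fin k → Matrix (Fin m) (Fin m) ℂ) (z : Cn m)
    (u y : Fin k → ℝ) :
    hgt F (mk z (cx u + Complex.I • cx (y + rev (hf F z z)))) = y := by
  ext j
  simp [hgt, imv, cx, rev]

theorem tCompD : S_CompD := by
  intro m k F C y0 hy0
  have hb : hgt F (mk (0 : Cn m) (Complex.I • cx y0)) = y0 := by
    ext j
    simp [hgt, imv, cx, rev, hf]
  have hbC : (mk (0 : Cn m) (Complex.I • cx y0) : Cn (m + k)) ∈
      {p : Cn (m + k) | hgt F p ∈ C} := by
    show hgt F (mk (0 : Cn m) (Complex.I • cx y0)) ∈ C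
    rw [hb]
    exact hy0
  apply Subset.antisymm
  · intro p hp
    have h1 : IsPreconnected (hgt F '' connectedComponentIn {p : Cn (m + k) | hgt F p ∈ C}
        (mk 0 (Complex.I • cx y0))) :=
      isPreconnected_connectedComponentIn.image _ (compD_hgt F).continuousOn
    have h2 : hgt F '' connectedComponentIn {p : Cn (m + k) | hgt F p ∈ C}
        (mk 0 (Complex.I • cx y0)) ⊆ C := by
      rintro _ ⟨q, hq, rfl⟩
      have h8 : q ∈ {p : Cn (m + k) | hgt F p ∈ C} := connectedComponentIn_subset _ _ hq
      exact h8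
    have h3 : y0 ∈ hgt F '' connectedComponentIn {p : Cn (m + k) | hgt F p ∈ C}
        (mk 0 (Complex.I • cx y0)) := ⟨_, mem_connectedComponentIn hbC, hb⟩
    exact mem_SDn.2 (h1.subset_connectedComponentIn h3 h2 ⟨p, hp, rfl⟩)
  · intro p hp
    have hp' : hgt F p ∈ connectedComponentIn C y0 := mem_SDn.1 hp
    set T : (Fin k → ℝ) × Cn m × (Fin k → ℝ) → Cn (m + k) :=
      fun q => mk q.2.1 (cx q.2.2 + Complex.I • cx (q.1 + rev (hf F q.2.1 q.2.1))) with hT
    have hTc : Continuous T := by
      have c1 : Continuous (fun q : (Fin k → ℝ) × Cn m × (Fin k → ℝ) =>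
          cx q.2.2 + Complex.I • cx (q.1 + rev (hf F q.2.1 q.2.1))) :=
        (compD_cx.comp (continuous_snd.comp continuous_snd)).add
          ((compD_cx.comp (continuous_fst.add
            ((compD_hf F).comp (continuous_fst.comp continuous_snd)))).const_smul Complex.I)
      exact continuous_mk.comp ((continuous_fst.comp continuous_snd).prodMk c1)
    have h1 : IsPreconnected (T '' (connectedComponentIn C y0 ×ˢ (univ ×ˢ univ))) :=
      (isPreconnected_connectedComponentIn.prod
        (isPreconnected_univ.prod isPreconnected_univ)).image _ hTc.continuousOn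
    have h2 : T '' (connectedComponentIn C y0 ×ˢ (univ ×ˢ univ)) ⊆
        {p : Cn (m + k) | hgt F p ∈ C} := by
      rintro _ ⟨⟨y, z, u⟩, hq, rfl⟩
      show hgt F (mk z (cx u + Complex.I • cx (y + rev (hf F z z)))) ∈ C
      rw [compD_val]
      exact connectedComponentIn_subset _ _ hq.1
    have h3 : (mk (0 : Cn m) (Complex.I • cx y0) : Cn (m + k)) ∈
        T '' (connectedComponentIn C y0 ×ˢ (univ ×ˢ univ)) := by
      refine ⟨(y0, 0, 0), ⟨mem_connectedComponentIn hy0, trivial, trivial⟩, ?_⟩
      show mk (0 : Cn m) (cx 0 + Complex.I • cx (y0 + rev (hf F 0 0))) = _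
      have e1 : (cx (0 : Fin k → ℝ) : Cn k) = 0 := by
        ext j
        simp [cx]
      have e2 : rev (hf F (0 : Cn m) 0) = 0 := by
        ext j
        simp [rev, hf]
      rw [e1, e2, zero_add, add_zero]
    have h4 : p ∈ T '' (connectedComponentIn C y0 ×ˢ (univ ×ˢ univ)) := by
      refine ⟨(hgt F p, zp p, rev (wp p)), ⟨hp', trivial, trivial⟩, ?_⟩
      show mk (zp p) (cx (rev (wp p)) + Complex.I • cx (hgt F p + rev (hf F (zp p) (zp p)))) = p
      apply ext_zw
      · rw [zp_mk]
      · rw [wp_mk]
        ext j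
        simp only [hgt, sub_add_cancel, Pi.add_apply, Pi.smul_apply, smul_eq_mul, cx, rev, imv]
        rw [mul_comm]
        exact Complex.re_add_im _
    exact h1.subset_connectedComponentIn h3 h2 h4

end KVC
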