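import Pool.Agent.Lib.KV.SpecC

/-!
# KV (MP_64edc4_ag), block C, module ConeC: components of cones
-/

set_option autoImplicit false

open Set Filter Topology Metric

namespace KVC

open KP KVB KV

theorem tConeC : S_ConeC := by
  intro k C y0 hC y hy t ht
  have hyC : y ∈ C := connectedComponentIn_subset C y0 hy
  have h1 : IsPreconnected ((fun s : ℝ => s • y) '' Icc (min 1 t) (max 1 t)) :=
    isPreconnected_Icc.image _ (continuous_id.smul continuous_const).continuousOn
  have h2 : (fun s : ℝ => s • y) '' Icc (min 1 t) (max 1 t) ⊆ C := by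
    rintro _ ⟨s, hs, rfl⟩
    exact hC y hyC s (lt_of_lt_of_le (lt_min one_pos ht) hs.1)
  have h3 : y ∈ (fun s : ℝ => s • y) '' Icc (min 1 t) (max 1 t) :=
    ⟨1, ⟨min_le_left _ _, le_max_left _ _⟩, one_smul _ _⟩
  have h4 : t • y ∈ (fun s : ℝ => s • y) '' Icc (min 1 t) (max 1 t) :=
    ⟨t, ⟨min_le_right _ _, le_max_right _ _⟩, rfl⟩
  have h5 := h1.subset_connectedComponentIn h3 h2
  rw [connectedComponentIn_eq hy]
  exact h5 h4

end KVC
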