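import Pool.Agent.Lib.KV.SpecC

/-!
# KV, block C: `CvxL` (log-concavity and connectedness give convexity)
-/

set_option autoImplicit false

open Set Filter Topology Metric

namespace KVC

open KP KVB KV

namespace CvxLAux

variable {k : ℕ}

theorem seg_thick (x y y' : Fin k → ℝ) (δ : ℝ) (h : dist y' y < δ) :
    segment ℝ x y' ⊆ thickening δ (segment ℝ x y) := by
  rintro v ⟨a, b, ha, hb, hab, rfl⟩
  have hδ : 0 < δ := lt_of_le_of_lt dist_nonneg h
  refine mem_thickening_iff.2 ⟨a • x + b • y, ⟨a, b, ha, hb, hab, rfl⟩, ?_⟩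
  rw [dist_add_left, dist_smul₀, Real.norm_eq_abs, abs_of_nonneg hb]
  have hb1 : b ≤ 1 := by linarith
  calc b * dist y' y ≤ 1 * dist y' y := by gcongr
    _ < δ := by rw [one_mul]; exact h

theorem thick_sub {Om : Set (Fin k → ℝ)} (hL : LogC Om) (x y : Fin k → ℝ) (δ : ℝ) (hδ : 0 < δ)
    (hs : segment ℝ x y ⊆ Om) (hx : ball x δ ⊆ Om) (hy : ball y δ ⊆ Om) :
    thickening δ (segment ℝ x y) ⊆ Om := by
  intro v hv
  obtain ⟨w, ⟨a, b, ha, hb, hab, rfl⟩, hw⟩ := mem_thickening_iff.1 hv
  have h := hL x y hs δ δ hδ hδ hx hy b ⟨hb, by linarith⟩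
  have h1 : δ ^ (1 - b) * δ ^ b = δ := by
    rw [← Real.rpow_add hδ]; simp
  rw [h1] at h
  apply h
  have h2 : (1 - b) = a := by linarith
  rw [h2]
  exact hw

theorem seg_trans {Om : Set (Fin k → ℝ)} (hO : IsOpen Om) (hL : LogC Om) (x y z : Fin k → ℝ)
    (h1 : segment ℝ x y ⊆ Om) (h2 : segment ℝ y z ⊆ Om) : segment ℝ x z ⊆ Om := by
  have hc : IsCompact (segment ℝ y z) := by
    rw [segment_eq_image ℝ y z]
    exact isCompact_Icc.image (by fun_prop)
  have hK : IsCompact (insert x (segment ℝ y z)) := hc.insert x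
  have hKO : insert x (segment ℝ y z) ⊆ Om :=
    insert_subset (h1 (left_mem_segment ℝ x y)) h2
  obtain ⟨δ, hδ, hth⟩ := hK.exists_thickening_subset_open hO hKO
  have hb : ∀ p ∈ insert x (segment ℝ y z), ball p δ ⊆ Om := fun p hp =>
    (ball_subset_thickening hp δ).trans hth
  obtain ⟨N, hN⟩ := exists_nat_gt (dist z y / δ)
  have hN0 : (0 : ℝ) < N := lt_of_le_of_lt (div_nonneg dist_nonneg hδ.le) hN
  have key : ∀ i : ℕ, i ≤ N →
      segment ℝ x ((1 - (i / N : ℝ)) • y + (i / N : ℝ) • z) ⊆ Om := by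
    intro i
    induction i with
    | zero => intro _; simpa using h1
    | succ i ih =>
      intro hi
      have hi' := ih (Nat.le_of_succ_le hi)
      have hmem : ∀ j : ℕ, j ≤ N →
          (1 - (j / N : ℝ)) • y + (j / N : ℝ) • z ∈ segment ℝ y z := by
        intro j hj
        refine ⟨1 - j / N, j / N, ?_, by positivity, by ring, rfl⟩
        have : (j : ℝ) ≤ N := by exact_mod_cast hj
        rw [sub_nonneg, div_le_one hN0]
        exact this
      have ht := thick_sub hL x _ δ hδ hi' (hb x (mem_insert _ _))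
        (hb _ (mem_insert_of_mem _ (hmem i (Nat.le_of_succ_le hi))))
      refine (seg_thick x _ _ δ ?_).trans ht
      rw [dist_eq_norm]
      have he : (1 - ((i + 1 : ℕ) / N : ℝ)) • y + ((i + 1 : ℕ) / N : ℝ) • z -
          ((1 - (i / N : ℝ)) • y + (i / N : ℝ) • z) = (1 / N : ℝ) • (z - y) := by
        push_cast
        module
      rw [he, norm_smul, Real.norm_eq_abs, abs_of_pos (by positivity), ← dist_eq_norm]
      rw [div_lt_iff₀ hδ] at hN
      rw [one_div, inv_mul_lt_iff₀ hN0]
      exact hN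
  have := key N le_rfl
  rw [div_self hN0.ne'] at this
  simpa using this

end CvxLAux

open CvxLAux in
theorem tCvxL : S_CvxL := by
  intro k Om hO hP hL
  rw [convex_iff_segment_subset]
  intro x hx
  have hu : IsOpen {y : Fin k → ℝ | segment ℝ x y ⊆ Om} := by
    rw [Metric.isOpen_iff]
    intro y hy
    have hc : IsCompact (segment ℝ x y) := by
      rw [segment_eq_image ℝ x y]
      exact isCompact_Icc.image (by fun_prop)
    obtain ⟨δ, hδ, hth⟩ := hc.exists_thickening_subset_open hO hy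
    exact ⟨δ, hδ, fun y' hy' => (seg_thick x y y' δ hy').trans hth⟩
  have := hP.subset_of_closure_inter_subset hu ⟨x, hx, by
    simpa using hx⟩ ?_
  · intro y hy
    exact this hy
  · rintro y ⟨hyc, hyO⟩
    obtain ⟨r, hr, hb⟩ := Metric.isOpen_iff.1 hO y hyO
    obtain ⟨y', hy', hd⟩ := Metric.mem_closure_iff.1 hyc r hr
    refine seg_trans hO hL x y' y hy' ?_
    have hy'b : y' ∈ ball y r := by rw [mem_ball, dist_comm]; exact hd
    exact ((convex_ball y r).segment_subset hy'b (mem_ball_self hr)).trans hb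

end KVC
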