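import Pool.Agent.Lib.KV.SpecC

/-!
# KV, block C: the asymptotic normal form in the frame
-/

set_option autoImplicit false

open Set Filter Topology Metric

namespace KVC

open KP KVB KV

namespace FrAsAux

/-- Second order Taylor formula, vector valued. -/
theorem tay2 {X Y : Type*} [NormedAddCommGroup X] [NormedSpace ℝ X] [NormedAddCommGroup Y]
    [NormedSpace ℝ Y] (h : X → Y) (c : X) (hh : ContDiffAt ℝ 2 h c) (η : ℝ) (hη : 0 < η) :
    ∃ r > 0, ∀ v : X, ‖v‖ < r →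
      ‖h (c + v) - h c - fderiv ℝ h c v - (1 / 2 : ℝ) • fderiv ℝ (fderiv ℝ h) c v v‖ ≤
        η * ‖v‖ ^ 2 := by
  set L := fderiv ℝ h c with hL
  set B := fderiv ℝ (fderiv ℝ h) c with hB
  have hsymm : ∀ v w, B v w = B w v := by
    have h1 : IsSymmSndFDerivAt ℝ h c := hh.isSymmSndFDerivAt (by simp)
    exact fun v w => h1 v w
  have h1 : ContDiffAt ℝ 1 (fderiv ℝ h) c := hh.fderiv_right (by norm_num)
  have h2 : HasFDerivAt (fderiv ℝ h) B c := (h1.differentiableAt (by norm_num)).hasFDerivAt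
  have h3 : ∀ᶠ x in 𝓝 c, DifferentiableAt ℝ h x := by
    filter_upwards [hh.eventually (by norm_num)] with x hx
    exact hx.differentiableAt (by norm_num)
  have h4 : ∀ᶠ x in 𝓝 c, ‖fderiv ℝ h x - L - B (x - c)‖ ≤ η * ‖x - c‖ := by
    have := h2.isLittleO.def hη
    exact this
  obtain ⟨r, hr, hball⟩ := Metric.eventually_nhds_iff_ball.1 (h3.and h4)
  refine ⟨r, hr, fun v hv => ?_⟩
  set f : X → Y := fun v => h (c + v) - h c - L v - (1 / 2 : ℝ) • B v v with hf
  have hmem : ∀ x ∈ closedBall (0 : X) ‖v‖, c + x ∈ ball c r := by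
    intro x hx
    rw [mem_closedBall, dist_zero_right] at hx
    rw [mem_ball, dist_self_add_left]
    linarith
  have hder : ∀ x ∈ closedBall (0 : X) ‖v‖, HasFDerivAt f (fderiv ℝ h (c + x) - L - B x) x := by
    intro x hx
    have e1 : HasFDerivAt (fun v => h (c + v)) (fderiv ℝ h (c + x)) x := by
      have a1 : HasFDerivAt h (fderiv ℝ h (c + x)) (c + x) := (hball _ (hmem x hx)).1.hasFDerivAt
      have a2 : HasFDerivAt (fun v : X => c + v) (ContinuousLinearMap.id ℝ X) x :=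
        (hasFDerivAt_id x).const_add c
      have a3 := a1.comp x a2
      rwa [ContinuousLinearMap.comp_id] at a3
    have e2 : HasFDerivAt (fun v : X => B v v)
        ((B x).comp (ContinuousLinearMap.id ℝ X) + B.flip x) x :=
      B.hasFDerivAt.clm_apply (hasFDerivAt_id x)
    have e3 := ((e1.sub_const (h c)).sub L.hasFDerivAt).sub (e2.const_smul (1 / 2 : ℝ))
    refine e3.congr_fderiv ?_
    ext w
    simp only [sub_apply, smul_apply, add_apply, ContinuousLinearMap.comp_id,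
      ContinuousLinearMap.flip_apply]
    rw [hsymm w x, ← two_smul ℝ, smul_smul]
    norm_num
  have hbound : ∀ x ∈ closedBall (0 : X) ‖v‖,
      ‖fderiv ℝ h (c + x) - L - B x‖ ≤ η * ‖v‖ := by
    intro x hx
    have a1 := (hball _ (hmem x hx)).2
    rw [add_sub_cancel_left] at a1
    refine a1.trans ?_
    rw [mem_closedBall, dist_zero_right] at hx
    exact mul_le_mul_of_nonneg_left hx hη.le
  have key := (convex_closedBall (0 : X) ‖v‖).norm_image_sub_le_of_norm_hasFDerivWithin_le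
    (fun x hx => (hder x hx).hasFDerivWithinAt) hbound
    (mem_closedBall_self (norm_nonneg v)) (show v ∈ closedBall (0 : X) ‖v‖ by simp)
  have hf0 : f 0 = 0 := by simp [hf]
  rw [hf0, sub_zero, sub_zero] at key
  calc ‖f v‖ ≤ η * ‖v‖ * ‖v‖ := key
    _ = η * ‖v‖ ^ 2 := by ring

variable {m k : ℕ}

theorem dir_add (z z' : Cn m) (u u' : Fin k → ℝ) :
    (dir (z + z') (u + u') : Ix m k → ℝ) = dir z u + dir z' u' := by
  ext i
  rcases i with (i | i) | j <;> simp [dir]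

theorem dir_smul (c : ℝ) (z : Cn m) (u : Fin k → ℝ) :
    (dir ((c : ℂ) • z) (c • u) : Ix m k → ℝ) = c • dir z u := by
  ext i
  rcases i with (i | i) | j <;> simp [dir]

theorem rev_add (w w' : Cn k) : rev (w + w') = rev w + rev w' := by
  ext j; simp [rev]

theorem imv_add (w w' : Cn k) : imv (w + w') = imv w + imv w' := by
  ext j; simp [imv]

theorem rev_smul (c : ℝ) (w : Cn k) : rev ((c : ℂ) • w) = c • rev w := by
  ext j; simp [rev]

theorem imv_smul (c : ℝ) (w : Cn k) : imv ((c : ℂ) • w) = c • imv w := by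
  ext j; simp [imv]

theorem hq_smul (c : ℂ) (Q : Fin k → Matrix (Fin m) (Fin m) ℂ) (z : Cn m) :
    hq Q (c • z) = (c ^ 2) • hq Q z := by
  ext j
  simp only [hq, Pi.smul_apply, smul_eq_mul, Finset.mul_sum]
  refine Finset.sum_congr rfl fun a _ => Finset.sum_congr rfl fun b _ => ?_
  ring

theorem xof_add (p q : Cn (m + k)) : (xof (p + q) : Ix m k → ℝ) = xof p + xof q := by
  simp only [xof, zp_add, wp_add, rev_add, dir_add]

theorem continuous_dir : Continuous fun q : Cn m × (Fin k → ℝ) => (dir q.1 q.2 : Ix m k → ℝ) := by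
  refine continuous_pi fun i => ?_
  rcases i with (i | i) | j
  · exact Complex.continuous_re.comp ((continuous_apply i).comp continuous_fst)
  · exact Complex.continuous_im.comp ((continuous_apply i).comp continuous_fst)
  · exact (continuous_apply j).comp continuous_snd

theorem continuous_rev : Continuous (rev : Cn k → Fin k → ℝ) :=
  continuous_pi fun j => Complex.continuous_re.comp (continuous_apply j)

theorem continuous_hq (Q : Fin k → Matrix (Fin m) (Fin m) ℂ) : Continuous (hq Q) := by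
  refine continuous_pi fun j => ?_
  simp only [hq]
  fun_prop

theorem continuous_mulVec (M : Matrix (Fin k) (Fin m) ℂ) :
    Continuous (fun z : Cn m => (M.mulVec z : Cn k)) := by
  refine continuous_pi fun j => ?_
  simp only [Matrix.mulVec, dotProduct]
  fun_prop

/-- The linear part of the displacement. -/
noncomputable def uu (Lam : Matrix (Fin k) (Fin m) ℂ) (p : Cn (m + k)) : Ix m k → ℝ :=
  dir (zp p) (rev (Lam.mulVec (zp p)))

/-- The quadratic part of the displacement. -/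
noncomputable def yy (E : Matrix (Fin k) (Fin k) ℂ) (Kq : Fin k → Matrix (Fin m) (Fin m) ℂ)
    (p : Cn (m + k)) : Ix m k → ℝ :=
  dir 0 (rev (E.mulVec (wp p) + hq Kq (zp p)))

theorem omg_dil (Lam : Matrix (Fin k) (Fin m) ℂ) (E : Matrix (Fin k) (Fin k) ℂ)
    (Kq : Fin k → Matrix (Fin m) (Fin m) ℂ) (σ : ℝ) (p : Cn (m + k)) :
    omg Lam E Kq ((σ : ℂ) • zp p) (((σ : ℂ) ^ 2) • wp p) =
      (σ : ℂ) • Lam.mulVec (zp p) + (((σ ^ 2 : ℝ)) : ℂ) • (E.mulVec (wp p) + hq Kq (zp p)) := by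
  simp only [omg, Matrix.mulVec_smul, hq_smul, Complex.ofReal_pow, smul_add]
  abel

theorem dir_dil (Lam : Matrix (Fin k) (Fin m) ℂ) (E : Matrix (Fin k) (Fin k) ℂ)
    (Kq : Fin k → Matrix (Fin m) (Fin m) ℂ) (σ : ℝ) (p : Cn (m + k)) :
    (dir ((σ : ℂ) • zp p) (rev (omg Lam E Kq ((σ : ℂ) • zp p) (((σ : ℂ) ^ 2) • wp p))) :
      Ix m k → ℝ) = σ • uu Lam p + (σ ^ 2) • yy E Kq p := by
  rw [omg_dil, rev_add, rev_smul, rev_smul]
  have h1 : (σ : ℂ) • zp p = (σ : ℂ) • zp p + (((σ ^ 2 : ℝ)) : ℂ) • (0 : Cn m) := by simp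
  conv_lhs => rw [h1]
  rw [dir_add, dir_smul, dir_smul]
  rfl

end FrAsAux

open FrAsAux in
theorem tFrAs : S_FrAs := by
  intro m k h x0 Lam E E' Kq Qm F hh hF M0 η hη
  -- bounds
  have hcu : Continuous (uu Lam : Cn (m + k) → Ix m k → ℝ) :=
    continuous_dir.comp (continuous_zp.prodMk (continuous_rev.comp
      ((continuous_mulVec Lam).comp continuous_zp)))
  have hcy : Continuous (yy E Kq : Cn (m + k) → Ix m k → ℝ) :=
    continuous_dir.comp (continuous_const.prodMk (continuous_rev.comp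
      (((continuous_mulVec E).comp continuous_wp).add ((continuous_hq Kq).comp continuous_zp))))
  obtain ⟨B1, hB1⟩ := (isCompact_closedBall (0 : Cn (m + k)) M0).exists_bound_of_continuousOn
    hcu.continuousOn
  obtain ⟨B2, hB2⟩ := (isCompact_closedBall (0 : Cn (m + k)) M0).exists_bound_of_continuousOn
    hcy.continuousOn
  set B := max 1 (max B1 B2) with hB
  have hB0 : 1 ≤ B := le_max_left _ _
  set D2 := fderiv ℝ (fderiv ℝ h) x0 with hD2
  set K := ‖D2‖ with hK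
  have hK0 : 0 ≤ K := norm_nonneg D2
  obtain ⟨r, hr, htay⟩ := tay2 h x0 hh (η / (8 * B ^ 2)) (by positivity)
  refine ⟨min (min 1 (r / (2 * B))) (min (η / (2 * B)) (η / (3 * (K + 1) * B ^ 2))), by positivity,
    ?_⟩
  rintro σ ⟨hσ0, hσ⟩ p hp
  rw [lt_min_iff, lt_min_iff, lt_min_iff] at hσ
  obtain ⟨⟨hσ1, hσr⟩, hση, hσK⟩ := hσ
  have hpm : p ∈ closedBall (0 : Cn (m + k)) M0 := by simpa using hp
  have hu : ‖uu Lam p‖ ≤ B := (hB1 p hpm).trans ((le_max_left _ _).trans (le_max_right _ _))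
  have hy : ‖yy E Kq p‖ ≤ B := (hB2 p hpm).trans ((le_max_right _ _).trans (le_max_right _ _))
  set u := uu Lam p with hudef
  set y := yy E Kq p with hydef
  set v : Ix m k → ℝ := σ • u + (σ ^ 2) • y with hv
  have hvn : ‖v‖ ≤ 2 * B * σ := by
    have h1 : ‖v‖ ≤ σ * ‖u‖ + σ ^ 2 * ‖y‖ := by
      refine (norm_add_le _ _).trans ?_
      rw [norm_smul, norm_smul, Real.norm_of_nonneg hσ0.le, Real.norm_of_nonneg (sq_nonneg σ)]
    have h2 : σ ^ 2 ≤ σ := pow_le_of_le_one hσ0.le hσ1.le (by norm_num)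
    have h3 : σ ^ 2 * ‖y‖ ≤ σ * B := mul_le_mul h2 hy (norm_nonneg _) hσ0.le
    have h4 : σ * ‖u‖ ≤ σ * B := mul_le_mul_of_nonneg_left hu hσ0.le
    linarith
  have hxq : xof (frm (pt x0 (h x0)) Lam E Kq (dil σ p)) = x0 + v := by
    rw [frm, xof_add, xof_pt, xof, zp_mk, wp_mk, zp_dil, wp_dil, dir_dil]
  have hwq : imv (wp (frm (pt x0 (h x0)) Lam E Kq (dil σ p))) =
      h x0 + imv (omg Lam E Kq ((σ : ℂ) • zp p) (((σ : ℂ) ^ 2) • wp p)) := by
    rw [frm, wp_add, imv_add, imv_pt, wp_mk, zp_dil, wp_dil]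
  have hlin := hF.lin ((σ : ℂ) • zp p) (((σ : ℂ) ^ 2) • wp p)
  rw [dir_dil, hq_smul] at hlin
  have hlin' : imv (omg Lam E Kq ((σ : ℂ) • zp p) (((σ : ℂ) ^ 2) • wp p)) - fderiv ℝ h x0 v =
      (σ ^ 2) • (imv (wp p) + rev (hq Qm (zp p))) := by
    have h1 : ((σ : ℂ) ^ 2) = (((σ ^ 2 : ℝ)) : ℂ) := by push_cast; rfl
    rw [h1, imv_smul, rev_smul, ← smul_add] at hlin
    rw [h1]
    exact hlin
  have hqua := hF.qua (zp p)
  have hqua' : D2 u u = (2 : ℝ) • (rev (hf F (zp p) (zp p)) + rev (hq Qm (zp p))) := hqua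
  have hvr : ‖v‖ < r := by
    refine hvn.trans_lt ?_
    rw [lt_div_iff₀ (by positivity)] at hσr
    linarith
  have htv := htay v hvr
  set R := h (x0 + v) - h x0 - fderiv ℝ h x0 v - (1 / 2 : ℝ) • D2 v v with hR
  have hD : D2 v v = (σ ^ 2) • D2 u u + (σ ^ 3) • (D2 u y + D2 y u) + (σ ^ 4) • D2 y y := by
    simp only [hv, map_add, map_smul, add_apply, smul_apply, smul_add, smul_smul]
    ring_nf
  have hnu : nu h (frm (pt x0 (h x0)) Lam E Kq (dil σ p)) - (σ ^ 2) • hgt F p =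
      -R - (1 / 2 : ℝ) • ((σ ^ 3) • (D2 u y + D2 y u) + (σ ^ 4) • D2 y y) := by
    rw [nu, hxq, hwq, hgt]
    have h2 : h (x0 + v) = R + h x0 + fderiv ℝ h x0 v + (1 / 2 : ℝ) • D2 v v := by
      rw [hR]; abel
    have h3 : imv (omg Lam E Kq ((σ : ℂ) • zp p) (((σ : ℂ) ^ 2) • wp p)) =
        fderiv ℝ h x0 v + (σ ^ 2) • (imv (wp p) + rev (hq Qm (zp p))) := by
      rw [← hlin']; abel
    rw [h2, h3, hD, hqua']
    simp only [smul_add, smul_sub, smul_smul]
    have h4 : (1 / 2 : ℝ) * (σ ^ 2 * 2) = σ ^ 2 := by ring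
    rw [h4]
    abel
  constructor
  · rw [hnu]
    have hb : ∀ a b : Ix m k → ℝ, ‖a‖ ≤ B → ‖b‖ ≤ B → ‖D2 a b‖ ≤ K * B ^ 2 := by
      intro a b ha hb
      refine (D2.le_opNorm₂ a b).trans ?_
      calc ‖D2‖ * ‖a‖ * ‖b‖ ≤ K * B * B := by gcongr
        _ = K * B ^ 2 := by ring
    have h1 : ‖R‖ ≤ η / 2 * σ ^ 2 := by
      refine htv.trans ?_
      calc η / (8 * B ^ 2) * ‖v‖ ^ 2 ≤ η / (8 * B ^ 2) * (2 * B * σ) ^ 2 := by gcongr
        _ = η / 2 * σ ^ 2 := by field_simp; ring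
    have h2 : ‖(1 / 2 : ℝ) • ((σ ^ 3) • (D2 u y + D2 y u) + (σ ^ 4) • D2 y y)‖ ≤
        3 / 2 * (K * B ^ 2) * σ ^ 3 := by
      rw [norm_smul]
      have h3 : ‖(σ ^ 3) • (D2 u y + D2 y u) + (σ ^ 4) • D2 y y‖ ≤
          σ ^ 3 * (K * B ^ 2 + K * B ^ 2) + σ ^ 3 * (K * B ^ 2) := by
        refine (norm_add_le _ _).trans (add_le_add ?_ ?_)
        · rw [norm_smul, Real.norm_of_nonneg (by positivity)]
          refine mul_le_mul_of_nonneg_left ?_ (by positivity)
          exact (norm_add_le _ _).trans (add_le_add (hb u y hu hy) (hb y u hy hu))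
        · rw [norm_smul, Real.norm_of_nonneg (by positivity)]
          have h5 : σ ^ 4 ≤ σ ^ 3 := pow_le_pow_of_le_one hσ0.le hσ1.le (by norm_num)
          exact mul_le_mul h5 (hb y y hy hy) (norm_nonneg _) (by positivity)
      have h6 : ‖(1 / 2 : ℝ)‖ = 1 / 2 := by norm_num
      rw [h6]
      calc 1 / 2 * ‖(σ ^ 3) • (D2 u y + D2 y u) + (σ ^ 4) • D2 y y‖ ≤
          1 / 2 * (σ ^ 3 * (K * B ^ 2 + K * B ^ 2) + σ ^ 3 * (K * B ^ 2)) :=
            mul_le_mul_of_nonneg_left h3 (by norm_num)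
        _ = 3 / 2 * (K * B ^ 2) * σ ^ 3 := by ring
    have h7 : 3 / 2 * (K * B ^ 2) * σ ^ 3 ≤ η / 2 * σ ^ 2 := by
      rw [lt_div_iff₀ (by positivity)] at hσK
      have h8 : 3 * (K * B ^ 2) * σ ≤ η := by
        have h10 : 3 * (K * B ^ 2) * σ ≤ σ * (3 * (K + 1) * B ^ 2) := by
          have h11 : 0 ≤ 3 * B ^ 2 * σ := by positivity
          calc 3 * (K * B ^ 2) * σ ≤ 3 * (K * B ^ 2) * σ + 3 * B ^ 2 * σ := by linarith
            _ = σ * (3 * (K + 1) * B ^ 2) := by ring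
        exact h10.trans hσK.le
      calc 3 / 2 * (K * B ^ 2) * σ ^ 3 = (1 / 2 * σ ^ 2) * (3 * (K * B ^ 2) * σ) := by ring
        _ ≤ (1 / 2 * σ ^ 2) * η := mul_le_mul_of_nonneg_left h8 (by positivity)
        _ = η / 2 * σ ^ 2 := by ring
    calc ‖-R - (1 / 2 : ℝ) • ((σ ^ 3) • (D2 u y + D2 y u) + (σ ^ 4) • D2 y y)‖
        ≤ ‖-R‖ + ‖(1 / 2 : ℝ) • ((σ ^ 3) • (D2 u y + D2 y u) + (σ ^ 4) • D2 y y)‖ :=
          norm_sub_le _ _
      _ ≤ η / 2 * σ ^ 2 + 3 / 2 * (K * B ^ 2) * σ ^ 3 := by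
          rw [norm_neg]; exact add_le_add h1 h2
      _ ≤ η * σ ^ 2 := by linarith
  · rw [hxq, add_sub_cancel_left]
    refine hvn.trans ?_
    rw [lt_div_iff₀ (by positivity)] at hση
    linarith

end KVC
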