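import Pool.Agent.Lib.KV.SpecC

/-!
# KV block C: FrEx, existence of the frame
-/

set_option autoImplicit false

open Set Filter Topology Metric

namespace KVC

open KP KVB KV

namespace FrExAux

theorem smul_dec {n : ℕ} (c : ℂ) (u : Cn n) :
    c • u = c.re • u + c.im • (Complex.I • u) := by
  ext i
  simp only [Pi.add_apply, Pi.smul_apply, smul_eq_mul, Complex.real_smul]
  rw [← mul_assoc, ← add_mul, Complex.re_add_im]

theorem I_smul_dec {n : ℕ} (c : ℂ) (u : Cn n) :
    Complex.I • (c • u) = c.re • (Complex.I • u) + (-c.im) • u := by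
  rw [smul_comm, smul_dec c (Complex.I • u), smul_smul Complex.I Complex.I u, Complex.I_mul_I]
  simp

/-- The complex linear map with the imaginary part `g`. -/
noncomputable def cplx {n k : ℕ} (g : Cn n →ₗ[ℝ] (Fin k → ℝ)) : Cn n →ₗ[ℂ] Cn k where
  toFun := fun z => cx (g (Complex.I • z)) + Complex.I • cx (g z)
  map_add' := by
    intro u v
    ext j
    simp only [smul_add, map_add, Pi.add_apply, cx, Pi.smul_apply, smul_eq_mul,
      Complex.ofReal_add]
    ring
  map_smul' := by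
    intro c z
    ext j
    rw [I_smul_dec, smul_dec c z]
    simp only [map_add, map_smul, Pi.add_apply, cx, Pi.smul_apply, smul_eq_mul, RingHom.id_apply]
    apply Complex.ext
    · simp
      ring
    · simp

theorem imv_cplx {n k : ℕ} (g : Cn n →ₗ[ℝ] (Fin k → ℝ)) (z : Cn n) : imv (cplx g z) = g z := by
  ext j
  simp [imv, cplx, cx]

theorem rev_cplx {n k : ℕ} (g : Cn n →ₗ[ℝ] (Fin k → ℝ)) (z : Cn n) :
    rev (cplx g z) = g (Complex.I • z) := by
  ext j
  simp [rev, cplx, cx]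

variable {m k : ℕ}

/-- `rev` as a linear map. -/
noncomputable def revL : Cn k →ₗ[ℝ] (Fin k → ℝ) where
  toFun := rev
  map_add' := by intro u v; ext j; simp [rev]
  map_smul' := by intro c v; ext j; simp [rev]

/-- `dir` as a linear map. -/
noncomputable def dirL : (Cn m × (Fin k → ℝ)) →ₗ[ℝ] (Ix m k → ℝ) where
  toFun := fun p => dir p.1 p.2
  map_add' := by
    intro p q
    ext i
    rcases i with (i | i) | j <;> simp [dir]
  map_smul' := by
    intro c p
    ext i
    rcases i with (i | i) | j <;> simp [dir]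

theorem norm_dir_zero (u : Fin k → ℝ) : ‖(dir (0 : Cn m) u : Ix m k → ℝ)‖ ≤ ‖u‖ := by
  refine (pi_norm_le_iff_of_nonneg (norm_nonneg _)).2 fun i => ?_
  rcases i with (i | i) | j
  · simp [dir]
  · simp [dir]
  · simpa [dir] using norm_le_pi_norm u j

theorem hq_K (E : Matrix (Fin k) (Fin k) ℂ) (Q : Fin k → Matrix (Fin m) (Fin m) ℂ) (z : Cn m) :
    hq (fun j a b => ∑ l, E j l * (Complex.I * Q l a b)) z =
      E.mulVec (Complex.I • hq Q z) := by
  ext j
  simp only [hq, Matrix.mulVec, dotProduct, Pi.smul_apply, smul_eq_mul, Finset.mul_sum,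
    Finset.sum_mul]
  conv_rhs => rw [Finset.sum_comm]
  refine Finset.sum_congr rfl fun a _ => ?_
  rw [Finset.sum_comm]
  refine Finset.sum_congr rfl fun l _ => Finset.sum_congr rfl fun b _ => ?_
  ring

end FrExAux

open FrExAux in
theorem tFrEx (h1 : S_QF) : S_FrEx := by
  intro m k h x0 hh hL
  set L := fderiv ℝ h x0 with hLdef
  have hL' : ‖L‖ ≤ 1 / 2 := by
    refine hL.trans ?_
    rw [div_le_div_iff₀ (by positivity) (by norm_num)]
    have : (0 : ℝ) ≤ k := Nat.cast_nonneg k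
    nlinarith
  -- the linear maps
  let ell : Cn m →ₗ[ℝ] (Fin k → ℝ) :=
    L.toLinearMap ∘ₗ dirL ∘ₗ LinearMap.inl ℝ (Cn m) (Fin k → ℝ)
  let bet : (Fin k → ℝ) →ₗ[ℝ] (Fin k → ℝ) :=
    L.toLinearMap ∘ₗ (dirL (m := m)) ∘ₗ LinearMap.inr ℝ (Cn m) (Fin k → ℝ)
  have hell : ∀ z, ell z = L (dir z 0) := fun z => rfl
  have hbet : ∀ u, bet u = L (dir 0 u) := fun u => rfl
  have hdir : ∀ (z : Cn m) (u : Fin k → ℝ), L (dir z u) = ell z + bet u := by
    intro z u
    rw [hell, hbet, ← map_add]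
    congr 1
    ext i
    rcases i with (i | i) | j <;> simp [dir]
  have hbn : ∀ u, ‖bet u‖ ≤ ‖u‖ / 2 := by
    intro u
    rw [hbet]
    calc ‖L (dir 0 u)‖ ≤ ‖L‖ * ‖(dir (0 : Cn m) u : Ix m k → ℝ)‖ := L.le_opNorm _
      _ ≤ (1 / 2) * ‖u‖ := by
        apply mul_le_mul hL' (norm_dir_zero u) (norm_nonneg _) (by norm_num)
      _ = ‖u‖ / 2 := by ring
  let T : Cn k →ₗ[ℂ] Cn k := LinearMap.id - cplx (bet ∘ₗ revL)
  have hT : ∀ w, T w = w - cplx (bet ∘ₗ revL) w := fun w => rfl
  have hTim : ∀ w, imv (T w) = imv w - bet (rev w) := by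
    intro w
    have := imv_cplx (bet ∘ₗ revL) w
    rw [hT]
    have e : imv (w - cplx (bet ∘ₗ revL) w) = imv w - imv (cplx (bet ∘ₗ revL) w) := by
      ext j; simp [imv]
    rw [e, this]
    rfl
  have hinj : Function.Injective T := by
    rw [← LinearMap.ker_eq_bot, LinearMap.ker_eq_bot']
    intro w hw
    rw [hT, sub_eq_zero] at hw
    have e1 : imv w = bet (rev w) := by
      conv_lhs => rw [hw]
      rw [imv_cplx]; rfl
    have e2 : rev w = bet (rev (Complex.I • w)) := by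
      conv_lhs => rw [hw]
      rw [rev_cplx]; rfl
    have e3 : rev (Complex.I • w) = - imv w := by
      ext j; simp [rev, imv]
    rw [e3, map_neg] at e2
    have n1 : ‖imv w‖ ≤ ‖rev w‖ / 2 := by
      conv_lhs => rw [e1]
      exact hbn _
    have n2 : ‖rev w‖ ≤ ‖imv w‖ / 2 := by
      conv_lhs => rw [e2]
      rw [norm_neg]
      exact hbn _
    have n3 : ‖imv w‖ = 0 := by
      have := norm_nonneg (imv w)
      linarith
    have n4 : ‖rev w‖ = 0 := by
      have := norm_nonneg (rev w)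
      linarith
    ext j
    apply Complex.ext
    · exact congrFun (norm_eq_zero.1 n4) j
    · exact congrFun (norm_eq_zero.1 n3) j
  let Te : Cn k ≃ₗ[ℂ] Cn k := LinearEquiv.ofInjectiveEndo T hinj
  have hTe : ∀ w, T (Te.symm w) = w := fun w => Te.apply_symm_apply w
  have hTe2 : ∀ w, Te.symm (T w) = w := fun w => Te.symm_apply_apply w
  let E : Matrix (Fin k) (Fin k) ℂ := LinearMap.toMatrix' (Te.symm : Cn k →ₗ[ℂ] Cn k)
  let E' : Matrix (Fin k) (Fin k) ℂ := LinearMap.toMatrix' T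
  let Lam : Matrix (Fin k) (Fin m) ℂ :=
    LinearMap.toMatrix' ((Te.symm : Cn k →ₗ[ℂ] Cn k) ∘ₗ cplx ell)
  have hE : ∀ w, E.mulVec w = Te.symm w := by
    intro w
    exact LinearMap.toMatrix'_mulVec _ _
  have hLam : ∀ z, Lam.mulVec z = Te.symm (cplx ell z) := by
    intro w
    exact LinearMap.toMatrix'_mulVec _ _
  let D : Cn m →L[ℝ] (Ix m k → ℝ) :=
    (dirL ∘ₗ (LinearMap.id.prod (revL ∘ₗ
      ((LinearMap.toMatrix'.symm Lam : Cn m →ₗ[ℂ] Cn k).restrictScalars ℝ)))).toContinuousLinearMap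
  have hD : ∀ z, D z = dir z (rev (Lam.mulVec z)) := by
    intro z
    rfl
  let B := fderiv ℝ (fderiv ℝ h) x0
  let S : Cn m →L[ℝ] Cn m →L[ℝ] (Fin k → ℝ) := (1 / 2 : ℝ) • (B.bilinearComp D D)
  have hS : ∀ u v, S u v = (1 / 2 : ℝ) • B (D u) (D v) := fun u v => rfl
  have hsym : ∀ u v, S u v = S v u := by
    intro u v
    rw [hS, hS]
    have : IsSymmSndFDerivAt ℝ h x0 :=
      hh.isSymmSndFDerivAt (by simp)
    rw [this (D u) (D v)]
  obtain ⟨F, Q, hF, hFQ⟩ := h1 m k S hsym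
  refine ⟨Lam, E, E', fun j a b => ∑ l, E j l * (Complex.I * Q l a b), Q, F, ?_⟩
  constructor
  · rw [← LinearMap.toMatrix'_comp]
    have : (Te.symm : Cn k →ₗ[ℂ] Cn k) ∘ₗ T = LinearMap.id :=
      LinearMap.ext fun w => hTe2 w
    rw [this, LinearMap.toMatrix'_id]
  · rw [← LinearMap.toMatrix'_comp]
    have : T ∘ₗ (Te.symm : Cn k →ₗ[ℂ] Cn k) = LinearMap.id :=
      LinearMap.ext fun w => hTe w
    rw [this, LinearMap.toMatrix'_id]
  · exact hF
  · intro z w
    rw [hdir]
    have e1 : T (omg Lam E (fun j a b => ∑ l, E j l * (Complex.I * Q l a b)) z w) =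
        cplx ell z + w + Complex.I • hq Q z := by
      rw [omg, hq_K, map_add, map_add, hLam, hE, hE, hTe, hTe, hTe]
    have e2 := hTim (omg Lam E (fun j a b => ∑ l, E j l * (Complex.I * Q l a b)) z w)
    rw [e1] at e2
    have e3 : imv (cplx ell z + w + Complex.I • hq Q z) = ell z + imv w + rev (hq Q z) := by
      rw [← imv_cplx ell z]
      ext j
      simp [imv, rev]
    rw [e3] at e2
    rw [← sub_sub, sub_right_comm, ← e2]
    abel
  · intro z
    rw [← hFQ z, hS, ← hD, smul_smul]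
    norm_num
    rfl

end KVC
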