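import Pool.Agent.Lib.KV.SpecC

/-!
# KV, block C: GenE
-/

set_option autoImplicit false

open Set Filter Topology Metric

namespace KVC

open KP KVB KV

namespace GenEAux

variable {m k : ℕ}

/-- The set `G_(v, e)`. -/
def GS (A : Set (Cn (m + k))) (h : (Ix m k → ℝ) → (Fin k → ℝ)) (v : Fin k → ℚ) (e : ℚ) :
    Set (Option (Ix m k) → ℝ) :=
  {z | ∀ y : Fin k → ℝ, (∀ j, |y j - (v j : ℝ)| < (e : ℝ)) →
    pt (fun i => z (some i)) (h (fun i => z (some i)) + (z none) • y) ∈ A}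

theorem sq_GS (h1 : S_TSn) (h2 : S_SqA) {A : Set (Cn (m + k))}
    {h : (Ix m k → ℝ) → (Fin k → ℝ)} (hA : SC A) (hh : SF h) (v : Fin k → ℚ) (e : ℚ) :
    SQ (GS A h v e) := by
  classical
  refine SQ.all h1 (P := fun (z : Option (Ix m k) → ℝ) (y : Fin k → ℝ) =>
    (∀ j, |y j - (v j : ℝ)| < (e : ℝ)) →
      pt (fun i => z (some i)) (h (fun i => z (some i)) + (z none) • y) ∈ A) ?_
  have hbox : SQ {z : Option (Ix m k) ⊕ Fin k → ℝ |
      ∀ j, |z (Sum.inr j) - (v j : ℝ)| < (e : ℝ)} := by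
    have h3 : SQ (⋂ j : Fin k, ({z : Option (Ix m k) ⊕ Fin k → ℝ |
        MvPolynomial.eval z (MvPolynomial.X (Sum.inr j)) <
          MvPolynomial.eval z (MvPolynomial.C ((v j : ℝ) + (e : ℝ)))} ∩
        {z : Option (Ix m k) ⊕ Fin k → ℝ |
          MvPolynomial.eval z (MvPolynomial.C ((v j : ℝ) - (e : ℝ))) <
          MvPolynomial.eval z (MvPolynomial.X (Sum.inr j))})) :=
      SQ.iInter fun j => (SQ.lt _ _).inter (SQ.lt _ _)
    refine (congrArg SQ ?_).mp h3
    ext z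
    simp only [mem_iInter, mem_inter_iff, mem_ofPred_eq, MvPolynomial.eval_X,
      MvPolynomial.eval_C]
    refine forall_congr' fun j => ?_
    rw [abs_lt]
    constructor
    · rintro ⟨h4, h5⟩; constructor <;> linarith
    · rintro ⟨h4, h5⟩; constructor <;> linarith
  have hA2 : SQ {z : Option (Ix m k) ⊕ Fin k → ℝ |
      pt (fun i => z (Sum.inl (some i))) (h (fun i => z (Sum.inl (some i))) +
        (z (Sum.inl none)) • fun j => z (Sum.inr j)) ∈ A} := by
    have h4 := (h2 m k A h hA hh).preim (ι := Option (Ix m k) ⊕ Fin k)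
      (fun s => Sum.elim (fun i => MvPolynomial.X (Sum.inl (some i)))
        (fun j => MvPolynomial.X (Sum.inl none) * MvPolynomial.X (Sum.inr j)) s)
    refine (congrArg SQ ?_).mp h4
    ext z
    simp only [mem_ofPred_eq, Sum.elim_inl, Sum.elim_inr, MvPolynomial.eval_X,
      map_mul]
    rfl
  refine (congrArg SQ ?_).mp (hbox.compl.union hA2)
  ext z
  simp only [mem_union, mem_compl_iff, mem_ofPred_eq]
  exact imp_iff_not_or.symm

end GenEAux

open GenEAux in
theorem tGenE (h1 : S_TSn) (h2 : S_SqA) (h3 : S_DL) (h4 : S_GenP) : S_GenE := by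
  intro m k A O h hL
  classical
  choose q hq0 hq using fun s : (Fin k → ℚ) × ℚ =>
    h3 (Ix m k) (GS A h s.1 s.2) (sq_GS h1 h2 hL.nf.sc hL.nf.sf s.1 s.2)
  obtain ⟨f, hf⟩ := exists_surjective_nat ((Fin k → ℚ) × ℚ)
  obtain ⟨c, hcO, hc⟩ := h4 (Ix m k) O (fun n => q (f n)) hL.nf.hO hL.nf.nO fun n => hq0 _
  refine ⟨c, hcO, fun v e he hP => ?_⟩
  have hv' : ∀ j, ∃ r : ℚ, |(r : ℝ) - v j| < e / 4 := fun j => by
    obtain ⟨r, hr1, hr2⟩ := exists_rat_btwn (show v j - e / 4 < v j + e / 4 by linarith)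
    exact ⟨r, by rw [abs_lt]; constructor <;> linarith⟩
  choose v' hv using hv'
  obtain ⟨e', he1, he2⟩ := exists_rat_btwn (show e / 4 < e / 2 by linarith)
  have he0 : (0 : ℝ) < e' := by linarith
  obtain ⟨n, hn⟩ := hf (v', e')
  have hev := hq (v', e') c (by rw [← hn]; exact hc n)
  set w : Fin k → ℝ := fun j => (v' j : ℝ) with hw
  have hvw : dist v w < e' := by
    rw [dist_pi_lt_iff he0]
    intro j
    rw [Real.dist_eq, abs_sub_comm]
    exact (hv j).trans he1
  have hvw2 : dist w v ≤ e / 4 := by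
    rw [dist_pi_le_iff (by positivity)]
    intro j
    rw [Real.dist_eq]
    exact (hv j).le
  have hbox : ∀ y : Fin k → ℝ, (∀ j, |y j - (v' j : ℝ)| < (e' : ℝ)) ↔ y ∈ ball w e' := by
    intro y
    rw [mem_ball, dist_pi_lt_iff he0]
    exact Iff.rfl
  obtain ⟨δ, hδ, h5 | h5⟩ := hev
  · refine ⟨min δ (e' - dist v w), lt_min hδ (by linarith), fun x hx t ht y hy => ?_⟩
    have h6 := h5 x (ball_subset_ball (min_le_left _ _) hx) t
      ⟨ht.1, lt_of_lt_of_le ht.2 (min_le_left _ _)⟩ y ((hbox y).2 ?_)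
    · exact h6
    · rw [mem_ball] at hy ⊢
      have h7 := lt_of_lt_of_le hy (min_le_right _ _)
      calc dist y w ≤ dist y v + dist v w := dist_triangle _ _ _
        _ < e' := by linarith
  · exfalso
    obtain ⟨x, hx, t, ht, hA⟩ := hP δ hδ
    refine h5 x hx t ht fun y hy => ?_
    refine hA y ?_
    rw [hbox, mem_ball] at hy
    rw [mem_ball]
    calc dist y v ≤ dist y w + dist w v := dist_triangle _ _ _
      _ < e := by linarith

end KVC
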