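import Pool.Agent.Lib.KV.SpecC

/-!
# KV (MP_64edc4_ag), block C, module Hur: the theorem of Hurwitz in one variable
-/

set_option autoImplicit false

open Set Filter Topology Metric

namespace KVC

open KP KVB KV

theorem tHur : S_Hur := by
  intro g g' r hr hg hlim hne h0
  have hd : DifferentiableOn ℂ g' (ball 0 r) :=
    hlim.tendstoLocallyUniformlyOn.differentiableOn hg isOpen_ball
  have ha : AnalyticOnNhd ℂ g' (ball 0 r) := hd.analyticOnNhd isOpen_ball
  have h0m : (0 : ℂ) ∈ ball (0 : ℂ) r := mem_ball_self hr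
  rcases (ha 0 h0m).eventually_eq_zero_or_eventually_ne_zero with h | h
  · exact fun t ht => ha.eqOn_zero_of_preconnected_of_eventuallyEq_zero
      (convex_ball _ _).isPreconnected h0m h ht
  exfalso
  rw [eventually_nhdsWithin_iff, Metric.eventually_nhds_iff] at h
  obtain ⟨s0, hs0, h1⟩ := h
  set s : ℝ := min s0 r / 2 with hs
  have hmin : 0 < min s0 r := lt_min hs0 hr
  have hspos : 0 < s := by positivity
  have hss0 : s < s0 := lt_of_lt_of_le (by rw [hs]; linarith) (min_le_left s0 r)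
  have hsr : s < r := lt_of_lt_of_le (by rw [hs]; linarith) (min_le_right s0 r)
  have hsub : closedBall (0 : ℂ) s ⊆ ball 0 r := closedBall_subset_ball hsr
  have h2 : ∀ t ∈ sphere (0 : ℂ) s, g' t ≠ 0 := by
    intro t ht
    have ht' : ‖t‖ = s := by simpa using ht
    refine h1 (by rw [dist_zero_right, ht']; exact hss0) ?_
    intro h3
    have h4 : t = 0 := h3
    rw [h4, norm_zero] at ht'
    linarith
  have hne' : (sphere (0 : ℂ) s).Nonempty := NormedSpace.sphere_nonempty.2 hspos.le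
  have hcont : ContinuousOn (fun t => ‖g' t‖) (sphere (0 : ℂ) s) :=
    (hd.continuousOn.mono (sphere_subset_closedBall.trans hsub)).norm
  obtain ⟨t0, ht0, hmin0⟩ := (isCompact_sphere (0 : ℂ) s).exists_isMinOn hne' hcont
  have hm : 0 < ‖g' t0‖ := norm_pos_iff.2 (h2 t0 ht0)
  have hlim' := Metric.tendstoUniformlyOn_iff.1 hlim (‖g' t0‖ / 2) (by positivity)
  obtain ⟨j, hj1, hj2, hj3⟩ := (hlim'.and (hg.and hne)).exists
  have e1 : ∀ t ∈ sphere (0 : ℂ) s, ‖g' t0‖ / 2 ≤ ‖g j t‖ := by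
    intro t ht
    have a1 := hj1 t (hsub (sphere_subset_closedBall ht))
    have a2 : ‖g' t0‖ ≤ ‖g' t‖ := hmin0 ht
    rw [dist_eq_norm] at a1
    have a3 : ‖g' t‖ ≤ ‖g' t - g j t‖ + ‖g j t‖ := by
      have := norm_add_le (g' t - g j t) (g j t)
      rwa [sub_add_cancel] at this
    linarith
  have e2 : ‖g j 0‖ < ‖g' t0‖ / 2 := by
    have a1 := hj1 0 h0m
    rwa [h0, dist_zero_left] at a1
  have hdc : DiffContOnCl ℂ (fun t => (g j t)⁻¹) (ball 0 s) := by
    refine DifferentiableOn.diffContOnCl ?_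
    rw [closure_ball (0 : ℂ) hspos.ne']
    exact (hj2.mono hsub).inv fun t ht => hj3 t (hsub ht)
  have hbd : ∀ t ∈ frontier (ball (0 : ℂ) s), ‖(fun t => (g j t)⁻¹) t‖ ≤ (‖g' t0‖ / 2)⁻¹ := by
    intro t ht
    rw [frontier_ball (0 : ℂ) hspos.ne'] at ht
    show ‖(g j t)⁻¹‖ ≤ _
    rw [norm_inv]
    exact inv_anti₀ (by positivity) (e1 t ht)
  have h5 := Complex.norm_le_of_forall_mem_frontier_norm_le isBounded_ball hdc hbd
    (subset_closure (mem_ball_self hspos))
  have h6 : ‖(g j 0)⁻¹‖ ≤ (‖g' t0‖ / 2)⁻¹ := h5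
  rw [norm_inv] at h6
  have h7 : 0 < ‖g j 0‖ := norm_pos_iff.2 (hj3 0 h0m)
  have h8 := (inv_le_inv₀ h7 (by positivity)).1 h6
  linarith

end KVC
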