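import Pool.Agent.Lib.KV.SpecC

set_option autoImplicit false

open Set Filter Topology Metric

namespace KVC

open KP KVB KV

namespace HurNAux

theorem lim0 {n N : ℕ} {O : Set (Cn n)} (hO : IsOpen O) {g : ℕ → Cn n → Cn N}
    {h : Cn n → Cn N} (hg : ∀ j, DifferentiableOn ℂ (g j) O)
    (hgh : TendstoUniformlyOn g h atTop O) : DifferentiableOn ℂ h O := by
  intro z hz
  obtain ⟨R', hR', hRO⟩ := Metric.isOpen_iff.mp hO z hz
  set R : ℝ := R' / 2 with hR
  have hRpos : 0 < R := by positivity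
  have hsub : ∀ y ∈ ball z R, ball y R ⊆ O := by
    intro y hy
    refine Subset.trans (ball_subset_ball' ?_) hRO
    rw [mem_ball] at hy
    linarith
  have hyO : ∀ y ∈ ball z R, y ∈ O := fun y hy => hsub y hy (mem_ball_self hRpos)
  have hC : UniformCauchySeqOn (fun j => fderiv ℂ (g j)) atTop (ball z R) := by
    rw [Metric.uniformCauchySeqOn_iff]
    intro ε hε
    have hc := hgh.uniformCauchySeqOn
    rw [Metric.uniformCauchySeqOn_iff] at hc
    obtain ⟨k, hk⟩ := hc (ε * R / 2) (by positivity)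
    refine ⟨k, fun a ha b hb y hy => ?_⟩
    have h1 : DifferentiableOn ℂ (fun w => g a w - g b w) (ball y R) :=
      ((hg a).mono (hsub y hy)).sub ((hg b).mono (hsub y hy))
    have h2 := Pool.Agent.Lib.Osgood.norm_fderiv_le (M := ε * R / 2) hRpos h1 (fun w hw => by
      have := (hk a ha b hb w (hsub y hy hw)).le
      rwa [dist_eq_norm] at this)
    have h3 : fderiv ℂ (fun w => g a w - g b w) y = fderiv ℂ (g a) y - fderiv ℂ (g b) y :=
      fderiv_fun_sub ((hg a).differentiableAt (hO.mem_nhds (hyO y hy)))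
        ((hg b).differentiableAt (hO.mem_nhds (hyO y hy)))
    rw [h3] at h2
    rw [dist_eq_norm]
    refine lt_of_le_of_lt h2 ?_
    have : ε * R / 2 / R = ε / 2 := by field_simp
    rw [this]
    linarith
  have hlim : ∀ y ∈ ball z R, ∃ L : Cn n →L[ℂ] Cn N,
      Tendsto (fun j => fderiv ℂ (g j) y) atTop (𝓝 L) := fun y hy =>
    cauchySeq_tendsto_of_complete (hC.cauchySeq hy)
  choose! L hL using hlim
  have hU := hC.tendstoUniformlyOn_of_tendsto hL
  exact (hasFDerivAt_of_tendstoUniformlyOn isOpen_ball hU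
    (fun j y hy => ((hg j).differentiableAt (hO.mem_nhds (hyO y hy))).hasFDerivAt)
    (fun y hy => hgh.tendsto_at (hyO y hy))
      (mem_ball_self hRpos)).differentiableAt.differentiableWithinAt

theorem lim1 {n N : ℕ} {O : Set (Cn n)} (hO : IsOpen O) {g : ℕ → Cn n → Cn N}
    {h : Cn n → Cn N} (hg : ∀ᶠ j in atTop, DifferentiableOn ℂ (g j) O)
    (hgh : TendstoUniformlyOn g h atTop O) : DifferentiableOn ℂ h O := by
  obtain ⟨k, hk⟩ := eventually_atTop.1 hg
  refine lim0 hO (g := fun j => g (j + k)) (fun j => hk (j + k) (by omega)) ?_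
  intro u hu
  exact (tendsto_add_atTop_nat k).eventually (hgh u hu)

theorem det_diff (n : ℕ) : Differentiable ℂ (fun A : Cn n →L[ℂ] Cn n => A.det) := by
  have h : (fun A : Cn n →L[ℂ] Cn n => A.det) = fun A => ∑ σ : Equiv.Perm (Fin n),
      ((Equiv.Perm.sign σ : ℤ) : ℂ) * ∏ i, A (Pi.single i 1) (σ i) := by
    funext A
    rw [ContinuousLinearMap.det, ← LinearMap.det_toMatrix', Matrix.det_apply]
    refine Finset.sum_congr rfl fun σ _ => ?_
    rw [Units.smul_def, zsmul_eq_mul]
    refine congrArg₂ (· * ·) rfl (Finset.prod_congr rfl fun i _ => ?_)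
    rw [LinearMap.toMatrix'_apply]
    rfl
  rw [h]
  have h1 : ∀ (v : Cn n) (i : Fin n), Differentiable ℂ (fun A : Cn n →L[ℂ] Cn n => A v i) :=
    fun v i => differentiable_pi.1 (ContinuousLinearMap.apply ℂ (Cn n) v).differentiable i
  fun_prop (disch := exact h1 _ _)

theorem fderiv_unif {n : ℕ} {w0 y0 : Cn n} {r ρ : ℝ} {H : ℕ → Cn n → Cn n} {H' : Cn n → Cn n}
    (hρ : 0 < ρ) (hsub : ∀ y ∈ ball y0 ρ, ball y ρ ⊆ ball w0 r)
    (hd : ∀ᶠ j in atTop, DifferentiableOn ℂ (H j) (ball w0 r))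
    (hd' : DifferentiableOn ℂ H' (ball w0 r))
    (hU : TendstoUniformlyOn H H' atTop (ball w0 r)) :
    TendstoUniformlyOn (fun j => fderiv ℂ (H j)) (fderiv ℂ H') atTop (ball y0 ρ) := by
  rw [Metric.tendstoUniformlyOn_iff] at hU ⊢
  intro ε hε
  filter_upwards [hU (ε * ρ / 2) (by positivity), hd] with j hj hdj y hy
  have hyO : y ∈ ball w0 r := hsub y hy (mem_ball_self hρ)
  have h1 : DifferentiableOn ℂ (fun w => H' w - H j w) (ball y ρ) :=
    (hd'.mono (hsub y hy)).sub (hdj.mono (hsub y hy))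
  have h2 := Pool.Agent.Lib.Osgood.norm_fderiv_le (M := ε * ρ / 2) hρ h1 (fun w hw => by
    have := (hj w (hsub y hy hw)).le
    rwa [dist_eq_norm] at this)
  have h3 : fderiv ℂ (fun w => H' w - H j w) y = fderiv ℂ H' y - fderiv ℂ (H j) y :=
    fderiv_fun_sub (hd'.differentiableAt (isOpen_ball.mem_nhds hyO))
      (hdj.differentiableAt (isOpen_ball.mem_nhds hyO))
  rw [h3] at h2
  rw [dist_eq_norm]
  refine lt_of_le_of_lt h2 ?_
  have : ε * ρ / 2 / ρ = ε / 2 := by field_simp
  rw [this]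
  linarith

theorem fderiv_diff {n : ℕ} {O : Set (Cn n)} (hO : IsOpen O) {f : Cn n → Cn n}
    (hf : DifferentiableOn ℂ f O) :
    DifferentiableOn ℂ (fun v => (fderiv ℂ f v).det) O :=
  (det_diff n).comp_differentiableOn
    (Pool.Agent.Lib.Osgood.analyticOnNhd hO hf).fderiv.differentiableOn

end HurNAux

open HurNAux

theorem tHurN (h1 : S_Hur) : S_HurN := by
  rintro n w0 r H H' hr hd hU hne ⟨v1, hv1, hdet1⟩ v2 hv2 hdet2
  apply hdet1
  have hd' : DifferentiableOn ℂ H' (ball w0 r) := lim1 isOpen_ball hd hU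
  set u : Cn n := v1 - v2 with hu
  let a : ℂ → Cn n := fun t => v2 + t • u
  have ha : Differentiable ℂ a := by
    intro t
    exact ((differentiableAt_id.smul_const u).const_add v2)
  set D : Set ℂ := a ⁻¹' ball w0 r with hD
  have hDo : IsOpen D := isOpen_ball.preimage ha.continuous
  have hDc : Convex ℝ D := by
    intro s hs t ht α β hα hβ hαβ
    have e : a (α • s + β • t) = α • a s + β • a t := by
      have e1 : (α : ℂ) + (β : ℂ) = 1 := by exact_mod_cast hαβ
      have e2 : a (α • s + β • t) = ((α : ℂ) + β) • v2 + ((α : ℂ) * s + β * t) • u := by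
        rw [e1, one_smul]
        rfl
      rw [e2]
      ext i
      simp only [a, Pi.add_apply, Pi.smul_apply, smul_eq_mul, Complex.real_smul]
      ring
    change a (α • s + β • t) ∈ ball w0 r
    rw [e]
    exact convex_ball w0 r hs ht hα hβ hαβ
  have h0D : (0 : ℂ) ∈ D := by
    change v2 + (0 : ℂ) • u ∈ ball w0 r
    rwa [zero_smul, add_zero]
  have h1D : (1 : ℂ) ∈ D := by
    change v2 + (1 : ℂ) • u ∈ ball w0 r
    rw [one_smul, hu, add_sub_cancel]
    exact hv1
  set φ : ℂ → ℂ := fun t => (fderiv ℂ H' (a t)).det with hφ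
  have hφd : DifferentiableOn ℂ φ D :=
    (fderiv_diff isOpen_ball hd').comp ha.differentiableOn (fun t ht => ht)
  -- a small ball around `v2`
  obtain ⟨R, hR, hRsub⟩ := Metric.isOpen_iff.1 (isOpen_ball (x := w0) (ε := r)) v2 hv2
  set ρ : ℝ := R / 2 with hρ
  have hρ0 : 0 < ρ := by positivity
  have hsub : ∀ y ∈ ball v2 ρ, ball y ρ ⊆ ball w0 r := by
    intro y hy
    refine Subset.trans (ball_subset_ball' ?_) hRsub
    rw [mem_ball] at hy
    linarith
  have hdU := fderiv_unif hρ0 hsub hd hd' hU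
  -- the closed ball of radius `ρ / 2`
  have hcl : closedBall v2 (ρ / 2) ⊆ ball v2 ρ := closedBall_subset_ball (by linarith)
  have hclb : closedBall v2 (ρ / 2) ⊆ ball w0 r := fun y hy =>
    hsub y (hcl hy) (mem_ball_self hρ0)
  have hcont : ContinuousOn (fderiv ℂ H') (ball w0 r) :=
    (Pool.Agent.Lib.Osgood.analyticOnNhd isOpen_ball hd').fderiv.continuousOn
  obtain ⟨M, hM⟩ := (isCompact_closedBall v2 (ρ / 2)).exists_bound_of_continuousOn
    (hcont.mono hclb)
  have hprop : IsCompact (closedBall (0 : Cn n →L[ℂ] Cn n) (M + 1)) := isCompact_closedBall _ _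
  have huc : UniformContinuousOn (fun A : Cn n →L[ℂ] Cn n => A.det)
      (closedBall (0 : Cn n →L[ℂ] Cn n) (M + 1)) :=
    hprop.uniformContinuousOn_of_continuous ContinuousLinearMap.continuous_det.continuousOn
  have hdU2 : TendstoUniformlyOn (fun j => fderiv ℂ (H j)) (fderiv ℂ H') atTop
      (closedBall v2 (ρ / 2)) := hdU.mono hcl
  have hbd : ∀ᶠ j in atTop, ∀ y ∈ closedBall v2 (ρ / 2),
      fderiv ℂ (H j) y ∈ closedBall (0 : Cn n →L[ℂ] Cn n) (M + 1) := by
    have h2 := hdU2
    rw [Metric.tendstoUniformlyOn_iff] at h2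
    filter_upwards [h2 1 one_pos] with j hj y hy
    have h3 := hj y hy
    rw [dist_eq_norm] at h3
    rw [mem_closedBall_zero_iff]
    have h4 := hM y hy
    have h5 : ‖fderiv ℂ (H j) y‖ ≤ ‖fderiv ℂ H' y‖ + ‖fderiv ℂ H' y - fderiv ℂ (H j) y‖ := by
      have := norm_sub_le (fderiv ℂ H' y) (fderiv ℂ H' y - fderiv ℂ (H j) y)
      rwa [sub_sub_cancel] at this
    linarith
  have hdetU : TendstoUniformlyOn (fun j y => (fderiv ℂ (H j) y).det)
      (fun y => (fderiv ℂ H' y).det) atTop (closedBall v2 (ρ / 2)) := by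
    refine UniformContinuousOn.comp_tendstoUniformlyOn_eventually hbd ?_ huc hdU2
    intro y hy
    rw [mem_closedBall_zero_iff]
    have := hM y hy
    linarith
  -- a small disc
  obtain ⟨s, hs, hsball⟩ : ∃ s > 0, ∀ t ∈ ball (0 : ℂ) s, a t ∈ closedBall v2 (ρ / 2) := by
    have h2 : Tendsto a (𝓝 0) (𝓝 v2) := by
      have := ha.continuous.tendsto 0
      simpa [a] using this
    have h3 : ∀ᶠ t in 𝓝 (0 : ℂ), a t ∈ closedBall v2 (ρ / 2) :=
      h2 (closedBall_mem_nhds v2 (by positivity))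
    exact Metric.eventually_nhds_iff_ball.1 h3
  have hzero : ∀ t ∈ ball (0 : ℂ) s, φ t = 0 := by
    refine h1 (fun j t => (fderiv ℂ (H j) (a t)).det) φ s hs ?_ ?_ ?_ ?_
    · filter_upwards [hd] with j hj
      exact (fderiv_diff isOpen_ball hj).comp ha.differentiableOn
        (fun t ht => hclb (hsball t ht))
    · rw [Metric.tendstoUniformlyOn_iff] at hdetU ⊢
      intro ε hε
      filter_upwards [hdetU ε hε] with j hj t ht
      exact hj (a t) (hsball t ht)
    · filter_upwards [hne] with j hj t ht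
      exact hj (a t) (hclb (hsball t ht))
    · change (fderiv ℂ H' (v2 + (0 : ℂ) • u)).det = 0
      rwa [zero_smul, add_zero]
  have hev : φ =ᶠ[𝓝 0] 0 := by
    filter_upwards [ball_mem_nhds (0 : ℂ) hs] with t ht
    exact hzero t ht
  have hall := (hφd.analyticOnNhd hDo).eqOn_zero_of_preconnected_of_eventuallyEq_zero
    hDc.isPreconnected h0D hev h1D
  have e : a 1 = v1 := by
    change v2 + (1 : ℂ) • u = v1
    rw [one_smul, hu, add_sub_cancel]
  have h2 : (fderiv ℂ H' (a 1)).det = 0 := hall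
  rwa [e] at h2

end KVC
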