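import Pool.Agent.Lib.KV.SpecC

/-!
# KV, block C: `Kon` (the continuity principle for domains biholomorphic to `U`)
-/

set_option autoImplicit false

open Set Filter Topology Metric

namespace KVC

open KP KVB KV

namespace KonAux

/-- A nonempty bounded open subset of the plane has a frontier point. -/
theorem exists_frontier {B : Set ℂ} (hb : Bornology.IsBounded B)
    (hne : B.Nonempty) : (frontier B).Nonempty := by
  by_contra h
  rw [not_nonempty_iff_eq_empty, ← isClopen_iff_frontier_eq_empty, isClopen_iff] at h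
  rcases h with h | h
  · exact hne.ne_empty h
  · rw [h] at hb
    exact noncompact_univ ℂ (Metric.isCompact_of_isClosed_isBounded isClosed_univ hb)

/-- The set of good parameters is a right neighbourhood of each of its points. -/
theorem open_part {n : ℕ} {D : Set (Cn n)} (hD : IsOpen D) {B : Set ℂ} {f : ℝ → ℂ → Cn n}
    (hb : Bornology.IsBounded B)
    (hf : ContinuousOn (fun q : ℝ × ℂ => f q.1 q.2) (Icc (0 : ℝ) 1 ×ˢ closure B))
    (x : ℝ) (hx : x ∈ Ico (0 : ℝ) 1) (hxX : ∀ t ∈ closure B, f x t ∈ D) :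
    {s : ℝ | ∀ t ∈ closure B, f s t ∈ D} ∈ 𝓝[>] x := by
  obtain ⟨W, hW, hWe⟩ := continuousOn_iff'.1 hf D hD
  have hcl : IsCompact (closure B) := hb.isCompact_closure
  have hsub : ({x} : Set ℝ) ×ˢ closure B ⊆ W := by
    rintro ⟨a, t⟩ ⟨ha, ht⟩
    obtain rfl : a = x := ha
    have : (a, t) ∈ (fun q : ℝ × ℂ => f q.1 q.2) ⁻¹' D ∩ Icc (0 : ℝ) 1 ×ˢ closure B :=
      ⟨hxX t ht, ⟨hx.1, hx.2.le⟩, ht⟩
    rw [hWe] at this
    exact this.1
  obtain ⟨u, v, hu, hv, hxu, hBv, huv⟩ := generalized_tube_lemma isCompact_singleton hcl hW hsub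
  filter_upwards [Ioo_mem_nhdsGT hx.2, mem_nhdsWithin_of_mem_nhds
    (hu.mem_nhds (hxu (mem_singleton x)))] with s hs hsu
  intro t ht
  have : (s, t) ∈ (fun q : ℝ × ℂ => f q.1 q.2) ⁻¹' D ∩ Icc (0 : ℝ) 1 ×ˢ closure B := by
    rw [hWe]
    exact ⟨huv ⟨hsu, hBv ht⟩, ⟨hx.1.trans hs.1.le, hs.2.le⟩, ht⟩
  exact this.1

theorem closed_part (h1 : S_Taut) {N n : ℕ} {I : Set (MvPolynomial (Fin N) ℂ)} {U : Set (Cn N)}
    {G : Set (Cn N → Cn N)} {K : Set (Cn N)} (hU : IsDom I n U) (hG : CoCpt U G K)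
    {D : Set (Cn n)} (hD : IsOpen D) (hUD : Biholo U D) {B : Set ℂ} {f : ℝ → ℂ → Cn n}
    (hB : IsOpen B) (hBc : IsPreconnected B) (hb : Bornology.IsBounded B)
    (hf : ContinuousOn (fun q : ℝ × ℂ => f q.1 q.2) (Icc (0 : ℝ) 1 ×ˢ closure B))
    (hd : ∀ s ∈ Icc (0 : ℝ) 1, DifferentiableOn ℂ (f s) B)
    (hfr : ∀ s ∈ Icc (0 : ℝ) 1, ∀ t ∈ frontier B, f s t ∈ D)
    (x : ℕ → ℝ) (s : ℝ) (hxI : ∀ j, x j ∈ Icc (0 : ℝ) 1) (hxX : ∀ j, ∀ t ∈ closure B, f (x j) t ∈ D)
    (hxs : Tendsto x atTop (𝓝 s)) : ∀ t ∈ closure B, f s t ∈ D := by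
  have hs : s ∈ Icc (0 : ℝ) 1 := isClosed_Icc.mem_of_tendsto hxs (Eventually.of_forall hxI)
  rcases B.eq_empty_or_nonempty with hBe | hne
  · intro t ht
    rw [hBe, closure_empty] at ht
    exact absurd ht (notMem_empty t)
  obtain ⟨f1, g1, hf1, hg1, hf1m, hg1m, hgf, hfg⟩ := hUD
  have hg1c : ContinuousOn g1 D := hg1.continuousOn
  have hf1c : ContinuousOn f1 U := hf1.continuousOn
  -- convergence at the points of the closure
  have hlim : ∀ t ∈ closure B, ∀ y : ℕ → ℝ, (∀ j, y j ∈ Icc (0 : ℝ) 1) → Tendsto y atTop (𝓝 s) →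
      Tendsto (fun j => f (y j) t) atTop (𝓝 (f s t)) := by
    intro t ht y hyI hys
    have hc := hf (s, t) ⟨hs, ht⟩
    have : Tendsto (fun j => (y j, t)) atTop (𝓝[Icc (0 : ℝ) 1 ×ˢ closure B] (s, t)) := by
      refine tendsto_nhdsWithin_iff.2 ⟨hys.prodMk_nhds tendsto_const_nhds, ?_⟩
      exact Eventually.of_forall fun j => ⟨hyI j, ht⟩
    exact hc.tendsto.comp this
  -- a point b of B with f s b in D
  obtain ⟨t0, ht0⟩ := exists_frontier hb hne
  have ht0c : t0 ∈ closure B := frontier_subset_closure ht0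
  have hfs : ContinuousOn (f s) (closure B) := by
    have : ContinuousOn (fun t : ℂ => ((s, t) : ℝ × ℂ)) (closure B) := by fun_prop
    exact hf.comp this (fun t ht => ⟨hs, ht⟩)
  have hbex : ∃ b ∈ B, f s b ∈ D := by
    have h2 : Tendsto (f s) (𝓝[B] t0) (𝓝 (f s t0)) :=
      (hfs t0 ht0c).mono_left (nhdsWithin_mono _ subset_closure)
    have h3 : ∀ᶠ t in 𝓝[B] t0, f s t ∈ D := h2 (hD.mem_nhds (hfr s hs t0 ht0))
    haveI : (𝓝[B] t0).NeBot := mem_closure_iff_nhdsWithin_neBot.1 ht0c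
    obtain ⟨b, hb1, hb2⟩ := (h3.and self_mem_nhdsWithin).exists
    exact ⟨b, hb2, hb1⟩
  obtain ⟨b, hbB, hbD⟩ := hbex
  obtain ⟨γ, hγG, hγ⟩ := hG.cov (g1 (f s b)) (hg1m hbD)
  obtain ⟨h, hhG, hhγ, hγh⟩ := hG.inv γ hγG
  have htb : Tendsto (fun j => g1 (f (x j) b)) atTop (𝓝 (g1 (f s b))) :=
    ((hg1c.continuousAt (hD.mem_nhds hbD)).tendsto).comp
      (hlim b (subset_closure hbB) x hxI hxs)
  obtain ⟨J, hJ⟩ := eventually_atTop.1 (htb.eventually hγ)
  let y : ℕ → ℝ := fun j => x (j + J)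
  have hyI : ∀ j, y j ∈ Icc (0 : ℝ) 1 := fun j => hxI _
  have hyX : ∀ j, ∀ t ∈ closure B, f (y j) t ∈ D := fun j => hxX _
  have hys : Tendsto y atTop (𝓝 s) := hxs.comp (tendsto_add_atTop_nat J)
  -- the discs
  let D' : Set (Cn 1) := {v | v 0 ∈ B}
  have hD'o : IsOpen D' := hB.preimage (continuous_apply 0)
  have hD'e : D' = (fun (t : ℂ) (_ : Fin 1) => t) '' B := by
    ext v
    constructor
    · intro hv
      refine ⟨v 0, hv, ?_⟩
      ext i
      rw [Subsingleton.elim i 0]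
    · rintro ⟨t, ht, rfl⟩
      exact ht
  have hD'c : IsPreconnected D' := by
    rw [hD'e]
    exact hBc.image _ (by fun_prop)
  let F : ℕ → Cn 1 → Cn N := fun j v => γ (g1 (f (y j) (v 0)))
  have hFd : ∀ j, DifferentiableOn ℂ (F j) D' := by
    intro j
    have e1 : DifferentiableOn ℂ (fun v : Cn 1 => f (y j) (v 0)) D' :=
      (hd (y j) (hyI j)).comp ((differentiable_apply 0).differentiableOn) (fun v hv => hv)
    have e2 : HolOn (fun v : Cn 1 => f (y j) (v 0)) D' := (holOn_iff hD'o).2 e1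
    have m1 : MapsTo (fun v : Cn 1 => f (y j) (v 0)) D' D := fun v hv =>
      hyX j (v 0) (subset_closure hv)
    have e3 : HolOn (fun v : Cn 1 => g1 (f (y j) (v 0))) D' := HolOn.comp hg1 e2 m1
    have m2 : MapsTo (fun v : Cn 1 => g1 (f (y j) (v 0))) D' U := fun v hv => hg1m (m1 hv)
    have e4 : HolOn (fun v : Cn 1 => γ (g1 (f (y j) (v 0)))) D' :=
      HolOn.comp (hG.hol γ hγG) e3 m2
    exact (holOn_iff hD'o).1 e4
  have hFm : ∀ j, MapsTo (F j) D' U := fun j v hv =>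
    hG.maps γ hγG (hg1m (hyX j (v 0) (subset_closure hv)))
  obtain ⟨φ, hφ, F', hF'd, hF'm, hF'u⟩ := h1 N n 1 I U G K hU hG D' (fun _ => b) hD'o hD'c hbB F
    (fun Q hQ _ => Eventually.of_forall fun j => ⟨D', hD'o, hQ, hFd j, hFm j⟩)
    (fun j => hJ (j + J) (Nat.le_add_left J j) (hg1m (hyX j b (subset_closure hbB))))
  intro t ht
  rw [closure_eq_self_union_frontier] at ht
  rcases ht with ht | ht
  swap
  · exact hfr s hs t ht
  have hvt : (fun _ => t : Cn 1) ∈ D' := ht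
  have hc1 : Tendsto (fun j => F (φ j) (fun _ => t)) atTop (𝓝 (F' (fun _ => t))) :=
    (hF'u {(fun _ => t : Cn 1)} (singleton_subset_iff.2 hvt) isCompact_singleton).tendsto_at
      (mem_singleton _)
  have hzU : F' (fun _ => t) ∈ U := hF'm hvt
  have hhc : ContinuousOn h U := (hG.hol h hhG).continuousOn
  have hc2 : Tendsto (fun j => h (F (φ j) (fun _ => t))) atTop (𝓝 (h (F' (fun _ => t)))) := by
    refine (hhc _ hzU).tendsto.comp (tendsto_nhdsWithin_iff.2 ⟨hc1, ?_⟩)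
    exact Eventually.of_forall fun j => hFm (φ j) hvt
  have hc3 : Tendsto (fun j => g1 (f (y (φ j)) t)) atTop (𝓝 (h (F' (fun _ => t)))) := by
    refine hc2.congr fun j => ?_
    exact hhγ _ (hg1m (hyX (φ j) t (subset_closure ht)))
  have hzU2 : h (F' (fun _ => t)) ∈ U := hG.maps h hhG hzU
  have hc4 : Tendsto (fun j => f1 (g1 (f (y (φ j)) t))) atTop
      (𝓝 (f1 (h (F' (fun _ => t))))) := by
    refine (hf1c _ hzU2).tendsto.comp (tendsto_nhdsWithin_iff.2 ⟨hc3, ?_⟩)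
    exact Eventually.of_forall fun j => hg1m (hyX (φ j) t (subset_closure ht))
  have hc5 : Tendsto (fun j => f (y (φ j)) t) atTop (𝓝 (f1 (h (F' (fun _ => t))))) := by
    refine hc4.congr fun j => ?_
    exact hfg _ (hyX (φ j) t (subset_closure ht))
  have hc6 : Tendsto (fun j => f (y (φ j)) t) atTop (𝓝 (f s t)) :=
    hlim t (subset_closure ht) (fun j => y (φ j)) (fun j => hyI _)
      (hys.comp hφ.tendsto_atTop)
  rw [tendsto_nhds_unique hc6 hc5]
  exact hf1m hzU2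

end KonAux

open KonAux in
theorem tKon (h1 : S_Taut) : S_Kon := by
  intro N n I U G K hU hG D hD hUD B f hB hBc hb hf hd hfr h0
  have hsub : Icc (0 : ℝ) 1 ⊆ {s : ℝ | ∀ t ∈ closure B, f s t ∈ D} := by
    refine IsClosed.Icc_subset_of_forall_mem_nhdsWithin ?_ h0 ?_
    · refine IsSeqClosed.isClosed ?_
      intro x s hx hxs
      refine ⟨?_, isClosed_Icc.mem_of_tendsto hxs (Eventually.of_forall fun j => (hx j).2)⟩
      exact closed_part h1 hU hG hD hUD hB hBc hb hf hd hfr x s (fun j => (hx j).2)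
        (fun j => (hx j).1) hxs
    · rintro x ⟨hx, hxI⟩
      exact open_part hD hb hf x hxI hx
  exact hsub ⟨zero_le_one, le_rfl⟩

end KVC
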