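import Pool.Agent.Lib.KV.SpecC

/-!
# KV (MP_64edc4_ag), block C, module LogK: log-concavity of the distance by holomorphic rectangles
-/

set_option autoImplicit false

open Set Filter Topology Metric

namespace KVC

open KP KVB KV

namespace LogKAux

/-- The height of the points of the family of discs. -/
private theorem hgt_f {m k : ℕ} (F : Fin k → Matrix (Fin m) (Fin m) ℂ) (a b u : Fin k → ℝ)
    (τ : ℝ) (ζ e : ℂ) :
    hgt F (mk (0 : Cn m) (Complex.I • ((1 - ζ) • cx a + ζ • cx b + ((τ : ℂ) * e) • cx u))) =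
      (1 - ζ.re) • a + ζ.re • b + (τ * e.re) • u := by
  have h0 : hf F (0 : Cn m) (0 : Cn m) = 0 := by
    ext j
    simp [hf]
  ext j
  simp only [hgt, wp_mk, zp_mk, h0]
  simp only [imv, rev, cx, Pi.sub_apply, Pi.add_apply, Pi.smul_apply, smul_eq_mul, Pi.zero_apply,
    Complex.zero_re, sub_zero]
  simp only [Complex.mul_im, Complex.I_re, Complex.I_im, Complex.add_re, Complex.add_im,
    Complex.ofReal_re, Complex.ofReal_im, Complex.mul_re, Complex.sub_re, Complex.sub_im,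
    Complex.one_re, Complex.one_im]
  ring

/-- The exponential factor. -/
private noncomputable def Ex (A B ε : ℝ) (ζ : ℂ) : ℂ :=
  Complex.exp ((1 - ζ) * (A : ℂ) + ζ * (B : ℂ) + (ε : ℂ) * (ζ ^ 2 - ζ))

private theorem diff_Ex (A B ε : ℝ) : Differentiable ℂ (Ex A B ε) := by
  unfold Ex
  fun_prop

private theorem norm_Ex (A B ε : ℝ) (ζ : ℂ) : ‖Ex A B ε ζ‖ =
    Real.exp ((1 - ζ.re) * A + ζ.re * B + ε * (ζ.re ^ 2 - ζ.im ^ 2 - ζ.re)) := by
  rw [Ex, Complex.norm_exp]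
  congr 1
  simp only [Complex.add_re, Complex.mul_re, Complex.sub_re, Complex.one_re, Complex.ofReal_re,
    Complex.sub_im, Complex.one_im, Complex.ofReal_im, pow_two]
  ring

private theorem isCompact_seg {k : ℕ} (a b : Fin k → ℝ) : IsCompact (segment ℝ a b) := by
  rw [segment_eq_image]
  exact isCompact_Icc.image (by fun_prop)

end LogKAux

open LogKAux

theorem tLogK : S_LogK := by
  intro m k F Om hO hK a b hseg α β hα hβ hba hbb s hs v hv
  obtain ⟨hs0, hs1⟩ := hs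
  set c : Fin k → ℝ := (1 - s) • a + s • b with hc
  have hcs : ∀ x ∈ Icc (0 : ℝ) 1, (1 - x) • a + x • b ∈ segment ℝ a b := fun x hx =>
    ⟨1 - x, x, by linarith [hx.2], hx.1, by ring, rfl⟩
  have hcO : c ∈ Om := hseg (hcs s ⟨hs0, hs1⟩)
  rcases eq_or_ne v c with hvc | hvc
  · rw [hvc]; exact hcO
  set u : Fin k → ℝ := v - c with hu
  have hρ0 : 0 < ‖u‖ := norm_pos_iff.2 (sub_ne_zero.2 hvc)
  set ρ : ℝ := ‖u‖ with hρ
  have hρ1 : ρ < α ^ (1 - s) * β ^ s := by
    rw [mem_ball, dist_eq_norm] at hv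
    exact hv
  have hlog : Real.log ρ < (1 - s) * Real.log α + s * Real.log β := by
    have h1 := Real.log_lt_log hρ0 hρ1
    rwa [Real.log_mul (Real.rpow_pos_of_pos hα _).ne' (Real.rpow_pos_of_pos hβ _).ne',
      Real.log_rpow hα, Real.log_rpow hβ] at h1
  obtain ⟨ε, hε⟩ : ∃ ε : ℝ, ε = (1 - s) * Real.log α + s * Real.log β - Real.log ρ := ⟨_, rfl⟩
  have hε0 : 0 < ε := by rw [hε]; linarith
  obtain ⟨κ, hκ⟩ : ∃ κ : ℝ, κ = ε - ε * (s * (1 - s)) := ⟨_, rfl⟩
  have hκ0 : 0 < κ := by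
    have h1 : s * (1 - s) < 1 := by nlinarith
    rw [hκ]; nlinarith
  obtain ⟨A, hA⟩ : ∃ A : ℝ, A = Real.log α - Real.log ρ - κ := ⟨_, rfl⟩
  obtain ⟨B, hB⟩ : ∃ B : ℝ, B = Real.log β - Real.log ρ - κ := ⟨_, rfl⟩
  have hAB : (1 - s) * A + s * B + ε * (s ^ 2 - s) = 0 := by
    rw [hA, hB, hκ, hε]; ring
  have hAρ : Real.exp A * ρ < α := by
    have h1 : Real.exp A * ρ = Real.exp (Real.log α - κ) := by
      have h2 : Real.log α - κ = A + Real.log ρ := by rw [hA]; ring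
      rw [h2, Real.exp_add, Real.exp_log hρ0]
    rw [h1]
    calc Real.exp (Real.log α - κ) < Real.exp (Real.log α) := Real.exp_lt_exp.2 (by linarith)
      _ = α := Real.exp_log hα
  have hBρ : Real.exp B * ρ < β := by
    have h1 : Real.exp B * ρ = Real.exp (Real.log β - κ) := by
      have h2 : Real.log β - κ = B + Real.log ρ := by rw [hB]; ring
      rw [h2, Real.exp_add, Real.exp_log hρ0]
    rw [h1]
    calc Real.exp (Real.log β - κ) < Real.exp (Real.log β) := Real.exp_lt_exp.2 (by linarith)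
      _ = β := Real.exp_log hβ
  obtain ⟨δ, hδ, hδO⟩ := (isCompact_seg a b).exists_thickening_subset_open hO hseg
  obtain ⟨T, hT⟩ : ∃ T : ℝ, T = max A B + Real.log ρ - Real.log δ := ⟨_, rfl⟩
  obtain ⟨L, hL⟩ : ∃ L : ℝ, L = 1 + |T| / ε := ⟨_, rfl⟩
  have hL1 : 1 ≤ L := by
    rw [hL]
    have : 0 ≤ |T| / ε := by positivity
    linarith
  have hL2 : T < ε * L ^ 2 := by
    have h1 : ε * L = ε + |T| := by rw [hL]; field_simp
    have h2 : ε * L ≤ ε * L ^ 2 := by
      have : L ≤ L ^ 2 := by nlinarith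
      exact mul_le_mul_of_nonneg_left this hε0.le
    have h3 := le_abs_self T
    linarith
  have hLδ : Real.exp (max A B - ε * L ^ 2) * ρ < δ := by
    have h1 : Real.exp (max A B - ε * L ^ 2) * ρ =
        Real.exp (max A B - ε * L ^ 2 + Real.log ρ) := by
      rw [Real.exp_add, Real.exp_log hρ0]
    rw [h1]
    calc Real.exp (max A B - ε * L ^ 2 + Real.log ρ) < Real.exp (Real.log δ) :=
          Real.exp_lt_exp.2 (by rw [hT] at hL2; linarith)
      _ = δ := Real.exp_log hδ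
  -- the rectangle
  have hLp : -L < L := by linarith
  have hcl : closure (Ioo (0 : ℝ) 1 ×ℂ Ioo (-L) L) = Icc (0 : ℝ) 1 ×ℂ Icc (-L) L := by
    rw [Complex.closure_reProdIm, closure_Ioo zero_ne_one, closure_Ioo hLp.ne]
  have hfr : ∀ ζ ∈ frontier (Ioo (0 : ℝ) 1 ×ℂ Ioo (-L) L), (ζ.re = 0 ∨ ζ.re = 1 ∨ ζ.im ^ 2 = L ^ 2) ∧
      ζ.re ∈ Icc (0 : ℝ) 1 := by
    intro ζ hζ
    rw [Complex.frontier_reProdIm, closure_Ioo zero_ne_one, closure_Ioo hLp.ne,
      frontier_Ioo one_pos, frontier_Ioo hLp] at hζ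
    rcases hζ with hζ | hζ
    · rw [Complex.mem_reProdIm] at hζ
      refine ⟨Or.inr (Or.inr ?_), hζ.1⟩
      rcases hζ.2 with h | h
      · rw [h]; ring
      · rw [mem_singleton_iff] at h
        rw [h]
    · rw [Complex.mem_reProdIm] at hζ
      rcases hζ.1 with h | h
      · exact ⟨Or.inl h, by rw [h]; exact ⟨le_rfl, zero_le_one⟩⟩
      · rw [mem_singleton_iff] at h
        exact ⟨Or.inr (Or.inl h), by rw [h]; exact ⟨zero_le_one, le_rfl⟩⟩
  have hbd : ∀ (τ : ℝ) (ζ : ℂ), τ ∈ Icc (0 : ℝ) 1 → ∀ X : ℝ,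
      (1 - ζ.re) * A + ζ.re * B + ε * (ζ.re ^ 2 - ζ.im ^ 2 - ζ.re) ≤ X →
      ‖(τ * (Ex A B ε ζ).re) • u‖ ≤ Real.exp X * ρ := by
    intro τ ζ hτ X hX
    rw [norm_smul, Real.norm_eq_abs, abs_mul, abs_of_nonneg hτ.1]
    refine mul_le_mul_of_nonneg_right ?_ hρ0.le
    calc τ * |(Ex A B ε ζ).re| ≤ 1 * ‖Ex A B ε ζ‖ :=
          mul_le_mul hτ.2 (Complex.abs_re_le_norm _) (abs_nonneg _) zero_le_one
      _ = ‖Ex A B ε ζ‖ := one_mul _
      _ ≤ Real.exp X := by rw [norm_Ex]; exact Real.exp_le_exp.2 hX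
  have key := hK (Ioo (0 : ℝ) 1 ×ℂ Ioo (-L) L)
    (fun τ ζ => mk (0 : Cn m)
      (Complex.I • ((1 - ζ) • cx a + ζ • cx b + ((τ : ℂ) * Ex A B ε ζ) • cx u)))
    (isOpen_Ioo.reProdIm isOpen_Ioo) ?_ ?_ ?_ ?_ ?_ ?_ (s : ℂ) ?_
  · have h1 := mem_SDn.1 key
    rw [hgt_f] at h1
    have h2 : Ex A B ε (s : ℂ) = 1 := by
      rw [Ex]
      have : (1 - (s : ℂ)) * (A : ℂ) + (s : ℂ) * (B : ℂ) + (ε : ℂ) * ((s : ℂ) ^ 2 - (s : ℂ)) =
          (((1 - s) * A + s * B + ε * (s ^ 2 - s) : ℝ) : ℂ) := by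
        push_cast; ring
      rw [this, hAB, Complex.ofReal_zero, Complex.exp_zero]
    rw [h2, Complex.ofReal_re, Complex.one_re, one_mul, one_smul] at h1
    have h3 : (1 - s) • a + s • b + u = v := by rw [← hc, hu]; abel
    rwa [h3] at h1
  · refine Convex.isPreconnected ?_
    have h1 : (Ioo (0 : ℝ) 1 ×ℂ Ioo (-L) L : Set ℂ) =
        Complex.reLm ⁻¹' (Ioo (0 : ℝ) 1) ∩ Complex.imLm ⁻¹' (Ioo (-L) L) := by
      ext ζ
      simp [Complex.mem_reProdIm]
    rw [h1]
    exact ((convex_Ioo (0 : ℝ) 1).linear_preimage _).inter ((convex_Ioo (-L) L).linear_preimage _)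
  · exact (isBounded_Ioo 0 1).reProdIm (isBounded_Ioo (-L) L)
  · refine Continuous.continuousOn ?_
    have c0 : Continuous (fun q : ℝ × ℂ => Ex A B ε q.2) :=
      (diff_Ex A B ε).continuous.comp continuous_snd
    have c2 : Continuous (fun q : ℝ × ℂ =>
        Complex.I • ((1 - q.2) • cx a + q.2 • cx b + ((q.1 : ℂ) * Ex A B ε q.2) • cx u)) :=
      ((((continuous_const.sub continuous_snd).smul continuous_const).add
        (continuous_snd.smul continuous_const)).add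
          (((Complex.continuous_ofReal.comp continuous_fst).mul c0).smul
            continuous_const)).const_smul Complex.I
    exact continuous_mk.comp ((continuous_const (y := (0 : Cn m))).prodMk c2)
  · intro τ _
    refine Differentiable.differentiableOn ?_
    refine differentiable_mk (differentiable_const _) ?_
    refine Differentiable.const_smul ?_ Complex.I
    refine Differentiable.add (Differentiable.add ?_ ?_) ?_
    · exact ((differentiable_const (1 : ℂ)).sub differentiable_id).smul_const _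
    · exact differentiable_id.smul_const _
    · exact ((diff_Ex A B ε).const_mul _).smul_const _
  · intro τ hτ ζ hζ
    refine mem_SDn.2 ?_
    rw [hgt_f]
    obtain ⟨h1, h2⟩ := hfr ζ hζ
    have hx : ζ.re ^ 2 - ζ.re ≤ 0 := by nlinarith [h2.1, h2.2]
    rcases h1 with h1 | h1 | h1
    · refine hba ?_
      rw [mem_ball, dist_eq_norm]
      have h3 : (1 - ζ.re) • a + ζ.re • b + (τ * (Ex A B ε ζ).re) • u - a =
          (τ * (Ex A B ε ζ).re) • u := by
        rw [h1]; simp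
      rw [h3]
      refine lt_of_le_of_lt (hbd τ ζ hτ A ?_) hAρ
      rw [h1]
      nlinarith [mul_nonneg hε0.le (sq_nonneg ζ.im)]
    · refine hbb ?_
      rw [mem_ball, dist_eq_norm]
      have h3 : (1 - ζ.re) • a + ζ.re • b + (τ * (Ex A B ε ζ).re) • u - b =
          (τ * (Ex A B ε ζ).re) • u := by
        rw [h1]; simp
      rw [h3]
      refine lt_of_le_of_lt (hbd τ ζ hτ B ?_) hBρ
      rw [h1]
      nlinarith [mul_nonneg hε0.le (sq_nonneg ζ.im)]
    · refine hδO (mem_thickening_iff.2 ⟨(1 - ζ.re) • a + ζ.re • b, hcs _ h2, ?_⟩)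
      rw [dist_eq_norm, add_sub_cancel_left]
      refine lt_of_le_of_lt (hbd τ ζ hτ (max A B - ε * L ^ 2) ?_) hLδ
      rw [h1]
      have h4 : (1 - ζ.re) * A ≤ (1 - ζ.re) * max A B :=
        mul_le_mul_of_nonneg_left (le_max_left _ _) (by linarith [h2.2])
      have h5 : ζ.re * B ≤ ζ.re * max A B := mul_le_mul_of_nonneg_left (le_max_right _ _) h2.1
      have h6 : ε * (ζ.re ^ 2 - ζ.re) ≤ 0 := mul_nonpos_of_nonneg_of_nonpos hε0.le hx
      nlinarith
  · intro ζ hζ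
    rw [hcl, Complex.mem_reProdIm] at hζ
    refine mem_SDn.2 ?_
    rw [hgt_f, zero_mul, zero_smul, add_zero]
    exact hseg (hcs _ hζ.1)
  · rw [hcl, Complex.mem_reProdIm, Complex.ofReal_re, Complex.ofReal_im]
    exact ⟨⟨hs0, hs1⟩, by constructor <;> linarith⟩

end KVC
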