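import Pool.Agent.Lib.KV.SpecC

/-!
# KV (MP_64edc4_ag), block C, module OmO: the cone of the inner directions
-/

set_option autoImplicit false

open Set Filter Topology Metric

namespace KVC

open KP KVB KV

theorem tOmO : S_OmO := by
  intro m k A O h hL c hc
  refine ⟨?_, ?_, ?_⟩
  · rw [Metric.isOpen_iff]
    rintro v ⟨d, hd, hv⟩
    refine ⟨d / 2, by positivity, fun v' hv' => ⟨d / 2, by positivity, fun x hx t ht y hy => ?_⟩⟩
    refine hv x (ball_subset_ball (by linarith) hx) t ⟨ht.1, by linarith [ht.2]⟩ y ?_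
    rw [mem_ball] at hy hv' ⊢
    calc dist y v ≤ dist y v' + dist v' v := dist_triangle _ _ _
      _ < d := by linarith
  · obtain ⟨y0, δ, hδ, h1⟩ := hL.wedge c hc
    exact ⟨y0, δ, hδ, h1⟩
  · rintro v ⟨d, hd, hv⟩ s hs
    refine ⟨min d (min (d / s) (d * s)), by positivity, fun x hx t ht y hy => ?_⟩
    have h1 : min d (min (d / s) (d * s)) ≤ d := min_le_left _ _
    have h2 : min d (min (d / s) (d * s)) ≤ d / s :=
      (min_le_right _ _).trans (min_le_left _ _)
    have h3 : min d (min (d / s) (d * s)) ≤ d * s :=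
      (min_le_right _ _).trans (min_le_right _ _)
    have e : t • y = (t * s) • (s⁻¹ • y) := by
      rw [smul_smul, mul_assoc, mul_inv_cancel₀ hs.ne', mul_one]
    rw [e]
    refine hv x (ball_subset_ball h1 hx) (t * s) ⟨mul_pos ht.1 hs, ?_⟩ _ ?_
    · calc t * s < d / s * s := mul_lt_mul_of_pos_right (lt_of_lt_of_le ht.2 h2) hs
        _ = d := div_mul_cancel₀ d hs.ne'
    · rw [mem_ball, dist_eq_norm] at hy ⊢
      have e2 : s⁻¹ • y - v = s⁻¹ • (y - s • v) := by
        rw [smul_sub, smul_smul, inv_mul_cancel₀ hs.ne', one_smul]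
      rw [e2, norm_smul, Real.norm_eq_abs, abs_of_pos (inv_pos.2 hs), inv_mul_lt_iff₀ hs]
      have e3 : ‖y - s • v‖ < d * s := lt_of_lt_of_le hy h3
      linarith

end KVC
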