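import Pool.Agent.Lib.KV.SpecC

/-!
# KV (MP_64edc4_ag), block C, module PsdK: `F(z, z)` is in the closure of the cone
-/

set_option autoImplicit false

open Set Filter Topology Metric

namespace KVC

open KP KVB KV

private theorem psdK_hgt {m k : ℕ} (F : Fin k → Matrix (Fin m) (Fin m) ℂ) (z : Cn m)
    (y : Fin k → ℝ) (s : ℝ) (ζ : ℂ) :
    hgt F (mk (((s : ℂ) * ζ) • z) (Complex.I • (cx y + ((s : ℂ) ^ 2) • hf F z z))) =
      y + (s ^ 2 - s ^ 2 * ‖ζ‖ ^ 2) • rev (hf F z z) := by
  have h1 : hf F (((s : ℂ) * ζ) • z) (((s : ℂ) * ζ) • z) =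
      (((s ^ 2 * ‖ζ‖ ^ 2 : ℝ)) : ℂ) • hf F z z := by
    rw [hf_smul_left, hf_smul_right, smul_smul]
    congr 1
    rw [Complex.mul_conj, map_mul, Complex.normSq_ofReal, Complex.normSq_eq_norm_sq]
    push_cast
    ring
  ext j
  simp only [hgt, wp_mk, zp_mk, h1]
  simp only [imv, rev, cx, Pi.sub_apply, Pi.add_apply, Pi.smul_apply, smul_eq_mul]
  rw [← Complex.ofReal_pow]
  simp only [Complex.mul_im, Complex.I_re, Complex.I_im, Complex.add_re, Complex.add_im,
    Complex.ofReal_re, Complex.ofReal_im, Complex.mul_re]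
  ring

theorem tPsdK : S_PsdK := by
  intro m k F Om _ hne hcone hK z
  have key : ∀ y ∈ Om, y + rev (hf F z z) ∈ Om := by
    intro y hy
    have h := hK (ball 0 1)
      (fun s ζ => mk (((s : ℂ) * ζ) • z) (Complex.I • (cx y + ((s : ℂ) ^ 2) • hf F z z)))
      isOpen_ball (convex_ball _ _).isPreconnected isBounded_ball ?_ ?_ ?_ ?_ 0
      (subset_closure (mem_ball_self one_pos))
    · have h2 := mem_SDn.1 h
      rw [psdK_hgt] at h2
      simpa using h2
    · refine Continuous.continuousOn ?_
      have c1 : Continuous (fun q : ℝ × ℂ => ((q.1 : ℂ) * q.2) • z) :=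
        ((Complex.continuous_ofReal.comp continuous_fst).mul continuous_snd).smul
          continuous_const
      have c2 : Continuous (fun q : ℝ × ℂ =>
          Complex.I • (cx y + ((q.1 : ℂ) ^ 2) • hf F z z)) :=
        (continuous_const.add (((Complex.continuous_ofReal.comp continuous_fst).pow 2).smul
          continuous_const)).const_smul Complex.I
      exact continuous_mk.comp (c1.prodMk c2)
    · intro s _
      refine Differentiable.differentiableOn ?_
      exact differentiable_mk (((differentiable_id.const_mul _).smul_const z))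
        (differentiable_const _)
    · intro s _ ζ hζ
      refine mem_SDn.2 ?_
      rw [psdK_hgt]
      have h3 : ‖ζ‖ = 1 := by
        rw [frontier_ball (0 : ℂ) one_ne_zero] at hζ
        simpa using hζ
      rw [h3]
      simpa using hy
    · intro ζ _
      refine mem_SDn.2 ?_
      rw [psdK_hgt]
      simpa using hy
  obtain ⟨y, hy⟩ := hne
  have h1 : Tendsto (fun n : ℕ => (1 / ((n : ℝ) + 1)) • y + rev (hf F z z)) atTop
      (𝓝 ((0 : ℝ) • y + rev (hf F z z))) :=
    (tendsto_one_div_add_atTop_nhds_zero_nat.smul_const y).add_const _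
  rw [zero_smul, zero_add] at h1
  refine mem_closure_of_tendsto h1 (Eventually.of_forall fun n => ?_)
  exact key _ (hcone y hy _ (by positivity))

end KVC
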