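import Pool.Agent.Lib.KV.SpecC

/-!
# KV block C: QF, hermitian and holomorphic part of a vector valued real quadratic form
-/

set_option autoImplicit false

open Set Filter Topology Metric

namespace KVC

open KP KVB KV

namespace QFAux

theorem smul_dec {n : ℕ} (c : ℂ) (u : Cn n) :
    c • u = c.re • u + c.im • (Complex.I • u) := by
  ext i
  simp only [Pi.add_apply, Pi.smul_apply, smul_eq_mul, Complex.real_smul]
  rw [← mul_assoc, ← add_mul, Complex.re_add_im]

theorem I_smul_dec {n : ℕ} (c : ℂ) (u : Cn n) :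
    Complex.I • (c • u) = c.re • (Complex.I • u) + (-c.im) • u := by
  rw [smul_comm, smul_dec c (Complex.I • u), smul_smul Complex.I Complex.I u, Complex.I_mul_I]
  simp

theorem I_add {n : ℕ} (u v : Cn n) :
    Complex.I • (u + v) = Complex.I • u + Complex.I • v := smul_add _ _ _

/-- Expansion of a complex linear function. -/
theorem exp1 {n : ℕ} (f : Cn n → ℂ) (h1 : ∀ u v, f (u + v) = f u + f v)
    (h2 : ∀ (c : ℂ) (u : Cn n), f (c • u) = c * f u) (u : Cn n) :
    f u = ∑ a, u a * f (Pi.single a 1) := by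
  let g : Cn n →ₗ[ℂ] ℂ :=
    { toFun := f
      map_add' := h1
      map_smul' := by
        intro c x
        simpa using h2 c x }
  have := LinearMap.pi_apply_eq_sum_univ g u
  calc f u = g u := rfl
    _ = ∑ i, u i • g (fun j => if i = j then 1 else 0) := this
    _ = ∑ a, u a * f (Pi.single a 1) := by
      refine Finset.sum_congr rfl fun a _ => ?_
      have e : (fun j => if a = j then (1 : ℂ) else 0) = Pi.single a 1 := by
        ext j
        by_cases hj : a = j
        · subst hj; simp
        · simp [hj, Ne.symm hj]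
      rw [e, smul_eq_mul]
      rfl

/-- The hermitian form with the values `(S u u + S (I u) (I u)) / 2` on the diagonal. -/
noncomputable def H {n : ℕ} (S : Cn n →L[ℝ] Cn n →L[ℝ] ℝ) (u v : Cn n) : ℂ :=
  ⟨(S u v + S (Complex.I • u) (Complex.I • v)) / 2,
    (S u (Complex.I • v) - S (Complex.I • u) v) / 2⟩

theorem H_conj {n : ℕ} (S : Cn n →L[ℝ] Cn n →L[ℝ] ℝ) (hS : ∀ u v, S u v = S v u) (u v : Cn n) :
    H S v u = (starRingEnd ℂ) (H S u v) := by
  apply Complex.ext
  · simp only [H, Complex.conj_re]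
    rw [hS u v, hS (Complex.I • u) (Complex.I • v)]
  · simp only [H, Complex.conj_im]
    rw [hS u (Complex.I • v), hS (Complex.I • u) v]
    ring

theorem H_add {n : ℕ} (S : Cn n →L[ℝ] Cn n →L[ℝ] ℝ) (u v w : Cn n) :
    H S (u + v) w = H S u w + H S v w := by
  apply Complex.ext
  · simp only [H, I_add, map_add, ContinuousLinearMap.add_apply, Complex.add_re]
    ring
  · simp only [H, I_add, map_add, ContinuousLinearMap.add_apply, Complex.add_im]
    ring

theorem H_smul {n : ℕ} (S : Cn n →L[ℝ] Cn n →L[ℝ] ℝ) (c : ℂ) (u w : Cn n) :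
    H S (c • u) w = c * H S u w := by
  apply Complex.ext
  · simp only [H, Complex.mul_re]
    rw [I_smul_dec, smul_dec c u]
    simp only [map_add, ContinuousLinearMap.add_apply, map_smul,
      ContinuousLinearMap.smul_apply, smul_eq_mul]
    ring
  · simp only [H, Complex.mul_im]
    rw [I_smul_dec, smul_dec c u]
    simp only [map_add, ContinuousLinearMap.add_apply, map_smul,
      ContinuousLinearMap.smul_apply, smul_eq_mul]
    ring

theorem H_exp {n : ℕ} (S : Cn n →L[ℝ] Cn n →L[ℝ] ℝ) (hS : ∀ u v, S u v = S v u) (u : Cn n) :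
    H S u u = ∑ a, ∑ b, H S (Pi.single a 1) (Pi.single b 1) * u a * (starRingEnd ℂ) (u b) := by
  rw [exp1 (fun v => H S v u) (fun v w => H_add S v w u) (fun c v => H_smul S c v u) u]
  refine Finset.sum_congr rfl fun a _ => ?_
  rw [H_conj S hS u (Pi.single a 1), exp1 (fun v => H S v (Pi.single a 1))
    (fun v w => H_add S v w _) (fun c v => H_smul S c v _) u, map_sum, Finset.mul_sum]
  refine Finset.sum_congr rfl fun b _ => ?_
  rw [map_mul, ← H_conj S hS]
  ring

end QFAux

open QFAux in
theorem tQF (h1 : S_QF1) : S_QF := by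
  intro m k S hS
  let Sj : Fin k → Cn m →L[ℝ] Cn m →L[ℝ] ℝ := fun j =>
    (ContinuousLinearMap.compL ℝ (Cn m) (Fin k → ℝ) ℝ (ContinuousLinearMap.proj j)).comp S
  have hSj : ∀ j u v, Sj j u v = S u v j := fun j u v => rfl
  have hsym : ∀ j u v, Sj j u v = Sj j v u := fun j u v => by rw [hSj, hSj, hS u v]
  choose Q hQ using fun j => h1 m (Sj j) (hsym j)
  refine ⟨fun j a b => H (Sj j) (Pi.single a 1) (Pi.single b 1), Q,
    fun j a b => H_conj (Sj j) (hsym j) _ _, fun z => ?_⟩
  ext j
  have e1 := hQ j z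
  have e2 := congrArg Complex.re (H_exp (Sj j) (hsym j) z)
  rw [hSj] at e1
  rw [e1]
  simp only [Pi.add_apply, rev, hf, hq]
  rw [← e2]
  simp only [H, hSj]

end KVC
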