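import Pool.Agent.Lib.KV.SpecC

/-!
# KV block C: QF1, the holomorphic part of a real quadratic form
-/

set_option autoImplicit false

open Set Filter Topology Metric

namespace KVC

open KP KVB KV

namespace QF1Aux

theorem smul_dec {n : ℕ} (c : ℂ) (u : Cn n) :
    c • u = c.re • u + c.im • (Complex.I • u) := by
  ext i
  simp only [Pi.add_apply, Pi.smul_apply, smul_eq_mul, Complex.real_smul]
  rw [← mul_assoc, ← add_mul, Complex.re_add_im]

theorem I_smul_dec {n : ℕ} (c : ℂ) (u : Cn n) :
    Complex.I • (c • u) = c.re • (Complex.I • u) + (-c.im) • u := by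
  rw [smul_comm, smul_dec c (Complex.I • u), smul_smul Complex.I Complex.I u, Complex.I_mul_I]
  simp

theorem I_add {n : ℕ} (u v : Cn n) :
    Complex.I • (u + v) = Complex.I • u + Complex.I • v := smul_add _ _ _

/-- Expansion of a complex linear function. -/
theorem exp1 {n : ℕ} (f : Cn n → ℂ) (h1 : ∀ u v, f (u + v) = f u + f v)
    (h2 : ∀ (c : ℂ) (u : Cn n), f (c • u) = c * f u) (u : Cn n) :
    f u = ∑ a, u a * f (Pi.single a 1) := by
  let g : Cn n →ₗ[ℂ] ℂ :=
    { toFun := f
      map_add' := h1
      map_smul' := by
        intro c x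
        simpa using h2 c x }
  have := LinearMap.pi_apply_eq_sum_univ g u
  calc f u = g u := rfl
    _ = ∑ i, u i • g (fun j => if i = j then 1 else 0) := this
    _ = ∑ a, u a * f (Pi.single a 1) := by
      refine Finset.sum_congr rfl fun a _ => ?_
      have e : (fun j => if a = j then (1 : ℂ) else 0) = Pi.single a 1 := by
        ext j
        by_cases hj : a = j
        · subst hj; simp
        · simp [hj, Ne.symm hj]
      rw [e, smul_eq_mul]
      rfl

/-- The symmetric complex bilinear form with the real part `(S u v - S (I u) (I v)) / 2`. -/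
noncomputable def T {n : ℕ} (S : Cn n →L[ℝ] Cn n →L[ℝ] ℝ) (u v : Cn n) : ℂ :=
  ⟨(S u v - S (Complex.I • u) (Complex.I • v)) / 2,
    -((S u (Complex.I • v) + S (Complex.I • u) v) / 2)⟩

end QF1Aux

open QF1Aux in
theorem tQF1 : S_QF1 := by
  intro n S hS
  have symm : ∀ u v, T S u v = T S v u := by
    intro u v
    apply Complex.ext
    · simp only [T]
      rw [hS u v, hS (Complex.I • u) (Complex.I • v)]
    · simp only [T]
      rw [hS u (Complex.I • v), hS (Complex.I • u) v, add_comm]
  have add : ∀ u v w, T S (u + v) w = T S u w + T S v w := by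
    intro u v w
    apply Complex.ext
    · simp only [T, I_add, map_add, ContinuousLinearMap.add_apply, Complex.add_re]
      ring
    · simp only [T, I_add, map_add, ContinuousLinearMap.add_apply, Complex.add_im]
      ring
  have sm : ∀ (c : ℂ) (u w : Cn n), T S (c • u) w = c * T S u w := by
    intro c u w
    apply Complex.ext
    · simp only [T, Complex.mul_re]
      rw [I_smul_dec, smul_dec c u]
      simp only [map_add, ContinuousLinearMap.add_apply, map_smul,
        ContinuousLinearMap.smul_apply, smul_eq_mul]
      ring
    · simp only [T, Complex.mul_im]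
      rw [I_smul_dec, smul_dec c u]
      simp only [map_add, ContinuousLinearMap.add_apply, map_smul,
        ContinuousLinearMap.smul_apply, smul_eq_mul]
      ring
  refine ⟨fun a b => T S (Pi.single a 1) (Pi.single b 1), fun v => ?_⟩
  have key : T S v v = ∑ a, ∑ b, T S (Pi.single a 1) (Pi.single b 1) * v a * v b := by
    rw [exp1 (fun u => T S u v) (fun u w => add u w v) (fun c u => sm c u v) v]
    refine Finset.sum_congr rfl fun a _ => ?_
    rw [symm, exp1 (fun u => T S u (Pi.single a 1)) (fun u w => add u w _)
      (fun c u => sm c u _) v, Finset.mul_sum]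
    refine Finset.sum_congr rfl fun b _ => ?_
    rw [symm (Pi.single b 1)]
    ring
  rw [← key]
  simp only [T]
  ring

end KVC
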