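import Pool.Agent.Lib.KV.SpecC

/-!
# KV, block C, QIFT: the quantitative inverse function theorem
-/

set_option autoImplicit false

open Set Filter Topology Metric

namespace KVC

open KP KVB KV

namespace QIFTAux

theorem lim0 {n N : ℕ} {O : Set (Cn n)} (hO : IsOpen O) {g : ℕ → Cn n → Cn N}
    {h : Cn n → Cn N} (hg : ∀ j, DifferentiableOn ℂ (g j) O)
    (hgh : TendstoUniformlyOn g h atTop O) : DifferentiableOn ℂ h O := by
  intro z hz
  obtain ⟨R', hR', hRO⟩ := Metric.isOpen_iff.mp hO z hz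
  set R : ℝ := R' / 2 with hR
  have hRpos : 0 < R := by positivity
  have hsub : ∀ y ∈ ball z R, ball y R ⊆ O := by
    intro y hy
    refine Subset.trans (ball_subset_ball' ?_) hRO
    rw [mem_ball] at hy
    linarith
  have hyO : ∀ y ∈ ball z R, y ∈ O := fun y hy => hsub y hy (mem_ball_self hRpos)
  have hC : UniformCauchySeqOn (fun j => fderiv ℂ (g j)) atTop (ball z R) := by
    rw [Metric.uniformCauchySeqOn_iff]
    intro ε hε
    have hc := hgh.uniformCauchySeqOn
    rw [Metric.uniformCauchySeqOn_iff] at hc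
    obtain ⟨k, hk⟩ := hc (ε * R / 2) (by positivity)
    refine ⟨k, fun a ha b hb y hy => ?_⟩
    have h1 : DifferentiableOn ℂ (fun w => g a w - g b w) (ball y R) :=
      ((hg a).mono (hsub y hy)).sub ((hg b).mono (hsub y hy))
    have h2 := Pool.Agent.Lib.Osgood.norm_fderiv_le (M := ε * R / 2) hRpos h1 (fun w hw => by
      have := (hk a ha b hb w (hsub y hy hw)).le
      rwa [dist_eq_norm] at this)
    have h3 : fderiv ℂ (fun w => g a w - g b w) y = fderiv ℂ (g a) y - fderiv ℂ (g b) y :=
      fderiv_fun_sub ((hg a).differentiableAt (hO.mem_nhds (hyO y hy)))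
        ((hg b).differentiableAt (hO.mem_nhds (hyO y hy)))
    rw [h3] at h2
    rw [dist_eq_norm]
    refine lt_of_le_of_lt h2 ?_
    have : ε * R / 2 / R = ε / 2 := by field_simp
    rw [this]
    linarith
  have hlim : ∀ y ∈ ball z R, ∃ L : Cn n →L[ℂ] Cn N,
      Tendsto (fun j => fderiv ℂ (g j) y) atTop (𝓝 L) := fun y hy =>
    cauchySeq_tendsto_of_complete (hC.cauchySeq hy)
  choose! L hL using hlim
  have hU := hC.tendstoUniformlyOn_of_tendsto hL
  exact (hasFDerivAt_of_tendstoUniformlyOn isOpen_ball hU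
    (fun j y hy => ((hg j).differentiableAt (hO.mem_nhds (hyO y hy))).hasFDerivAt)
    (fun y hy => hgh.tendsto_at (hyO y hy)) (mem_ball_self hRpos)).differentiableAt.differentiableWithinAt

theorem lim1 {n N : ℕ} {O : Set (Cn n)} (hO : IsOpen O) {g : ℕ → Cn n → Cn N}
    {h : Cn n → Cn N} (hg : ∀ᶠ j in atTop, DifferentiableOn ℂ (g j) O)
    (hgh : TendstoUniformlyOn g h atTop O) : DifferentiableOn ℂ h O := by
  obtain ⟨k, hk⟩ := eventually_atTop.1 hg
  refine lim0 hO (g := fun j => g (j + k)) (fun j => hk (j + k) (by omega)) ?_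
  intro u hu
  exact (tendsto_add_atTop_nat k).eventually (hgh u hu)

end QIFTAux

open QIFTAux

/-- **QIFT.** -/
theorem tQIFT : S_QIFT := by
  intro n w0 r H H' hr hH hu hdet
  rcases Nat.eq_zero_or_pos n with rfl | hn
  · refine ⟨1, one_pos, Eventually.of_forall fun j y _ => ⟨w0, mem_ball_self hr, ?_⟩⟩
    exact Subsingleton.elim _ _
  have : Nonempty (Fin n) := ⟨⟨0, hn⟩⟩
  have : Nontrivial (Cn n) := Function.nontrivial
  have hH' : DifferentiableOn ℂ H' (ball w0 r) := lim1 isOpen_ball hH hu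
  set L := fderiv ℂ H' w0 with hL
  set e := L.toContinuousLinearEquivOfDetNeZero hdet with he
  have heL : (e : Cn n →L[ℂ] Cn n) = L := ContinuousLinearMap.coe_toContinuousLinearEquivOfDetNeZero _ _
  set K : NNReal := ‖(e.symm : Cn n →L[ℂ] Cn n)‖₊ with hK
  have hKpos : 0 < K := e.nnnorm_symm_pos
  set c : NNReal := K⁻¹ / 2 with hc
  have hcpos : (0 : ℝ) < c := by
    rw [hc]
    push_cast
    have : (0 : ℝ) < K := by exact_mod_cast hKpos
    positivity
  -- continuity of the derivative of the limit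
  have hcont := Pool.Agent.Lib.Osgood.continuousOn_fderiv isOpen_ball hH'
  have hca : ContinuousAt (fderiv ℂ H') w0 :=
    hcont.continuousAt (isOpen_ball.mem_nhds (mem_ball_self hr))
  obtain ⟨s₀, hs₀, hs₀'⟩ := Metric.continuousAt_iff.1 hca (c / 2) (by positivity)
  set s : ℝ := min (s₀ / 2) (r / 2) with hs
  have hspos : 0 < s := by positivity
  have hss₀ : s < s₀ := (min_le_left _ _).trans_lt (by linarith)
  have hsr : s < r := (min_le_right _ _).trans_lt (by linarith)
  have hsr2 : s ≤ r / 2 := min_le_right _ _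
  have hsub : closedBall w0 s ⊆ ball w0 r := closedBall_subset_ball hsr
  -- eventually the derivatives are close to `L`
  have hclose : ∀ᶠ j in atTop, ∀ v ∈ closedBall w0 s, ‖fderiv ℂ (H j) v - L‖ ≤ c := by
    have hε : (0 : ℝ) < c / 2 * (r - s) := mul_pos (by positivity) (by linarith)
    filter_upwards [hH, Metric.tendstoUniformlyOn_iff.1 hu _ hε] with j hj hju v hv
    have h1 : DifferentiableOn ℂ (fun w => H j w - H' w) (ball w0 r) := hj.sub hH'
    have h2 := Pool.Agent.Lib.Osgood.norm_fderiv_le' (M := c / 2 * (r - s)) hsr h1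
      (fun w hw => by
        have := (hju w hw).le
        rw [dist_comm, dist_eq_norm] at this
        exact this) hv
    have hvr : ball w0 r ∈ 𝓝 v := isOpen_ball.mem_nhds (hsub hv)
    have h3 : fderiv ℂ (fun w => H j w - H' w) v = fderiv ℂ (H j) v - fderiv ℂ H' v :=
      fderiv_fun_sub (hj.differentiableAt hvr) (hH'.differentiableAt hvr)
    rw [h3, mul_div_cancel_right₀ _ (by linarith : r - s ≠ 0)] at h2
    have h4 : ‖fderiv ℂ H' v - L‖ ≤ c / 2 := by
      have := (hs₀' (x := v) ((mem_closedBall.1 hv).trans_lt hss₀)).le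
      rw [dist_eq_norm] at this
      exact this
    calc ‖fderiv ℂ (H j) v - L‖
        = ‖(fderiv ℂ (H j) v - fderiv ℂ H' v) + (fderiv ℂ H' v - L)‖ := by
          congr 1
          abel
      _ ≤ c / 2 + c / 2 := (norm_add_le _ _).trans (add_le_add h2 h4)
      _ = c := by ring
  -- surjectivity
  have hpt : Tendsto (fun j => H j w0) atTop (𝓝 (H' w0)) := hu.tendsto_at (mem_ball_self hr)
  set ρ₀ : ℝ := ((K : ℝ)⁻¹ - c) * s with hρ₀
  have hKc : (K : ℝ)⁻¹ - c = c := by
    rw [hc]
    push_cast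
    ring
  have hρ₀pos : 0 < ρ₀ := by
    rw [hρ₀, hKc]
    positivity
  refine ⟨ρ₀ / 2, by positivity, ?_⟩
  filter_upwards [hH, hclose, Metric.tendsto_nhds.1 hpt (ρ₀ / 2) (by positivity)] with j hj hcl hd
  have happ : ApproximatesLinearOn (H j) (e : Cn n →L[ℂ] Cn n) (closedBall w0 s) c := by
    intro x hx y hy
    rw [heL]
    exact Convex.norm_image_sub_le_of_norm_fderiv_le' (𝕜 := ℂ)
      (fun v hv => hj.differentiableAt (isOpen_ball.mem_nhds (hsub hv))) hcl
      (convex_closedBall w0 s) hy hx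
  have hsurj := happ.surjOn_closedBall_of_nonlinearRightInverse e.toNonlinearRightInverse
    hspos.le (Subset.refl _)
  intro y hy
  have hy' : y ∈ closedBall (H j w0) (((e.toNonlinearRightInverse.nnnorm : ℝ)⁻¹ - c) * s) := by
    have hnn : (e.toNonlinearRightInverse.nnnorm : ℝ) = K := rfl
    rw [hnn, ← hρ₀, mem_closedBall]
    rw [mem_ball] at hy
    have := dist_triangle y (H' w0) (H j w0)
    rw [dist_comm (H' w0) (H j w0)] at this
    linarith
  obtain ⟨x, hx, hxy⟩ := hsurj hy'
  exact ⟨x, hsub hx, hxy⟩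

end KVC
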