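import Pool.Agent.Lib.KV.SpecC
import Pool.Agent.Lib.KP.G.Scale

/-!
# KV, block C: images of regular points are in the limit domain
-/

set_option autoImplicit false

open Set Filter Topology Metric

namespace KVC

open KP KVB KV

theorem tRegD (h1 : S_QIFT) : S_RegD := by
  intro N n I U G K hU hG c R x0 A B hR hS ψ g h k0 G' hL x hx hReg
  obtain ⟨e, ρ, hρ, hxV, hxO, hpre, hdet⟩ := hReg
  obtain ⟨ρ0, hρ0, hρW, hRsub, hRo, -⟩ := hR.rad
  have hRW : ∀ x ∈ R, x ∈ c.W := fun x hx => (hRsub hx).1.1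
  obtain ⟨r, hr, hrρ⟩ : ∃ r : ℝ, 0 < r ∧ r < ρ := ⟨ρ / 2, by positivity, by linarith⟩
  have hcb : closedBall (e.pi x) r ⊆ e.pre U := (closedBall_subset_ball hrρ).trans hpre
  set Q := e.psi '' closedBall (e.pi x) r with hQdef
  have hQU : Q ⊆ U := by
    rintro _ ⟨v, hv, rfl⟩
    exact (hcb hv).2
  have hQc : IsCompact Q := (isCompact_closedBall _ _).image_of_continuousOn
    (e.hpsi.continuousOn.mono fun v hv => (hcb hv).1)
  have hin : ∀ v ∈ ball (e.pi x) r, e.psi v ∈ Q := fun v hv =>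
    mem_image_of_mem _ (ball_subset_closedBall hv)
  have hloc := hL.loc Q hQU hQc 1 one_pos
  have hval : e.psi (e.pi x) = x := (e.right hxV hxO).2
  obtain ⟨ρ', hρ', hev⟩ := h1 n (e.pi x) r (fun j v => B (ψ j) (c.pi (g j (e.psi v))))
    (fun v => G' (e.psi v)) hr (by
      filter_upwards [hloc] with j hj
      have h2 : HolOn (fun z => B (ψ j) (c.pi (g j z))) Q :=
        ScaleAux.holG c ((hG.hol _ (hL.gG j)).mono hQU) (hS.difB (ψ j))
          fun z hz => ⟨hRW _ (hj z hz).1, (hj z hz).2.2⟩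
      have h3 : HolOn e.psi (ball (e.pi x) r) := (holOn_iff isOpen_ball).2
        (e.hpsi.mono fun v hv => (hcb (ball_subset_closedBall hv)).1)
      have h4 := HolOn.comp h2 h3 hin
      exact (holOn_iff isOpen_ball).1 h4)
    (((hL.unif Q hQU hQc).comp e.psi).mono hin) (hdet _ (mem_ball_self hρ))
  refine hS.stab (G' x) ρ' hρ' (hL.psi.frequently (Eventually.frequently ?_))
  filter_upwards [hev, hloc] with j hj hj2 q hq
  rw [hval] at hj
  obtain ⟨v, hv, rfl⟩ := hj hq
  rw [hS.AB]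
  exact (hj2 _ (hin v hv)).1

end KVC
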