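import Pool.Agent.Lib.KV.SpecC

/-!
# KV (MP_64edc4_ag), block C: regular points from a right inverse (task RegF)
-/

set_option autoImplicit false

open Set Filter Topology Metric

namespace KVC

open KP KVB KV

private theorem det_ne_of_comp {n : ℕ} (A B : Cn n →L[ℂ] Cn n)
    (h : A.comp B = ContinuousLinearMap.id ℂ (Cn n)) : A.det ≠ 0 := by
  intro h0
  have h1 : (A : Cn n →ₗ[ℂ] Cn n) ∘ₗ (B : Cn n →ₗ[ℂ] Cn n) = LinearMap.id := by
    refine LinearMap.ext fun v => ?_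
    exact congrArg (fun L : Cn n →L[ℂ] Cn n => L v) h
  have h2 : LinearMap.det ((A : Cn n →ₗ[ℂ] Cn n) ∘ₗ (B : Cn n →ₗ[ℂ] Cn n)) = 1 := by
    rw [h1, LinearMap.det_id]
  have h3 : LinearMap.det (A : Cn n →ₗ[ℂ] Cn n) = 0 := h0
  rw [LinearMap.det_comp, h3, zero_mul] at h2
  exact zero_ne_one h2

theorem tRegF : S_RegF := by
  intro N n I U hU G' hG' D F' hD hF' hm hGF x hx
  have hyU : F' x ∈ U := hm hx
  obtain ⟨hyV, e, hyO⟩ := hU.smooth (F' x) hyU
  have hUV : U ⊆ zeroSet I := by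
    obtain ⟨O, -, rfl⟩ := hU.opn
    exact inter_subset_left
  obtain ⟨hW, hright⟩ := e.right hyV hyO
  have hpre : IsOpen (e.pre U) := hU.isOpen_pre e
  have hmem : e.pi (F' x) ∈ e.pre U := ⟨hW, by rw [hright]; exact hyU⟩
  -- the map `H'`
  have hH : DifferentiableOn ℂ (fun v => G' (e.psi v)) (e.pre U) := by
    rw [← holOn_iff hpre]
    exact hG'.comp ((holOn_iff hpre).2 (e.hpsi.mono fun w hw => hw.1)) fun w hw => hw.2
  have hHd : DifferentiableAt ℂ (fun v => G' (e.psi v)) (e.pi (F' x)) :=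
    (hH _ hmem).differentiableAt (hpre.mem_nhds hmem)
  have hFd : DifferentiableAt ℂ F' x := (hF' x hx).differentiableAt (hD.mem_nhds hx)
  have hpd : DifferentiableAt ℂ e.pi (F' x) := (e.hpi _ hyO).differentiableAt (e.hO.mem_nhds hyO)
  have hcd : DifferentiableAt ℂ (fun x' => e.pi (F' x')) x := hpd.comp x hFd
  have hev : (fun x' => G' (e.psi (e.pi (F' x')))) =ᶠ[𝓝 x] fun x' => x' := by
    have h1 : ∀ᶠ x' in 𝓝 x, F' x' ∈ e.O := hFd.continuousAt.eventually (e.hO.mem_nhds hyO)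
    filter_upwards [h1, hD.mem_nhds hx] with x' h2 h3
    rw [(e.right (hUV (hm h3)) h2).2]
    exact hGF x' h3
  have hcomp : (fderiv ℂ (fun v => G' (e.psi v)) (e.pi (F' x))).comp
      (fderiv ℂ (fun x' => e.pi (F' x')) x) = ContinuousLinearMap.id ℂ (Cn n) := by
    have h1 : HasFDerivAt (fun x' => G' (e.psi (e.pi (F' x'))))
        ((fderiv ℂ (fun v => G' (e.psi v)) (e.pi (F' x))).comp
          (fderiv ℂ (fun x' => e.pi (F' x')) x)) x :=
      HasFDerivAt.comp (g := fun v => G' (e.psi v)) x hHd.hasFDerivAt hcd.hasFDerivAt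
    have h2 : HasFDerivAt (fun x' : Cn n => x') (ContinuousLinearMap.id ℂ (Cn n)) x :=
      hasFDerivAt_id x
    exact h1.unique (h2.congr_of_eventuallyEq hev)
  have hdet : (fderiv ℂ (fun v => G' (e.psi v)) (e.pi (F' x))).det ≠ 0 :=
    det_ne_of_comp _ _ hcomp
  -- continuity of the determinant
  have hcont : ContinuousAt (fun v => (fderiv ℂ (fun v => G' (e.psi v)) v).det) (e.pi (F' x)) := by
    have h1 : ContinuousAt (fderiv ℂ (fun v => G' (e.psi v))) (e.pi (F' x)) :=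
      ((Pool.Agent.Lib.Osgood.continuousOn_fderiv hpre hH) _ hmem).continuousAt (hpre.mem_nhds hmem)
    exact ContinuousLinearMap.continuous_det.continuousAt.comp h1
  have hev2 : ∀ᶠ v in 𝓝 (e.pi (F' x)),
      (fderiv ℂ (fun v => G' (e.psi v)) v).det ≠ 0 ∧ v ∈ e.pre U :=
    (hcont.eventually_ne hdet).and (hpre.mem_nhds hmem)
  obtain ⟨ρ, hρ, hball⟩ := Metric.eventually_nhds_iff_ball.1 hev2
  exact ⟨e, ρ, hρ, hyV, hyO, fun v hv => (hball v hv).2, fun v hv => (hball v hv).1⟩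

end KVC
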