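import Pool.Agent.Lib.KV.SpecC

/-!
# KV, block C, RegU: the derivative of the limit map is invertible everywhere
-/

set_option autoImplicit false

open Set Filter Topology Metric

namespace KVC

open KP KVB KV

namespace RegUAux

variable {N n : ℕ}

/-- Induction over a connected set. -/
theorem conn_ind {X : Type} [TopologicalSpace X] {U T : Set X} (hU : IsPreconnected U)
    (ho : ∃ O, IsOpen O ∧ T = U ∩ O) (hne : T.Nonempty)
    (hcl : ∀ x ∈ U, x ∈ closure T → x ∈ T) : U ⊆ T := by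
  obtain ⟨O, hO, hTO⟩ := ho
  rw [isPreconnected_iff_subset_of_disjoint] at hU
  have h1 := hU O (closure T)ᶜ hO isClosed_closure.isOpen_compl ?_ ?_
  · rcases h1 with h1 | h1
    · intro x hx
      rw [hTO]
      exact ⟨hx, h1 hx⟩
    · obtain ⟨x, hx⟩ := hne
      have hxU : x ∈ U := by rw [hTO] at hx; exact hx.1
      exact absurd (subset_closure hx) (h1 hxU)
  · intro x hx
    by_cases h : x ∈ closure T
    · left
      have := hcl x hx h
      rw [hTO] at this
      exact this.2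
    · exact Or.inr h
  · rw [eq_empty_iff_forall_notMem]
    rintro x ⟨hx, hxO, hxT⟩
    exact hxT (subset_closure (by rw [hTO]; exact ⟨hx, hxO⟩))

/-- The rescaled automorphisms are holomorphic. -/
theorem holG {V Q : Set (Cn N)} (c : Chart V n) {g : Cn N → Cn N} {b : Cn n → Cn n}
    (hg : HolOn g Q) (hb : Differentiable ℂ b)
    (h : ∀ x ∈ Q, c.pi (g x) ∈ c.W ∧ c.psi (c.pi (g x)) = g x) :
    HolOn (fun x => b (c.pi (g x))) Q := by
  have h1 : HolOn c.pi c.O := (holOn_iff c.hO).2 c.hpi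
  have h2 : HolOn b univ := (holOn_iff isOpen_univ).2 hb.differentiableOn
  have h3 : MapsTo g Q c.O := fun x hx => by
    obtain ⟨h4, h5⟩ := h x hx
    rw [← h5]
    exact (c.psi_mem h4).2
  exact HolOn.comp h2 (HolOn.comp h1 hg h3) (fun x _ => mem_univ _)

/-- The determinant of the inner factor. -/
theorem det_ne_of_left {f : Cn n → Cn n} {E : Cn n → Cn n} {v : Cn n}
    (hf : DifferentiableAt ℂ f v) (hE : DifferentiableAt ℂ E (f v))
    (h : ∀ᶠ v' in 𝓝 v, E (f v') = v') : (fderiv ℂ f v).det ≠ 0 := by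
  have h1 : fderiv ℂ (fun v' => E (f v')) v = (fderiv ℂ E (f v)).comp (fderiv ℂ f v) :=
    fderiv_comp v hE hf
  have h2 : fderiv ℂ (fun v' => E (f v')) v = ContinuousLinearMap.id ℂ (Cn n) := by
    have h3 : (fun v' => E (f v')) =ᶠ[𝓝 v] id := h
    rw [h3.fderiv_eq, fderiv_id]
  have h3 : (fderiv ℂ E (f v)).det * (fderiv ℂ f v).det = 1 := by
    rw [h2] at h1
    have h4 : ((fderiv ℂ E (f v)).comp (fderiv ℂ f v)).det =
        (fderiv ℂ E (f v)).det * (fderiv ℂ f v).det := by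
      rw [ContinuousLinearMap.det, ContinuousLinearMap.det, ContinuousLinearMap.det,
        ← LinearMap.det_comp]
      rfl
    rw [← h4, ← h1, ContinuousLinearMap.det]
    exact LinearMap.det_id
  intro h0
  rw [h0, mul_zero] at h3
  exact zero_ne_one h3

/-- The determinant of the outer factor. -/
theorem det_ne_of_comp {f : Cn n → Cn n} {E : Cn n → Cn n} {k : Cn n → Cn n} {v : Cn n}
    (hf : DifferentiableAt ℂ f v) (hE : DifferentiableAt ℂ E (f v))
    (h : ∀ᶠ v' in 𝓝 v, k v' = E (f v')) (hk : (fderiv ℂ k v).det ≠ 0) :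
    (fderiv ℂ E (f v)).det ≠ 0 := by
  have h1 : fderiv ℂ (fun v' => E (f v')) v = (fderiv ℂ E (f v)).comp (fderiv ℂ f v) :=
    fderiv_comp v hE hf
  have h2 : fderiv ℂ k v = (fderiv ℂ E (f v)).comp (fderiv ℂ f v) := by
    have h3 : k =ᶠ[𝓝 v] (fun v' => E (f v')) := h
    rw [h3.fderiv_eq, h1]
  have h4 : ((fderiv ℂ E (f v)).comp (fderiv ℂ f v)).det =
      (fderiv ℂ E (f v)).det * (fderiv ℂ f v).det := by
    rw [ContinuousLinearMap.det, ContinuousLinearMap.det, ContinuousLinearMap.det,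
      ← LinearMap.det_comp]
    rfl
  intro h0
  rw [h2, h4, h0, zero_mul] at hk
  exact hk rfl

end RegUAux

open RegUAux in
theorem tRegU (h1 : S_HurN) : S_RegU := by
  intro N n I U G K hU hG c R x0 A B hR hS ψ g h k0 G' hL hex
  obtain ⟨ρ0, hρ0, hρW, hRsub, hRo, -⟩ := hR.rad
  have hRpre : R ⊆ c.pre U := fun x hx => (hRsub hx).1
  have hRW : ∀ x ∈ R, x ∈ c.W := fun x hx => (hRpre hx).1
  have hRU : ∀ x ∈ R, c.psi x ∈ U := fun x hx => (hRpre hx).2
  have hUV : U ⊆ zeroSet I := by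
    obtain ⟨O, hO, hUO⟩ := hU.opn
    intro y hy
    rw [hUO] at hy
    exact hy.1
  suffices hT : U ⊆ {x | x ∈ U ∧ Reg (zeroSet I) U G' x} from fun x hx => (hT hx).2
  refine conn_ind hU.conn.isPreconnected ?_ ?_ ?_
  · -- relatively open
    have hloc : ∀ x : {x | x ∈ U ∧ Reg (zeroSet I) U G' x}, ∃ O : Set (Cn N), IsOpen O ∧
        x.1 ∈ O ∧ ∀ y ∈ U, y ∈ O → Reg (zeroSet I) U G' y := by
      rintro ⟨x, hxU, e, ρ, hρ, hxV, hxe, hball, hdet⟩
      refine ⟨e.O ∩ e.pi ⁻¹' ball (e.pi x) (ρ / 2),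
        e.hpi.continuousOn.isOpen_inter_preimage e.hO isOpen_ball,
        ⟨hxe, mem_ball_self (half_pos hρ)⟩, ?_⟩
      rintro y hyU ⟨hye, hyb⟩
      have hsub : ball (e.pi y) (ρ / 2) ⊆ ball (e.pi x) ρ := by
        apply ball_subset_ball'
        have : dist (e.pi y) (e.pi x) < ρ / 2 := hyb
        linarith
      exact ⟨e, ρ / 2, half_pos hρ, hUV hyU, hye, hsub.trans hball,
        fun v hv => hdet v (hsub hv)⟩
    choose O hO hxO hOr using hloc
    refine ⟨⋃ x, O x, isOpen_iUnion hO, ?_⟩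
    ext y
    constructor
    · intro hy
      exact ⟨hy.1, mem_iUnion.2 ⟨⟨y, hy⟩, hxO ⟨y, hy⟩⟩⟩
    · rintro ⟨hyU, hyO⟩
      obtain ⟨x, hx⟩ := mem_iUnion.1 hyO
      exact ⟨hyU, hOr x y hyU hx⟩
  · obtain ⟨x, hx, hxr⟩ := hex
    exact ⟨x, hx, hxr⟩
  · -- relatively closed
    intro x hx hxc
    refine ⟨hx, ?_⟩
    obtain ⟨hxV, e, hxe⟩ := hU.smooth x hx
    obtain ⟨hw, hwx⟩ := e.right hxV hxe
    have hpre : e.pi x ∈ e.pre U := ⟨hw, by rw [hwx]; exact hx⟩
    obtain ⟨r', hr', hr'U⟩ := Metric.isOpen_iff.1 (hU.isOpen_pre e) _ hpre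
    obtain ⟨r, hr, hrr'⟩ : ∃ r : ℝ, 0 < r ∧ r < r' := ⟨r' / 2, by positivity, by linarith⟩
    set w0 := e.pi x with hw0
    have hcb : closedBall w0 r ⊆ e.pre U := (closedBall_subset_ball hrr').trans hr'U
    have hbs : ball w0 r ⊆ e.pre U := ball_subset_closedBall.trans hcb
    set Q := e.psi '' closedBall w0 r with hQdef
    have hQU : Q ⊆ U := by
      rintro _ ⟨v, hv, rfl⟩
      exact (hcb hv).2
    have hQc : IsCompact Q := (isCompact_closedBall _ _).image_of_continuousOn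
      (e.hpsi.continuousOn.mono fun v hv => (hcb hv).1)
    have hbQ : ∀ v ∈ ball w0 r, e.psi v ∈ Q := fun v hv =>
      mem_image_of_mem _ (ball_subset_closedBall hv)
    have hdisc : ∀ F : Cn N → Cn n, HolOn F Q →
        DifferentiableOn ℂ (fun v => F (e.psi v)) (ball w0 r) := by
      intro F hF
      rw [← holOn_iff isOpen_ball]
      exact HolOn.comp hF ((holOn_iff isOpen_ball).2 (e.hpsi.mono fun v hv => (hbs hv).1)) hbQ
    have hloc := hL.loc Q hQU hQc 1 one_pos
    -- (a)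
    have hdif : ∀ j, (∀ x ∈ Q, c.pi (g j x) ∈ R ∧ ‖c.pi (g j x)‖ < 1 ∧
        c.psi (c.pi (g j x)) = g j x) →
        DifferentiableOn ℂ (fun v => B (ψ j) (c.pi (g j (e.psi v)))) (ball w0 r) := by
      intro j hj
      exact hdisc (fun z => B (ψ j) (c.pi (g j z)))
        (holG c ((hG.hol _ (hL.gG j)).mono hQU) (hS.difB (ψ j))
          fun z hz => ⟨hRW _ (hj z hz).1, (hj z hz).2.2⟩)
    have ha : ∀ᶠ j in atTop,
        DifferentiableOn ℂ (fun v => B (ψ j) (c.pi (g j (e.psi v)))) (ball w0 r) :=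
      hloc.mono hdif
    -- uniform convergence
    have hu : TendstoUniformlyOn (fun j v => B (ψ j) (c.pi (g j (e.psi v))))
        (fun v => G' (e.psi v)) atTop (ball w0 r) := by
      have h2 := (hL.unif Q hQU hQc).comp e.psi
      exact h2.mono hbQ
    -- (b)
    have hb : ∀ᶠ j in atTop, ∀ v ∈ ball w0 r,
        (fderiv ℂ (fun v => B (ψ j) (c.pi (g j (e.psi v)))) v).det ≠ 0 := by
      filter_upwards [hloc] with j hj v hv
      have hfv : DifferentiableAt ℂ (fun v => B (ψ j) (c.pi (g j (e.psi v)))) v :=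
        (hdif j hj v hv).differentiableAt (isOpen_ball.mem_nhds hv)
      have hA : ∀ v' ∈ ball w0 r, A (ψ j) (B (ψ j) (c.pi (g j (e.psi v')))) =
          c.pi (g j (e.psi v')) := fun v' _ => hS.AB _ _
      have hval : ∀ v' ∈ ball w0 r,
          h j (c.psi (A (ψ j) (B (ψ j) (c.pi (g j (e.psi v')))))) = e.psi v' := by
        intro v' hv'
        rw [hA v' hv', (hj _ (hbQ v' hv')).2.2, hL.hg j _ (hQU (hbQ v' hv'))]
      have hDo : IsOpen (A (ψ j) ⁻¹' R) := hRo.preimage (hS.difA (ψ j)).continuous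
      have hq : B (ψ j) (c.pi (g j (e.psi v))) ∈ A (ψ j) ⁻¹' R := by
        rw [mem_preimage, hA v hv]
        exact (hj _ (hbQ v hv)).1
      have hhol : DifferentiableOn ℂ (fun q => h j (c.psi (A (ψ j) q))) (A (ψ j) ⁻¹' R) := by
        rw [← holOn_iff hDo]
        have h6 : HolOn c.psi c.W := (holOn_iff c.hW).2 c.hpsi
        have h7 : HolOn (A (ψ j)) (A (ψ j) ⁻¹' R) :=
          (holOn_iff hDo).2 (hS.difA (ψ j)).differentiableOn
        have h8 : HolOn (fun x => c.psi (A (ψ j) x)) (A (ψ j) ⁻¹' R) :=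
          HolOn.comp h6 h7 fun x hx => hRW _ hx
        exact HolOn.comp (hG.hol _ (hL.hG j)) h8 fun x hx => hRU _ hx
      have hd1 : DifferentiableAt ℂ (fun q => h j (c.psi (A (ψ j) q)))
          (B (ψ j) (c.pi (g j (e.psi v)))) :=
        (hhol _ hq).differentiableAt (hDo.mem_nhds hq)
      have hd2 : DifferentiableAt ℂ e.pi
          (h j (c.psi (A (ψ j) (B (ψ j) (c.pi (g j (e.psi v))))))) := by
        rw [hval v hv]
        have h9 : e.psi v ∈ e.O := (e.psi_mem (hbs hv).1).2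
        exact (e.hpi _ h9).differentiableAt (e.hO.mem_nhds h9)
      have hE : DifferentiableAt ℂ (fun q => e.pi (h j (c.psi (A (ψ j) q))))
          (B (ψ j) (c.pi (g j (e.psi v)))) := DifferentiableAt.comp _ hd2 hd1
      refine det_ne_of_left (E := fun q => e.pi (h j (c.psi (A (ψ j) q)))) hfv hE ?_
      filter_upwards [isOpen_ball.mem_nhds hv] with v' hv'
      rw [hval v' hv', e.left _ (hbs hv').1]
    -- (c)
    have hc : ∃ v ∈ ball w0 r, (fderiv ℂ (fun v => G' (e.psi v)) v).det ≠ 0 := by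
      have hnh : e.O ∩ e.pi ⁻¹' ball (e.pi x) r ∈ 𝓝 x :=
        inter_mem (e.hO.mem_nhds hxe) ((e.hpi.continuousOn.continuousAt
          (e.hO.mem_nhds hxe)).preimage_mem_nhds (ball_mem_nhds _ hr))
      obtain ⟨y, ⟨hyO, hyr⟩, hyU, e1, ρ1, hρ1, hyV, hye1, hball1, hdet1⟩ :=
        mem_closure_iff_nhds.1 hxc _ hnh
      refine ⟨e.pi y, hyr, ?_⟩
      obtain ⟨hw1, hwy1⟩ := e1.right hyV hye1
      have hpsi1 : DifferentiableAt ℂ e1.psi (e1.pi y) :=
        (e1.hpsi _ hw1).differentiableAt (e1.hW.mem_nhds hw1)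
      have hpi1 : DifferentiableAt ℂ e.pi (e1.psi (e1.pi y)) := by
        rw [hwy1]
        exact (e.hpi _ hyO).differentiableAt (e.hO.mem_nhds hyO)
      have hf : DifferentiableAt ℂ (fun v => e.pi (e1.psi v)) (e1.pi y) :=
        DifferentiableAt.comp _ hpi1 hpsi1
      have hE : DifferentiableAt ℂ (fun v => G' (e.psi v)) (e.pi (e1.psi (e1.pi y))) := by
        rw [hwy1]
        exact (hdisc G' (hL.hol.mono hQU) _ hyr).differentiableAt (isOpen_ball.mem_nhds hyr)
      have hkey := det_ne_of_comp (f := fun v => e.pi (e1.psi v))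
        (E := fun v => G' (e.psi v)) (k := fun v => G' (e1.psi v)) hf hE ?_
        (hdet1 _ (mem_ball_self hρ1))
      · have h9 : e.pi (e1.psi (e1.pi y)) = e.pi y := by rw [hwy1]
        change (fderiv ℂ (fun v => G' (e.psi v)) (e.pi (e1.psi (e1.pi y)))).det ≠ 0 at hkey
        rwa [h9] at hkey
      · have hO1 : e1.psi ⁻¹' e.O ∈ 𝓝 (e1.pi y) :=
          hpsi1.continuousAt.preimage_mem_nhds (by rw [hwy1]; exact e.hO.mem_nhds hyO)
        filter_upwards [hO1, isOpen_ball.mem_nhds (mem_ball_self hρ1)] with v hv1 hv2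
        have hvU : e1.psi v ∈ U := (hball1 hv2).2
        rw [(e.right (hUV hvU) hv1).2]
    have hfin := h1 n w0 r (fun j v => B (ψ j) (c.pi (g j (e.psi v))))
      (fun v => G' (e.psi v)) hr ha hu hb hc
    exact ⟨e, r, hr, hxV, hxe, hbs, hfin⟩

end KVC
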