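import Pool.Agent.Lib.KV.SpecC

set_option autoImplicit false

open Set Filter Topology Metric

namespace KVC

open KP KVB KV

namespace ScFAux

variable {N n m : ℕ}

/-- Compact subsets of `DInf R A` are mapped into `R` by `A j` for large `j`. -/
theorem inside {R : Set (Cn n)} {A : ℕ → Cn n → Cn n} {Q : Set (Cn n)} (hQc : IsCompact Q)
    (hQ : Q ⊆ DInf R A) : ∀ᶠ j in atTop, ∀ x ∈ Q, A j x ∈ R := by
  refine hQc.induction_on (p := fun s => ∀ᶠ j in atTop, ∀ x ∈ s, A j x ∈ R) ?_ ?_ ?_ ?_
  · exact Eventually.of_forall fun j x hx => absurd hx (notMem_empty x)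
  · intro s t hst ht
    exact ht.mono fun j hj x hx => hj x (hst hx)
  · intro s t hs ht
    filter_upwards [hs, ht] with j h1 h2 x hx
    rcases hx with hx | hx
    · exact h1 x hx
    · exact h2 x hx
  · intro x hx
    obtain ⟨r, hr, h⟩ := hQ hx
    exact ⟨ball x r, mem_nhdsWithin_of_mem_nhds (ball_mem_nhds x hr), h⟩

/-- Evaluation of a sequence, which converges uniformly on compact sets, on a convergent sequence
of points. -/
theorem tendsto_eval {f : ℕ → Cn N → Cn m} {F : Cn N → Cn m} {U : Set (Cn N)}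
    (hu : ∀ Q ⊆ U, IsCompact Q → TendstoUniformlyOn f F atTop Q) (hF : ContinuousOn F U)
    {y : ℕ → Cn N} {y0 : Cn N} (hy0 : y0 ∈ U) (hy : Tendsto y atTop (𝓝 y0))
    (hyU : ∀ᶠ j in atTop, y j ∈ U) : Tendsto (fun j => f j (y j)) atTop (𝓝 (F y0)) := by
  classical
  let y' : ℕ → Cn N := fun j => if y j ∈ U then y j else y0
  have hy' : ∀ᶠ j in atTop, y' j = y j := by
    filter_upwards [hyU] with j hj
    simp only [y', if_pos hj]
  have hy'U : ∀ j, y' j ∈ U := by
    intro j
    simp only [y']
    split_ifs with h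
    · exact h
    · exact hy0
  have hyt : Tendsto y' atTop (𝓝 y0) := hy.congr' (hy'.mono fun j hj => hj.symm)
  have hc : IsCompact (insert y0 (range y')) := hyt.isCompact_insert_range
  have hsub : insert y0 (range y') ⊆ U := by
    rintro x (rfl | ⟨j, rfl⟩)
    · exact hy0
    · exact hy'U j
  have h1 := hu _ hsub hc
  have h2 : Tendsto (fun j => f j (y' j)) atTop (𝓝 (F y0)) := by
    refine tendsto_comp_of_locally_uniform_limit_within (s := insert y0 (range y'))
      ((hF.mono hsub) y0 (mem_insert _ _)) ?_ ?_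
    · rw [tendsto_nhdsWithin_iff]
      exact ⟨hyt, Eventually.of_forall fun j => mem_insert_of_mem _ (mem_range_self j)⟩
    · intro u hu
      exact ⟨_, self_mem_nhdsWithin, h1 u hu⟩
  refine h2.congr' ?_
  filter_upwards [hy'] with j hj
  rw [hj]

end ScFAux

open ScFAux in
theorem tScF (h1 : S_Taut) : S_ScF := by
  intro N n I U G K hU hG c R x0 A B hR hS ψ g h k0 G' hL D hDo hDc hx0 hDI
  obtain ⟨ρ, hρ, hρW, hRsub, hRo, -⟩ := hR.rad
  have hRpre : R ⊆ c.pre U := fun x hx => (hRsub hx).1
  have hRW : ∀ x ∈ R, x ∈ c.W := fun x hx => (hRpre hx).1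
  have hRU : ∀ x ∈ R, c.psi x ∈ U := fun x hx => (hRpre hx).2
  have hG' := hL.hol
  have hGu := hL.unif
  -- the inverse maps
  obtain ⟨χ', hχ', F', hF', hFU, hFu⟩ := h1 N n n I U G K hU hG D x0 hDo hDc hx0
    (fun j x => h j (c.psi (A (ψ j) x))) (by
      intro Q hQD hQc
      obtain ⟨L, hLc, hQL, hLD⟩ := exists_compact_between hQc hDo hQD
      filter_upwards [hL.psi.eventually (inside hLc (hLD.trans hDI))] with j hj
      refine ⟨interior L, isOpen_interior, hQL, ?_, ?_⟩
      · rw [← holOn_iff isOpen_interior]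
        have h6 : HolOn c.psi c.W := (holOn_iff c.hW).2 c.hpsi
        have h7 : HolOn (A (ψ j)) (interior L) :=
          (holOn_iff isOpen_interior).2 (hS.difA (ψ j)).differentiableOn
        have h8 : HolOn (fun x => c.psi (A (ψ j) x)) (interior L) :=
          HolOn.comp h6 h7 fun x hx => hRW _ (hj x (interior_subset hx))
        exact HolOn.comp (hG.hol _ (hL.hG j)) h8
          fun x hx => hRU _ (hj x (interior_subset hx))
      · intro x hx
        exact hG.maps _ (hL.hG j) (hRU _ (hj x (interior_subset hx))))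
    (fun j => hL.hK j)
  refine ⟨F', hF', hFU, ?_, ?_⟩
  · -- `G' (F' x) = x`
    intro x hx
    have h6 : Tendsto (fun j => h (χ' j) (c.psi (A (ψ (χ' j)) x))) atTop (𝓝 (F' x)) :=
      (hFu {x} (singleton_subset_iff.2 hx) isCompact_singleton).tendsto_at rfl
    have hin : ∀ᶠ j in atTop, A (ψ (χ' j)) x ∈ R :=
      (hL.psi.comp hχ'.tendsto_atTop).eventually
        ((inside isCompact_singleton (singleton_subset_iff.2 (hDI hx))).mono
          fun j hj => hj x rfl)
    have h7 := tendsto_eval (f := fun j x => B (ψ (χ' j)) (c.pi (g (χ' j) x)))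
      (F := G') (U := U) (fun Q hQU hQc => by
        have h8 := hGu Q hQU hQc
        intro u hu
        exact hχ'.tendsto_atTop.eventually (h8 u hu)) hG'.continuousOn (hFU hx) h6
      (hin.mono fun j hj => hG.maps _ (hL.hG _) (hRU _ hj))
    refine tendsto_nhds_unique h7 (tendsto_const_nhds.congr' ?_)
    filter_upwards [hin] with j hj
    rw [hL.gh _ _ (hRU _ hj), c.left _ (hRW _ hj), hS.BA]
  · -- `F' (G' x) = x`
    intro x hx hxD
    have h6 : Tendsto (fun j => B (ψ (χ' j)) (c.pi (g (χ' j) x))) atTop (𝓝 (G' x)) :=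
      ((hGu {x} (singleton_subset_iff.2 hx) isCompact_singleton).tendsto_at rfl).comp
        hχ'.tendsto_atTop
    have h7 := tendsto_eval hFu hF'.continuousOn hxD h6
      (h6.eventually (hDo.mem_nhds hxD))
    refine tendsto_nhds_unique h7 (tendsto_const_nhds.congr' ?_)
    filter_upwards [hχ'.tendsto_atTop.eventually
      (hL.loc {x} (singleton_subset_iff.2 hx) isCompact_singleton 1 one_pos)] with j hj
    rw [hS.AB, (hj x rfl).2.2, hL.hg _ _ hx]

end KVC
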