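import Pool.Agent.Lib.KV.SpecC

/-!
# KV (MP_64edc4_ag), block C: the limit of the rescaled automorphisms (helper7)
-/

set_option autoImplicit false

open Set Filter Topology Metric

namespace KVC

open KP KVB KV

namespace ScLimAux

variable {N n m : ℕ}

/-- Evaluation of a sequence, which converges uniformly on compact sets, on a convergent sequence
of points. -/
theorem tendsto_eval {f : ℕ → Cn N → Cn m} {F : Cn N → Cn m} {U : Set (Cn N)}
    (hu : ∀ Q ⊆ U, IsCompact Q → TendstoUniformlyOn f F atTop Q) (hF : ContinuousOn F U)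
    {y : ℕ → Cn N} {y0 : Cn N} (hy0 : y0 ∈ U) (hy : Tendsto y atTop (𝓝 y0))
    (hyU : ∀ j, y j ∈ U) : Tendsto (fun j => f j (y j)) atTop (𝓝 (F y0)) := by
  have hc : IsCompact (insert y0 (range y)) := hy.isCompact_insert_range
  have hsub : insert y0 (range y) ⊆ U := by
    rintro x (rfl | ⟨j, rfl⟩)
    · exact hy0
    · exact hyU j
  have h1 := hu _ hsub hc
  refine tendsto_comp_of_locally_uniform_limit_within (s := insert y0 (range y))
    ((hF.mono hsub) y0 (mem_insert _ _)) ?_ ?_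
  · rw [tendsto_nhdsWithin_iff]
    exact ⟨hy, Eventually.of_forall fun j => mem_insert_of_mem _ (mem_range_self j)⟩
  · intro u hu
    exact ⟨_, self_mem_nhdsWithin, h1 u hu⟩

/-- The rescaled automorphisms are holomorphic. -/
theorem holG {V Q : Set (Cn N)} (c : Chart V n) {g : Cn N → Cn N} {b : Cn n → Cn n}
    (hg : HolOn g Q) (hb : Differentiable ℂ b)
    (h : ∀ x ∈ Q, c.pi (g x) ∈ c.W ∧ c.psi (c.pi (g x)) = g x) :
    HolOn (fun x => b (c.pi (g x))) Q := by
  have h1 : HolOn c.pi c.O := (holOn_iff c.hO).2 c.hpi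
  have h2 : HolOn b univ := (holOn_iff isOpen_univ).2 hb.differentiableOn
  have h3 : MapsTo g Q c.O := fun x hx => by
    obtain ⟨h4, h5⟩ := h x hx
    rw [← h5]
    exact (c.psi_mem h4).2
  exact HolOn.comp h2 (HolOn.comp h1 hg h3) (fun x _ => mem_univ _)

end ScLimAux

open ScLimAux in
theorem tScLim (h1 : S_PeakL) (h2 : S_Bnd2) (h3 : S_Mon) (h4 : S_Exh) : S_ScLim := by
  intro N n I U G K hU hG c R x0 A B hR hS
  obtain ⟨ρ, hρ, hρW, hRsub, hRo, -⟩ := hR.rad
  have hRpre : R ⊆ c.pre U := fun x hx => (hRsub hx).1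
  have hRW : ∀ x ∈ R, x ∈ c.W := fun x hx => (hRpre hx).1
  have hRU : ∀ x ∈ R, c.psi x ∈ U := fun x hx => (hRpre hx).2
  have hUV : ROpen U (zeroSet I) := by
    obtain ⟨O, hO, hUO⟩ := hU.opn
    exact ⟨O, hO, hUO⟩
  -- the automorphisms
  have hex : ∀ j : ℕ, ∃ g f : Cn N → Cn N, g ∈ G ∧ f ∈ G ∧ f (c.psi (A j x0)) ∈ K ∧
      (∀ x ∈ U, g (f x) = x) ∧ ∀ x ∈ U, f (g x) = x := by
    intro j
    have hx : c.psi (A j x0) ∈ U := hRU _ (hS.start j)
    obtain ⟨f, hf, hf'⟩ := hG.cov _ hx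
    obtain ⟨g, hg, hg1, hg2⟩ := hG.inv f hf
    exact ⟨g, f, hg, hf, hf'.self_of_nhds hx, hg1, hg2⟩
  choose g h hgG hhG hhK hgh hhg using hex
  have hq0 : Tendsto (fun j => A j x0) atTop (𝓝 0) := by
    rw [Metric.tendsto_nhds]
    intro ε hε
    filter_upwards [hS.toz {x0} isCompact_singleton ε hε] with j hj
    simpa using hj x0 rfl
  obtain ⟨φ, hφ, k0, hk0, hk, hQ⟩ := h1 N n I U G K hU hG c R hR hS.peak (fun j => A j x0) g
    (fun j => h j (c.psi (A j x0))) hS.start hq0 hgG hhK (fun j => hgh j _ (hRU _ (hS.start j)))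
  have hk0U : k0 ∈ U := hG.sub hk0
  -- the rescaled automorphisms are bounded
  have hB := h2 N n I U G K hU hG c R x0 A B hS hRpre φ (fun j => g (φ j))
    (fun j => h (φ j) (c.psi (A (φ j) x0))) k0 hφ.tendsto_atTop (fun j => hgG _) hk0U
    (fun j => hG.sub (hhK _)) hk (fun j => by
      rw [hgh (φ j) _ (hRU _ (hS.start (φ j)))]
      exact c.left _ (hRW _ (hS.start (φ j)))) hQ
  obtain ⟨Um, -, hUm, hUm'⟩ := h4 N n I U hU k0 hk0U
  obtain ⟨χ, hχ, G', hG', hGu⟩ := h3 N n n (zeroSet I) U hUV hU.smooth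
    (fun j x => B (φ j) (c.pi (g (φ j) x))) Um (fun k => (hUm' k).1) hUm (by
      intro k
      obtain ⟨-, -, -, hc, hcU⟩ := hUm' k
      obtain ⟨M, hM⟩ := hB _ hcU hc
      refine ⟨M, ?_⟩
      filter_upwards [hM, hQ _ hcU hc 1 one_pos] with j hj hj'
      refine ⟨?_, fun x hx => hj x (subset_closure hx)⟩
      refine holG c ((hG.hol _ (hgG (φ j))).mono fun x hx => hcU (subset_closure hx))
        (hS.difB (φ j)) ?_
      intro x hx
      obtain ⟨h6, h7, h8⟩ := hj' x (subset_closure hx)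
      exact ⟨hRW _ h6, h8⟩)
  -- reindexing
  have hψt : Tendsto (fun j => φ (χ j)) atTop atTop := hφ.tendsto_atTop.comp hχ.tendsto_atTop
  have hk' : Tendsto (fun j => h (φ (χ j)) (c.psi (A (φ (χ j)) x0))) atTop (𝓝 k0) :=
    hk.comp hχ.tendsto_atTop
  have hGu' : ∀ Q ⊆ U, IsCompact Q →
      TendstoUniformlyOn (fun j x => B (φ (χ j)) (c.pi (g (φ (χ j)) x))) G' atTop Q := hGu
  refine ⟨fun j => φ (χ j), fun j => g (φ (χ j)), fun j => h (φ (χ j)), k0, G', ?_⟩
  refine ⟨hψt, fun j => hgG _, fun j => hhG _, fun j => hgh _, fun j => hhg _, hk0, fun j => hhK _,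
    hk', fun Q hQU hQc ρ' hρ' => hχ.tendsto_atTop.eventually (hQ Q hQU hQc ρ' hρ'), hG', hGu', ?_⟩
  -- the value at `k0`
  have h6 := tendsto_eval hGu' hG'.continuousOn hk0U hk' (fun j => hG.sub (hhK _))
  refine tendsto_nhds_unique h6 ?_
  refine tendsto_const_nhds.congr fun j => ?_
  rw [hgh (φ (χ j)) _ (hRU _ (hS.start (φ (χ j)))), c.left _ (hRW _ (hS.start (φ (χ j)))), hS.BA]

end KVC
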