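import Pool.Agent.Lib.KV.SpecC

/-!
# KV (MP_64edc4_ag), block C: the scaling theorem, assembly (task Scale2)
-/

set_option autoImplicit false

open Set Filter Topology Metric

namespace KVC

open KP KVB KV

private theorem isOpen_DInf {n : ℕ} (R : Set (Cn n)) (A : ℕ → Cn n → Cn n) :
    IsOpen (DInf R A) := by
  rw [Metric.isOpen_iff]
  rintro q ⟨r, hr, h⟩
  refine ⟨r / 2, by positivity, fun q' hq' => ⟨r / 2, by positivity, ?_⟩⟩
  filter_upwards [h] with j hj x hx
  refine hj x ?_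
  rw [mem_ball] at hq' hx ⊢
  calc dist x q ≤ dist x q' + dist q' q := dist_triangle _ _ _
    _ < r / 2 + r / 2 := add_lt_add hx hq'
    _ = r := by ring

theorem tScale2 (h1 : S_ScLim) (h2 : S_ScF) (h3 : S_RegF) (h4 : S_RegU) (h5 : S_RegD) :
    S_Scale2 := by
  intro N n I U G K hU hK c R x0 A B hR hS
  obtain ⟨ψ, g, h, k0, G', hL⟩ := h1 N n I U G K hU hK c R x0 A B hR hS
  have hDo : IsOpen (connectedComponentIn (DInf R A) x0) :=
    (isOpen_DInf R A).connectedComponentIn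
  have hx0 : x0 ∈ connectedComponentIn (DInf R A) x0 := mem_connectedComponentIn hS.base
  obtain ⟨F', hF1, hF2, hF3, hF4⟩ := h2 N n I U G K hU hK c R x0 A B hR hS ψ g h k0 G' hL
    (connectedComponentIn (DInf R A) x0) hDo isPreconnected_connectedComponentIn hx0
    (connectedComponentIn_subset _ _)
  have hreg0 : Reg (zeroSet I) U G' (F' x0) := h3 N n I U hU G' hL.hol _ F' hDo hF1 hF2 hF3 x0 hx0
  have hreg : ∀ x ∈ U, Reg (zeroSet I) U G' x :=
    h4 N n I U G K hU hK c R x0 A B hR hS ψ g h k0 G' hL ⟨F' x0, hF2 hx0, hreg0⟩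
  have hin : ∀ x ∈ U, G' x ∈ DInf R A := fun x hx =>
    h5 N n I U G K hU hK c R x0 A B hR hS ψ g h k0 G' hL x hx (hreg x hx)
  have hk0 : k0 ∈ U := hK.sub hL.k0K
  have hsub : G' '' U ⊆ connectedComponentIn (DInf R A) x0 := by
    refine IsPreconnected.subset_connectedComponentIn
      (hU.conn.isPreconnected.image G' hL.hol.continuousOn) ⟨k0, hk0, hL.val⟩ ?_
    rintro _ ⟨x, hx, rfl⟩
    exact hin x hx
  have hmaps : MapsTo G' U (connectedComponentIn (DInf R A) x0) := fun x hx =>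
    hsub ⟨x, hx, rfl⟩
  exact ⟨G', F', hL.hol, (holOn_iff hDo).2 hF1, hmaps, hF2, fun x hx => hF4 x hx (hmaps hx), hF3⟩

end KVC
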