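import Pool.Agent.Lib.KV.SpecC

/-!
# KV, block C: the soft part
-/

set_option autoImplicit false

open Set Filter Topology Metric

namespace KVC

open KP KVB KV

namespace SoftAux

variable {m k : ℕ}

theorem hgt_base (F : Fin k → Matrix (Fin m) (Fin m) ℂ) (y0 : Fin k → ℝ) :
    hgt F (mk 0 (Complex.I • cx y0)) = y0 := by
  ext j
  simp [hgt, imv, rev, hf, cx]

theorem continuous_hgt (F : Fin k → Matrix (Fin m) (Fin m) ℂ) :
    Continuous (hgt F : Cn (m + k) → (Fin k → ℝ)) := by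
  refine continuous_pi fun j => ?_
  have h1 : Continuous (fun p : Cn (m + k) => (wp p j).im) :=
    Complex.continuous_im.comp ((continuous_apply j).comp continuous_wp)
  have h2 : Continuous (fun p : Cn (m + k) =>
      (∑ a, ∑ b, F j a b * zp p a * (starRingEnd ℂ) (zp p b)).re) := by
    refine Complex.continuous_re.comp ?_
    refine continuous_finsetSum _ fun a _ => continuous_finsetSum _ fun b _ => ?_
    exact (continuous_const.mul ((continuous_apply a).comp continuous_zp)).mul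
      (Complex.continuous_conj.comp ((continuous_apply b).comp continuous_zp))
  exact h1.sub h2

theorem norm_dil_le {σ : ℝ} (h0 : 0 < σ) (h1 : σ ≤ 1) (p : Cn (m + k)) : ‖dil σ p‖ ≤ σ * ‖p‖ := by
  unfold dil
  rw [norm_mk]
  apply max_le
  · rw [norm_smul, Complex.norm_real, Real.norm_of_nonneg h0.le]
    exact mul_le_mul_of_nonneg_left (norm_zp_le p) h0.le
  · rw [norm_smul, norm_pow, Complex.norm_real, Real.norm_of_nonneg h0.le]
    calc σ ^ 2 * ‖wp p‖ ≤ σ * ‖wp p‖ := by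
          apply mul_le_mul_of_nonneg_right _ (norm_nonneg _)
          nlinarith
      _ ≤ σ * ‖p‖ := mul_le_mul_of_nonneg_left (norm_wp_le p) h0.le

/-- The scales. -/
noncomputable def sg (δ : ℝ) (j : ℕ) : ℝ := min (δ / 2) (1 / ((j : ℝ) + 2))

theorem sg_pos {δ : ℝ} (hδ : 0 < δ) (j : ℕ) : 0 < sg δ j := by
  unfold sg
  have : (0 : ℝ) ≤ j := Nat.cast_nonneg j
  exact lt_min (by positivity) (by positivity)

theorem sg_lt {δ : ℝ} (hδ : 0 < δ) (j : ℕ) : sg δ j < δ := by
  unfold sg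
  exact (min_le_left _ _).trans_lt (by linarith)

theorem sg_le_one (δ : ℝ) (j : ℕ) : sg δ j ≤ 1 := by
  unfold sg
  refine (min_le_right _ _).trans ?_
  have : (0 : ℝ) ≤ j := Nat.cast_nonneg j
  rw [div_le_one (by positivity)]
  linarith

theorem sg_tendsto {δ : ℝ} (hδ : 0 < δ) : Tendsto (sg δ) atTop (𝓝 0) := by
  have h1 : Tendsto (fun j : ℕ => 1 / ((j : ℝ) + 2)) atTop (𝓝 0) := by
    have : Tendsto (fun j : ℕ => (j : ℝ) + 2) atTop atTop :=
      tendsto_atTop_add_const_right _ _ tendsto_natCast_atTop_atTop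
    have h := this.inv_tendsto_atTop
    refine h.congr fun j => ?_
    rw [Pi.inv_apply, one_div]
  exact squeeze_zero (fun j => (sg_pos hδ j).le) (fun j => min_le_right _ _) h1

theorem sg_tendsto' {δ : ℝ} (hδ : 0 < δ) : Tendsto (sg δ) atTop (𝓝[>] 0) :=
  tendsto_nhdsWithin_of_tendsto_nhds_of_eventually_within _ (sg_tendsto hδ)
    (Eventually.of_forall fun j => sg_pos hδ j)

end SoftAux

open SoftAux

theorem tSoft (h1 : S_Scale2) (h2 : S_Kon) (h3 : S_LogK) (h4 : S_CvxL) (h5 : S_PsdK)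
    (h6 : S_CompD) (h7 : S_ConeC) (h8 : S_AcN) (h9 : S_AcPk) (h10 : S_AcLi) (h11 : S_AcPD) :
    S_Soft := by
  intro N m k I U G K hI hK c R F C y0 μ M b hR hAc hF hC hCc hy0 hD1 hD2
  obtain ⟨r0, hr0, δ0, hδ0, hb0⟩ := hD1 (mk 0 (Complex.I • cx y0)) (by rw [hgt_base]; exact hy0)
  set p0 : Cn (m + k) := mk 0 (Complex.I • cx y0) with hp0
  set A : ℕ → Cn (m + k) → Cn (m + k) := fun j => dil (sg δ0 j) with hA
  set B : ℕ → Cn (m + k) → Cn (m + k) := fun j => dil (sg δ0 j)⁻¹ with hB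
  have hsub : ∀ q : Cn (m + k), hgt F q ∈ C → q ∈ DInf R A := by
    intro q hq
    obtain ⟨r, hr, δ, hδ, hb⟩ := hD1 q hq
    refine ⟨r, hr, ?_⟩
    filter_upwards [(sg_tendsto hδ0).eventually_lt_const hδ] with j hj x hx
    exact hb _ ⟨sg_pos hδ0 j, hj⟩ x hx
  have hfreq : ∀ (q : Cn (m + k)) (r : ℝ), 0 < r → (∃ᶠ j in atTop, ∀ x ∈ ball q r, A j x ∈ R) →
      hgt F q ∈ C := fun q r hr hq => hD2 q r hr ((sg_tendsto' hδ0).frequently hq)
  have hS : Scal R p0 A B :=
    { difA := fun j => differentiable_dil _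
      difB := fun j => differentiable_dil _
      AB := fun j x => dil_inv (sg_pos hδ0 j).ne' x
      BA := fun j x => dil_inv' (sg_pos hδ0 j).ne' x
      toz := by
        intro Q hQ ρ' hρ'
        obtain ⟨B0, hB0⟩ := hQ.isBounded.exists_norm_le
        have ht : Tendsto (fun j => sg δ0 j * |B0|) atTop (𝓝 0) := by
          simpa using (sg_tendsto hδ0).mul_const |B0|
        filter_upwards [ht.eventually_lt_const hρ'] with j hj x hx
        refine (norm_dil_le (sg_pos hδ0 j) (sg_le_one δ0 j) x).trans_lt (lt_of_le_of_lt ?_ hj)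
        exact mul_le_mul_of_nonneg_left ((hB0 x hx).trans (le_abs_self _)) (sg_pos hδ0 j).le
      start := fun j => hb0 _ ⟨sg_pos hδ0 j, sg_lt hδ0 j⟩ p0 (mem_ball_self hr0)
      base := ⟨r0, hr0, Eventually.of_forall fun j x hx =>
        hb0 _ ⟨sg_pos hδ0 j, sg_lt hδ0 j⟩ x hx⟩
      stab := fun q r hr hq => hsub q (hfreq q r hr hq)
      normal := by
        intro M0
        obtain ⟨M', hM'⟩ := h8 m k R μ M b hAc M0
        refine ⟨M', 1, 0, one_pos, fun j _ f hf hf2 hf0 t ht => ?_⟩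
        exact hM' (sg δ0 j) (sg_pos hδ0 j) (sg_le_one δ0 j) f hf (fun t ht => (hf2 t ht).1) hf0 t ht
      peak := h9 m k R μ M b hAc }
  have hDI : DInf R A = {p : Cn (m + k) | hgt F p ∈ C} := by
    ext q
    constructor
    · rintro ⟨r, hr, hq⟩
      exact hfreq q r hr hq.frequently
    · exact hsub q
  have hbi := h1 N (m + k) I U G K hI hK c R p0 A B hR hS
  rw [hDI, hp0, h6 m k F C y0 hy0] at hbi
  set Om := connectedComponentIn C y0 with hOm
  have hOo : IsOpen Om := hC.connectedComponentIn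
  have hOp : IsPreconnected Om := isPreconnected_connectedComponentIn
  have hOn : Om.Nonempty := ⟨y0, mem_connectedComponentIn hy0⟩
  have hOc : ∀ y ∈ Om, ∀ t : ℝ, 0 < t → t • y ∈ Om := h7 k C y0 hCc
  have hOC : Om ⊆ C := connectedComponentIn_subset C y0
  have hSo : IsOpen (SDn F Om) := hOo.preimage (continuous_hgt F)
  have hkon : KonP (SDn F Om) := h2 N (m + k) I U G K hI hK _ hSo hbi
  have hcv : Convex ℝ Om := h4 k Om hOo hOp (h3 m k F Om hOo hkon)
  obtain ⟨hpnt, hpd⟩ := h11 m k F Om μ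
    (fun a a' => M (Fin.castAdd k a) (Fin.castAdd k a')) b hAc.1 hOn hOc (by
      intro p hp
      refine h10 m k R μ M b hAc p ?_
      obtain ⟨r, hr, δ, hδ, hb⟩ := hD1 p (hOC hp)
      filter_upwards [Ioo_mem_nhdsGT hδ] with σ hσ
      exact hb σ hσ p (mem_ball_self hr))
  exact ⟨Om, ⟨hF, hOo, hOn, hcv, hOc, hpnt, h5 m k F Om hF hOn hOc hkon, hpd⟩, hbi⟩

end KVC
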